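import Pool.Agent.Lib.MP_eaf82e_pr.Lower

set_option autoImplicit false
set_option linter.unusedSectionVars false
open MeasureTheory Filter Topology Function
open scoped ENNReal

namespace Pool.Agent.Lib.MP_eaf82e_pr

lemma prod_edge {V M : Type*} [Fintype V] [LinearOrder V] [CommMonoid M] (F : V → V → M) :
    ∏ i, ∏ j, (if i < j then F i j else 1) = ∏ e : Edge V, F e.1.1 e.1.2 := by
  rw [← Finset.prod_product', ← Finset.prod_filter]
  exact Finset.prod_subtype (p := fun p : V × V => p.1 < p.2) _ (by simp) fun p => F p.1 p.2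

theorem Kern.both {w : ℝ → ℝ → ℝ} {c D : ℝ} (h : Kern w c D) {ε : ℝ} (hε : 0 < ε) :
    Tendsto (fun n : ℕ => prob w n fun ω =>
      (1 - ε) * (Phi w * n / (2 * Real.log n)) ≤ chi ω ∧
        (chi ω : ℝ) ≤ (1 + ε) * (Phi w * n / (2 * Real.log n))) atTop (𝓝 1) := by
  have hΦ : 0 < Phi w := h.cpos.trans_le h.le_Phi
  rw [Metric.tendsto_nhds]
  intro δ hδ
  filter_upwards [h.upper (mul_pos hε hΦ) (show 0 < δ / 3 by positivity),
    h.lower (mul_pos hε hΦ) (show 0 < δ / 3 by positivity)] with n h1 h2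
  have b1 := h.bd_Pr (n := n) (fun ω => (Phi w + ε * Phi w) * n / (2 * Real.log n) < chi ω)
  have b2 := h.bd_Pr (n := n) (fun ω => chi ω < (Phi w - ε * Phi w) * n / (2 * Real.log n))
  have b3 := h.bd_Pr (n := n) (fun ω => (1 - ε) * (Phi w * n / (2 * Real.log n)) ≤ chi ω ∧
        (chi ω : ℝ) ≤ (1 + ε) * (Phi w * n / (2 * Real.log n)))
  have h3 : (prob w n fun ω => (1 - ε) * (Phi w * n / (2 * Real.log n)) ≤ chi ω ∧
        (chi ω : ℝ) ≤ (1 + ε) * (Phi w * n / (2 * Real.log n))) ≤ 1 := by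
    calc _ ≤ ∫ _x, (1 : ℝ) ∂Pn n :=
          integral_mono (b3.integrable _) (integrable_const _) fun x => Pr_le_one (h.isP x) _
      _ = 1 := by simp
  have h4 := integral_mono (integrable_const (μ := Pn n) (1 : ℝ))
    (((b3.add b1).add b2).integrable _) (fun x => by
      simp only
      unfold Pr
      rw [← Ex_add, ← Ex_add]
      refine (Ex_const (qq (wx w x)) 1).symm.le.trans (Ex_mono (h.isP x) fun ω => ?_)
      have a1 := one_nonneg ((Phi w + ε * Phi w) * n / (2 * Real.log n) < chi ω)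
      have a2 := one_nonneg (chi ω < (Phi w - ε * Phi w) * n / (2 * Real.log n))
      have a3 := one_nonneg ((1 - ε) * (Phi w * n / (2 * Real.log n)) ≤ chi ω ∧
        (chi ω : ℝ) ≤ (1 + ε) * (Phi w * n / (2 * Real.log n)))
      by_cases c1 : (Phi w + ε * Phi w) * n / (2 * Real.log n) < chi ω
      · rw [one_pos' c1]; linarith
      by_cases c2 : chi ω < (Phi w - ε * Phi w) * n / (2 * Real.log n)
      · rw [one_pos' c2]; linarith
      rw [one_pos' ⟨le_trans (le_of_eq (by ring)) (not_lt.1 c2),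
        le_trans (not_lt.1 c1) (le_of_eq (by ring))⟩]
      linarith)
  rw [integral_add ((b3.add b1).integrable _) (b2.integrable _),
    integral_add (b3.integrable _) (b1.integrable _)] at h4
  simp only [integral_const, probReal_univ, smul_eq_mul, one_mul] at h4
  unfold prob at h1 h2 h3 ⊢
  rw [Real.dist_eq, abs_lt]
  constructor <;> linarith

noncomputable def wc (W : ℝ → ℝ → ℝ) (c d : ℝ) (x y : ℝ) : ℝ :=
  -Real.log (1 - max c (min d (W x y)))

lemma kern_wc {W : ℝ → ℝ → ℝ} (hW : Measurable (uncurry W)) (hs : ∀ x y, W x y = W y x)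
    {c d : ℝ} (hc : 0 < c) (hd : d < 1) (hcd : c ≤ d) :
    Kern (wc W c d) (-Real.log (1 - c)) (-Real.log (1 - d)) where
  meas := (measurable_const.sub (measurable_const.max (measurable_const.min hW))).log.neg
  symm := fun x y => by unfold wc; rw [hs]
  cpos := neg_pos.2 (Real.log_neg (by linarith) (by linarith))
  lo := fun x y => by
    have h1 : max c (min d (W x y)) ≤ d := max_le hcd (min_le_left _ _)
    exact neg_le_neg (Real.log_le_log (by linarith) (by linarith [le_max_left c (min d (W x y))]))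
  hi := fun x y => by
    have h1 : max c (min d (W x y)) ≤ d := max_le hcd (min_le_left _ _)
    exact neg_le_neg (Real.log_le_log (by linarith) (by linarith))

lemma wc_eq {W : ℝ → ℝ → ℝ} {c d x y : ℝ} (h : c ≤ W x y ∧ W x y ≤ d) :
    wc W c d x y = -Real.log (1 - W x y) := by
  unfold wc; rw [min_eq_right h.2, max_eq_right h.1]

open Classical in
theorem main :
    ∀ W : ℝ → ℝ → ℝ, Measurable (Function.uncurry W) → (∀ x y, W x y = W y x) →
    (∃ c d : ℝ, 0 < c ∧ d < 1 ∧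
      ∀ x ∈ Set.Icc (0:ℝ) 1, ∀ y ∈ Set.Icc (0:ℝ) 1, c ≤ W x y ∧ W x y ≤ d) →
    ∀ φ : Measure ℝ → ℝ,
      (∀ μ : Measure ℝ, φ μ = sSup {r : ℝ | ∃ S : Set ℝ, MeasurableSet S ∧ 0 < μ S ∧
        r = (μ S).toReal⁻¹ * ∫ x in S, (∫ y in S, Real.log (1 / (1 - W x y)) ∂μ) ∂μ}) →
    ∀ Φ : ℝ,
      Φ = sInf {t : ℝ | ∃ k : ℕ, ∃ ν : Fin k → Measure ℝ, ∃ α : Fin k → ℝ,
        (∀ i, IsProbabilityMeasure (ν i)) ∧ (∀ i, ν i (Set.Icc (0:ℝ) 1)ᶜ = 0) ∧
        (∀ i, 0 ≤ α i) ∧ ∑ i, α i = 1 ∧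
        ∑ i, ENNReal.ofReal (α i) • ν i = volume.restrict (Set.Icc (0:ℝ) 1) ∧
        t = ∑ i, α i * φ (ν i)} →
    ∀ ε : ℝ, 0 < ε →
      Tendsto (fun n : ℕ =>
        ∫⁻ x in Set.univ.pi (fun _ : Fin n => Set.Icc (0:ℝ) 1),
          ∑' G : SimpleGraph (Fin n),
            (if (1 - ε) * (Φ * n / (2 * Real.log n)) ≤ (G.chromaticNumber.toNat : ℝ) ∧
                (G.chromaticNumber.toNat : ℝ) ≤ (1 + ε) * (Φ * n / (2 * Real.log n))
             then ∏ i : Fin n, ∏ j : Fin n,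
               (if i < j then
                  (if G.Adj i j then ENNReal.ofReal (W (x i) (x j))
                   else ENNReal.ofReal (1 - W (x i) (x j)))
                else 1)
             else 0))
        atTop (𝓝 1) := by
  rintro W hW hs ⟨c, d, hc, hd, hb⟩ φ hφ Φ hΦ ε hε
  have hcd : c ≤ d := by
    have := hb 0 (by simp) 0 (by simp)
    linarith [this.1, this.2]
  have hk := kern_wc hW hs hc hd hcd
  have hφ' : ∀ μ : Measure ℝ, μ (Set.Icc (0:ℝ) 1)ᶜ = 0 → φ μ = phi (wc W c d) μ := by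
    intro μ hμ
    have hae : ∀ S, ∀ᵐ x ∂μ.restrict S, x ∈ Set.Icc (0:ℝ) 1 := fun S => ae_restrict_of_ae hμ
    have : ∀ S, ∫ x in S, (∫ y in S, Real.log (1 / (1 - W x y)) ∂μ) ∂μ =
        II (wc W c d) (μ.restrict S) (μ.restrict S) := by
      intro S
      refine integral_congr_ae ?_
      filter_upwards [hae S] with x hx
      refine integral_congr_ae ?_
      filter_upwards [hae S] with y hy
      rw [wc_eq (hb x hx y hy), one_div, Real.log_inv]
    rw [hφ]
    simp_rw [this]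
    rfl
  have hΦ' : Φ = Phi (wc W c d) := by
    rw [hΦ]
    unfold Phi PhiSet IsDec
    congr 1
    ext t
    constructor
    · rintro ⟨k, ν, α, h1, h2, h3, h4, h5, rfl⟩
      exact ⟨k, ν, α, ⟨h1, h2, h3, h4, h5⟩, Finset.sum_congr rfl fun i _ => by rw [hφ' _ (h2 i)]⟩
    · rintro ⟨k, ν, α, ⟨h1, h2, h3, h4, h5⟩, rfl⟩
      exact ⟨k, ν, α, h1, h2, h3, h4, h5, Finset.sum_congr rfl fun i _ => by rw [hφ' _ (h2 i)]⟩
  have h1 := ENNReal.tendsto_ofReal (hk.both hε)
  rw [ENNReal.ofReal_one, ← hΦ'] at h1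
  refine h1.congr fun n => ?_
  unfold prob
  rw [ofReal_integral_eq_lintegral_ofReal ((hk.bd_Pr _).integrable _)
    (ae_of_all _ fun x => Pr_nonneg (hk.isP x) _)]
  have h2 : Pn n = volume.restrict (Set.univ.pi fun _ : Fin n => Set.Icc (0:ℝ) 1) := by
    rw [volume_pi, Measure.restrict_pi_pi]; rfl
  rw [h2]
  refine setLIntegral_congr_fun (MeasurableSet.univ_pi fun _ => measurableSet_Icc) fun x hx => ?_
  rw [tsum_fintype, ← (Equiv.ofBijective _ gr_bijective).sum_comp]
  unfold Pr Ex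
  rw [ENNReal.ofReal_sum_of_nonneg fun ω _ => mul_nonneg (wt_nonneg (hk.isP x) ω) (one_nonneg _)]
  refine Finset.sum_congr rfl fun ω _ => ?_
  simp only [Equiv.ofBijective_apply, chi]
  split_ifs with h3
  · rw [one_pos' h3, mul_one, prod_edge]
    unfold wt
    rw [ENNReal.ofReal_prod_of_nonneg fun e _ => by
      have := hk.isP x e
      split_ifs <;> linarith [this.1, this.2]]
    refine Finset.prod_congr rfl fun e _ => ?_
    have h4 := hb _ (hx e.1.1 trivial) _ (hx e.1.2 trivial)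
    have h5 : qq (wx (wc W c d) x) e = W (x e.1.1) (x e.1.2) := by
      unfold qq wx
      rw [wc_eq h4, neg_neg, Real.exp_log (by linarith [h4.2])]; ring
    rw [h5]
    by_cases h6 : ω e = true
    · rw [if_pos h6, if_pos ((gr_adj ω e.2).2 h6)]
    · rw [if_neg h6, if_neg fun h7 => h6 ((gr_adj ω e.2).1 h7)]
  · rw [one_neg' h3, mul_zero, ENNReal.ofReal_zero]

end Pool.Agent.Lib.MP_eaf82e_pr
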