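import Mathlib

set_option autoImplicit false
set_option linter.unusedSectionVars false
open Finset

namespace Pool.Agent.Lib.MP_eaf82e_pr

variable {ι : Type*} [Fintype ι] [DecidableEq ι]

noncomputable def wt (q : ι → ℝ) (ω : ι → Bool) : ℝ := ∏ e, if ω e then q e else 1 - q e

noncomputable def Ex (q : ι → ℝ) (f : (ι → Bool) → ℝ) : ℝ := ∑ ω, wt q ω * f ω

noncomputable def ind (A : Finset ι) (ω : ι → Bool) : ℝ := if ∀ e ∈ A, ω e = false then 1 else 0

noncomputable def pr (q : ι → ℝ) (A : Finset ι) : ℝ := ∏ e ∈ A, (1 - q e)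

def IsP (q : ι → ℝ) : Prop := ∀ e, 0 ≤ q e ∧ q e ≤ 1

lemma wt_nonneg {q : ι → ℝ} (hq : IsP q) (ω : ι → Bool) : 0 ≤ wt q ω := by
  apply Finset.prod_nonneg
  intro e _
  split_ifs
  · exact (hq e).1
  · linarith [(hq e).2]

lemma Ex_prod (q : ι → ℝ) (f : ι → Bool → ℝ) :
    Ex q (fun ω => ∏ e, f e (ω e)) = ∏ e, (q e * f e true + (1 - q e) * f e false) := by
  unfold Ex wt
  simp_rw [← Finset.prod_mul_distrib]
  have := Finset.prod_univ_sum (fun _ : ι => (univ : Finset Bool))
    (fun e b => (if b then q e else 1 - q e) * f e b)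
  rw [Fintype.piFinset_univ] at this
  rw [← this]
  simp

lemma sum_wt (q : ι → ℝ) : ∑ ω, wt q ω = 1 := by
  have := Ex_prod q (fun _ _ => 1)
  simpa [Ex] using this

lemma Ex_const (q : ι → ℝ) (c : ℝ) : Ex q (fun _ => c) = c := by
  unfold Ex; rw [← Finset.sum_mul, sum_wt, one_mul]

lemma Ex_mono {q : ι → ℝ} (hq : IsP q) {f g : (ι → Bool) → ℝ} (h : ∀ ω, f ω ≤ g ω) :
    Ex q f ≤ Ex q g :=
  Finset.sum_le_sum fun ω _ => mul_le_mul_of_nonneg_left (h ω) (wt_nonneg hq ω)

lemma Ex_nonneg {q : ι → ℝ} (hq : IsP q) {f : (ι → Bool) → ℝ} (h : ∀ ω, 0 ≤ f ω) :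
    0 ≤ Ex q f :=
  Finset.sum_nonneg fun ω _ => mul_nonneg (wt_nonneg hq ω) (h ω)

lemma Ex_add (q : ι → ℝ) (f g : (ι → Bool) → ℝ) :
    Ex q (fun ω => f ω + g ω) = Ex q f + Ex q g := by
  unfold Ex; simp_rw [mul_add, Finset.sum_add_distrib]

lemma Ex_sub (q : ι → ℝ) (f g : (ι → Bool) → ℝ) :
    Ex q (fun ω => f ω - g ω) = Ex q f - Ex q g := by
  unfold Ex; simp_rw [mul_sub, Finset.sum_sub_distrib]

lemma Ex_const_mul (q : ι → ℝ) (c : ℝ) (f : (ι → Bool) → ℝ) :
    Ex q (fun ω => c * f ω) = c * Ex q f := by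
  unfold Ex; rw [Finset.mul_sum]; exact Finset.sum_congr rfl fun _ _ => by ring

lemma Ex_sum {κ : Type*} (q : ι → ℝ) (s : Finset κ) (f : κ → (ι → Bool) → ℝ) :
    Ex q (fun ω => ∑ k ∈ s, f k ω) = ∑ k ∈ s, Ex q (f k) := by
  unfold Ex; simp_rw [Finset.mul_sum]; exact Finset.sum_comm

lemma ind_nonneg (A : Finset ι) (ω : ι → Bool) : 0 ≤ ind A ω := by
  unfold ind; split_ifs <;> norm_num

lemma ind_le_one (A : Finset ι) (ω : ι → Bool) : ind A ω ≤ 1 := by
  unfold ind; split_ifs <;> norm_num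

lemma ind_mul (A B : Finset ι) (ω : ι → Bool) : ind A ω * ind B ω = ind (A ∪ B) ω := by
  unfold ind
  by_cases hA : ∀ e ∈ A, ω e = false
  · by_cases hB : ∀ e ∈ B, ω e = false
    · rw [if_pos hA, if_pos hB, if_pos, one_mul]
      intro e he
      rcases Finset.mem_union.1 he with h | h
      exacts [hA e h, hB e h]
    · rw [if_neg hB, mul_zero, if_neg]
      exact fun h => hB fun e he => h e (Finset.mem_union_right _ he)
  · rw [if_neg hA, zero_mul, if_neg]
    exact fun h => hA fun e he => h e (Finset.mem_union_left _ he)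

lemma ind_anti (A : Finset ι) : Antitone (ind A) := by
  intro ω ω' h
  unfold ind
  by_cases hA : ∀ e ∈ A, ω' e = false
  · rw [if_pos hA, if_pos]
    intro e he
    have := h e
    rw [hA e he] at this
    exact le_bot_iff.1 this
  · rw [if_neg hA]; split_ifs <;> norm_num

lemma ind_eq_prod (A : Finset ι) (ω : ι → Bool) :
    ind A ω = ∏ e, (if e ∈ A ∧ ω e = true then (0 : ℝ) else 1) := by
  unfold ind
  split_ifs with h
  · symm
    apply Finset.prod_eq_one
    intro e _
    rw [if_neg]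
    rintro ⟨h1, h2⟩
    rw [h e h1] at h2
    exact absurd h2 (by simp)
  · push Not at h
    obtain ⟨e, he, h2⟩ := h
    symm
    apply Finset.prod_eq_zero (Finset.mem_univ e)
    rw [if_pos ⟨he, by simpa using h2⟩]

lemma Ex_ind (q : ι → ℝ) (A : Finset ι) : Ex q (ind A) = pr q A := by
  have := Ex_prod q (fun e b => if e ∈ A ∧ b = true then (0 : ℝ) else 1)
  have h2 : ind A = fun ω => ∏ e, (if e ∈ A ∧ ω e = true then (0 : ℝ) else 1) :=
    funext (ind_eq_prod A)
  rw [h2, this, pr, ← Finset.prod_filter_mul_prod_filter_not univ (· ∈ A)]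
  have h3 : univ.filter (· ∈ A) = A := by ext; simp
  rw [h3, Finset.prod_eq_one (s := univ.filter fun e => ¬ e ∈ A), mul_one]
  · exact Finset.prod_congr rfl fun e he => by simp [he]
  · intro e he
    have : e ∉ A := by simpa using he
    simp [this]

lemma pr_nonneg {q : ι → ℝ} (hq : IsP q) (A : Finset ι) : 0 ≤ pr q A :=
  Finset.prod_nonneg fun e _ => by linarith [(hq e).2]

def mrg (A : Finset ι) (ω ω' : ι → Bool) : ι → Bool := fun e => if e ∈ A then ω e else ω' e

def mrgEquiv (A : Finset ι) : (ι → Bool) × (ι → Bool) ≃ (ι → Bool) × (ι → Bool) :=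
  Function.Involutive.toPerm (fun p => (mrg A p.1 p.2, mrg A p.2 p.1)) (by
    rintro ⟨a, b⟩
    ext e <;> simp only [mrg] <;> split_ifs <;> rfl)

lemma wt_mrg (q : ι → ℝ) (A : Finset ι) (ω ω' : ι → Bool) :
    wt q (mrg A ω ω') * wt q (mrg A ω' ω) = wt q ω * wt q ω' := by
  unfold wt
  rw [← Finset.prod_mul_distrib, ← Finset.prod_mul_distrib]
  apply Finset.prod_congr rfl
  intro e _
  by_cases h : e ∈ A
  · simp only [mrg, if_pos h]
  · simp only [mrg, if_neg h]; ring

lemma Ex_indep (q : ι → ℝ) (A : Finset ι) (f g : (ι → Bool) → ℝ)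
    (hf : ∀ ω ω', (∀ e ∈ A, ω e = ω' e) → f ω = f ω')
    (hg : ∀ ω ω', (∀ e ∉ A, ω e = ω' e) → g ω = g ω') :
    Ex q (fun ω => f ω * g ω) = Ex q f * Ex q g := by
  have h1 : Ex q f * Ex q g =
      ∑ p : (ι → Bool) × (ι → Bool), wt q p.1 * wt q p.2 * (f p.1 * g p.2) := by
    unfold Ex
    rw [Finset.sum_mul_sum, Fintype.sum_prod_type]
    exact Finset.sum_congr rfl fun _ _ => Finset.sum_congr rfl fun _ _ => by ring
  have h2 : Ex q (fun ω => f ω * g ω) =
      ∑ p : (ι → Bool) × (ι → Bool), wt q p.1 * wt q p.2 * (f p.1 * g p.1) := by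
    unfold Ex
    rw [Fintype.sum_prod_type]
    refine Finset.sum_congr rfl fun ω _ => ?_
    simp only
    rw [← Finset.sum_mul, ← Finset.mul_sum, sum_wt, mul_one]
  rw [h1, h2, ← (mrgEquiv A).sum_comp]
  refine Finset.sum_congr rfl fun p _ => ?_
  change wt q (mrg A p.1 p.2) * wt q (mrg A p.2 p.1) * (f (mrg A p.1 p.2) * g (mrg A p.1 p.2)) = _
  rw [wt_mrg, hf (mrg A p.1 p.2) p.1 (fun e he => by simp [mrg, he]),
    hg (mrg A p.1 p.2) p.2 (fun e he => by simp [mrg, he])]

lemma wt_inf_sup (q : ι → ℝ) (a b : ι → Bool) :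
    wt q a * wt q b = wt q (a ⊓ b) * wt q (a ⊔ b) := by
  unfold wt
  rw [← Finset.prod_mul_distrib, ← Finset.prod_mul_distrib]
  apply Finset.prod_congr rfl
  intro e _
  obtain ha | ha := Bool.eq_false_or_eq_true (a e) <;>
    obtain hb | hb := Bool.eq_false_or_eq_true (b e) <;> simp [ha, hb, mul_comm]

lemma fkg_ind {q : ι → ℝ} (hq : IsP q) (A : Finset ι) (Y Z : (ι → Bool) → ℝ)
    (hY0 : ∀ ω, 0 ≤ Y ω) (hZ0 : ∀ ω, 0 ≤ Z ω) (hY : Monotone Y) (hZ : Monotone Z) :
    Ex q (fun ω => ind A ω * Y ω) * Ex q (fun ω => ind A ω * Z ω) ≤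
      pr q A * Ex q (fun ω => ind A ω * (Y ω * Z ω)) := by
  have := fkg (μ := fun ω => wt q ω * ind A ω) (f := Y) (g := Z)
    (fun ω => mul_nonneg (wt_nonneg hq ω) (ind_nonneg A ω)) hY0 hZ0 hY hZ (by
      intro a b
      rw [mul_mul_mul_comm, mul_mul_mul_comm (wt q (a ⊓ b)), ← wt_inf_sup]
      apply mul_le_mul_of_nonneg_left _ (mul_nonneg (wt_nonneg hq _) (wt_nonneg hq _))
      by_cases ha : ∀ e ∈ A, a e = false
      · by_cases hb : ∀ e ∈ A, b e = false
        · have h1 : ∀ e ∈ A, (a ⊓ b) e = false := fun e he => by simp [ha e he]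
          have h2 : ∀ e ∈ A, (a ⊔ b) e = false := fun e he => by simp [ha e he, hb e he]
          simp only [ind, if_pos ha, if_pos hb, if_pos h1, if_pos h2, le_refl]
        · have : ind A b = 0 := if_neg hb
          rw [this, mul_zero]
          exact mul_nonneg (ind_nonneg _ _) (ind_nonneg _ _)
      · have : ind A a = 0 := if_neg ha
        rw [this, zero_mul]
        exact mul_nonneg (ind_nonneg _ _) (ind_nonneg _ _))
  rw [← Ex_ind]
  unfold Ex
  simpa only [mul_assoc] using this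

lemma one_sub_sum_le_prod {κ : Type*} (s : Finset κ) (a : κ → ℝ) (h0 : ∀ k, 0 ≤ a k)
    (h1 : ∀ k, a k ≤ 1) : 1 - ∑ k ∈ s, a k ≤ ∏ k ∈ s, (1 - a k) := by
  classical
  induction s using Finset.induction_on with
  | empty => simp
  | insert k s hk ih =>
    rw [Finset.sum_insert hk, Finset.prod_insert hk]
    have h2 : 0 ≤ ∑ k ∈ s, a k := Finset.sum_nonneg fun k _ => h0 k
    have := mul_le_mul_of_nonneg_left ih (show 0 ≤ 1 - a k by linarith [h1 k])
    nlinarith [mul_nonneg (h0 k) h2]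

noncomputable def jprod {κ : Type*} (A : κ → Finset ι) (c : κ → ℝ) (s : Finset κ)
    (ω : ι → Bool) : ℝ := ∏ k ∈ s, (1 - c k * ind (A k) ω)

section
variable {κ : Type*} (A : κ → Finset ι) (c : κ → ℝ) (hc0 : ∀ k, 0 ≤ c k) (hc1 : ∀ k, c k ≤ 1)
include hc0 hc1

lemma jfac_nonneg (k : κ) (ω : ι → Bool) : 0 ≤ 1 - c k * ind (A k) ω := by
  have := mul_le_one₀ (hc1 k) (ind_nonneg (A k) ω) (ind_le_one (A k) ω)
  linarith

lemma jprod_nonneg (s : Finset κ) (ω : ι → Bool) : 0 ≤ jprod A c s ω :=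
  Finset.prod_nonneg fun k _ => jfac_nonneg A c hc0 hc1 k ω

lemma jprod_le_one (s : Finset κ) (ω : ι → Bool) : jprod A c s ω ≤ 1 :=
  Finset.prod_le_one (fun k _ => jfac_nonneg A c hc0 hc1 k ω) fun k _ => by
    linarith [mul_nonneg (hc0 k) (ind_nonneg (A k) ω)]

lemma jprod_mono (s : Finset κ) : Monotone (jprod A c s) := by
  intro ω ω' h
  apply Finset.prod_le_prod (fun k _ => jfac_nonneg A c hc0 hc1 k ω)
  intro k _
  have := mul_le_mul_of_nonneg_left (ind_anti (A k) h) (hc0 k)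
  linarith

lemma janson_step {q : ι → ℝ} (hq : IsP q) (s : Finset κ) (B : Finset ι) :
    (pr q B - ∑ j ∈ s, if (B ∩ A j).Nonempty then c j * pr q (B ∪ A j) else 0) *
      Ex q (jprod A c s) ≤ Ex q (fun ω => ind B ω * jprod A c s ω) := by
  classical
  set s1 := s.filter fun j => (B ∩ A j).Nonempty
  set s2 := s.filter fun j => ¬ (B ∩ A j).Nonempty
  have hsplit : ∀ ω, jprod A c s ω = jprod A c s1 ω * jprod A c s2 ω := fun ω =>
    (Finset.prod_filter_mul_prod_filter_not s _ _).symm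
  have h1 := fkg_ind hq B (jprod A c s1) (jprod A c s2) (jprod_nonneg A c hc0 hc1 s1)
    (jprod_nonneg A c hc0 hc1 s2) (jprod_mono A c hc0 hc1 s1) (jprod_mono A c hc0 hc1 s2)
  have h2 : Ex q (fun ω => ind B ω * jprod A c s2 ω) = pr q B * Ex q (jprod A c s2) := by
    rw [Ex_indep q B, Ex_ind]
    · intro ω ω' h
      unfold ind
      congr 1
      exact propext (forall₂_congr fun e he => by rw [h e he])
    · intro ω ω' h
      apply Finset.prod_congr rfl
      intro j hj
      have hj2 := (Finset.mem_filter.1 hj).2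
      unfold ind
      congr 3
      refine propext (forall₂_congr fun e he => ?_)
      rw [h e fun hB => hj2 ⟨e, Finset.mem_inter.2 ⟨hB, he⟩⟩]
  have h3 : pr q B - ∑ j ∈ s, (if (B ∩ A j).Nonempty then c j * pr q (B ∪ A j) else 0) ≤
      Ex q (fun ω => ind B ω * jprod A c s1 ω) := by
    rw [← Finset.sum_filter]
    have : ∀ j, c j * pr q (B ∪ A j) = Ex q (fun ω => ind B ω * (c j * ind (A j) ω)) := by
      intro j
      rw [← Ex_ind, ← Ex_const_mul]
      congr 1
      ext ω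
      rw [← ind_mul]; ring
    simp_rw [this]
    rw [← Ex_sum, ← Ex_ind, ← Ex_sub]
    apply Ex_mono hq
    intro ω
    rw [← Finset.mul_sum]
    have := one_sub_sum_le_prod s1 (fun j => c j * ind (A j) ω)
      (fun j => mul_nonneg (hc0 j) (ind_nonneg _ _))
      (fun j => mul_le_one₀ (hc1 j) (ind_nonneg _ _) (ind_le_one _ _))
    have h4 := mul_le_mul_of_nonneg_left this (ind_nonneg B ω)
    unfold jprod
    linarith
  have h4 : Ex q (jprod A c s) ≤ Ex q (jprod A c s2) := by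
    apply Ex_mono hq
    intro ω
    rw [hsplit]
    exact mul_le_of_le_one_left (jprod_nonneg A c hc0 hc1 s2 ω) (jprod_le_one A c hc0 hc1 s1 ω)
  have h5 : 0 ≤ Ex q (jprod A c s) := Ex_nonneg hq (jprod_nonneg A c hc0 hc1 s)
  have h6 : 0 ≤ Ex q (fun ω => ind B ω * jprod A c s1 ω) :=
    Ex_nonneg hq fun ω => mul_nonneg (ind_nonneg _ _) (jprod_nonneg A c hc0 hc1 s1 ω)
  have h7 : 0 ≤ Ex q (fun ω => ind B ω * jprod A c s ω) :=
    Ex_nonneg hq fun ω => mul_nonneg (ind_nonneg _ _) (jprod_nonneg A c hc0 hc1 s ω)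
  simp_rw [← hsplit] at h1
  rw [h2] at h1
  rcases (pr_nonneg hq B).eq_or_lt with h0 | h0
  · refine le_trans (mul_nonpos_of_nonpos_of_nonneg ?_ h5) h7
    rw [← h0, zero_sub, neg_nonpos]
    refine Finset.sum_nonneg fun j _ => ?_
    split_ifs
    · exact mul_nonneg (hc0 j) (pr_nonneg hq _)
    · exact le_rfl
  · have h8 : Ex q (fun ω => ind B ω * jprod A c s1 ω) * Ex q (jprod A c s2) ≤
        Ex q (fun ω => ind B ω * jprod A c s ω) := by
      apply le_of_mul_le_mul_left _ h0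
      linarith
    calc _ ≤ Ex q (fun ω => ind B ω * jprod A c s1 ω) * Ex q (jprod A c s) :=
          mul_le_mul_of_nonneg_right h3 h5
      _ ≤ _ := (mul_le_mul_of_nonneg_left h4 h6).trans h8

lemma janson_aux [DecidableEq κ] {q : ι → ℝ} (hq : IsP q) (s : Finset κ) :
    Ex q (jprod A c s) ≤ Real.exp (-(∑ k ∈ s, c k * pr q (A k)) +
      ∑ k ∈ s, ∑ j ∈ s.erase k,
        if (A k ∩ A j).Nonempty then c k * c j * pr q (A k ∪ A j) else 0) := by
  induction s using Finset.induction_on with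
  | empty =>
    have : jprod A c ∅ = fun _ => 1 := by ext; simp [jprod]
    rw [this, Ex_const]; simp
  | insert k s hk ih =>
    have h1 : Ex q (jprod A c (insert k s)) =
        Ex q (jprod A c s) - c k * Ex q (fun ω => ind (A k) ω * jprod A c s ω) := by
      rw [← Ex_const_mul, ← Ex_sub]
      congr 1
      ext ω
      unfold jprod
      rw [Finset.prod_insert hk]; ring
    have h2 := janson_step A c hc0 hc1 hq s (A k)
    set t := pr q (A k) - ∑ j ∈ s, if (A k ∩ A j).Nonempty then c j * pr q (A k ∪ A j) else 0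
      with ht
    have h5 : 0 ≤ Ex q (jprod A c s) := Ex_nonneg hq (jprod_nonneg A c hc0 hc1 s)
    have h3 : Ex q (jprod A c (insert k s)) ≤ Real.exp (-(c k * t)) * Ex q (jprod A c s) := by
      have := mul_le_mul_of_nonneg_left h2 (hc0 k)
      have h4 := mul_le_mul_of_nonneg_right (Real.add_one_le_exp (-(c k * t))) h5
      rw [h1]; nlinarith
    refine h3.trans ((mul_le_mul_of_nonneg_left ih (Real.exp_pos _).le).trans ?_)
    rw [← Real.exp_add]
    apply Real.exp_le_exp.2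
    rw [Finset.sum_insert hk, Finset.sum_insert hk, Finset.erase_insert hk]
    have h6 : ∑ i ∈ s, ∑ j ∈ s.erase i,
        (if (A i ∩ A j).Nonempty then c i * c j * pr q (A i ∪ A j) else 0) ≤
        ∑ i ∈ s, ∑ j ∈ (insert k s).erase i,
        (if (A i ∩ A j).Nonempty then c i * c j * pr q (A i ∪ A j) else 0) := by
      refine Finset.sum_le_sum fun i _ => ?_
      apply Finset.sum_le_sum_of_subset_of_nonneg
        (Finset.erase_subset_erase _ (Finset.subset_insert _ _))
      intro j _ _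
      split_ifs
      · exact mul_nonneg (mul_nonneg (hc0 i) (hc0 j)) (pr_nonneg hq _)
      · exact le_rfl
    have h7 : c k * t = c k * pr q (A k) - ∑ j ∈ s,
        (if (A k ∩ A j).Nonempty then c k * c j * pr q (A k ∪ A j) else 0) := by
      rw [ht, mul_sub, Finset.mul_sum]
      congr 1
      refine Finset.sum_congr rfl fun j _ => ?_
      split_ifs <;> ring
    linarith

end

open Classical in
noncomputable def one (P : Prop) : ℝ := if P then 1 else 0

lemma one_pos' {P : Prop} (h : P) : one P = 1 := if_pos h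
lemma one_neg' {P : Prop} (h : ¬ P) : one P = 0 := if_neg h
lemma one_nonneg (P : Prop) : 0 ≤ one P := by unfold one; split_ifs <;> norm_num
lemma one_le (P : Prop) : one P ≤ 1 := by unfold one; split_ifs <;> norm_num
lemma one_mono {P Q : Prop} (h : P → Q) : one P ≤ one Q := by
  by_cases hP : P
  · rw [one_pos' hP, one_pos' (h hP)]
  · rw [one_neg' hP]; exact one_nonneg _
lemma one_or_le (P Q : Prop) : one (P ∨ Q) ≤ one P + one Q := by
  by_cases hP : P
  · rw [one_pos' hP]; linarith [one_le (P ∨ Q), one_nonneg Q]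
  · rw [one_neg' hP, zero_add]; exact one_mono fun h => h.resolve_left hP
lemma one_exists_le {κ : Type*} (s : Finset κ) (P : κ → Prop) :
    one (∃ k ∈ s, P k) ≤ ∑ k ∈ s, one (P k) := by
  by_cases h : ∃ k ∈ s, P k
  · obtain ⟨k, hk, hP⟩ := h
    refine (one_le _).trans ?_
    rw [← one_pos' hP]
    exact Finset.single_le_sum (f := fun k => one (P k)) (fun _ _ => one_nonneg _) hk
  · rw [one_neg' h]; exact Finset.sum_nonneg fun _ _ => one_nonneg _

noncomputable def Pr (q : ι → ℝ) (E : (ι → Bool) → Prop) : ℝ := Ex q fun ω => one (E ω)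

lemma Pr_nonneg {q : ι → ℝ} (hq : IsP q) (E : (ι → Bool) → Prop) : 0 ≤ Pr q E :=
  Ex_nonneg hq fun _ => one_nonneg _

lemma Pr_le_one {q : ι → ℝ} (hq : IsP q) (E : (ι → Bool) → Prop) : Pr q E ≤ 1 := by
  rw [← Ex_const q 1]; exact Ex_mono hq fun _ => one_le _

lemma Pr_mono {q : ι → ℝ} (hq : IsP q) {E F : (ι → Bool) → Prop} (h : ∀ ω, E ω → F ω) :
    Pr q E ≤ Pr q F := Ex_mono hq fun ω => one_mono (h ω)

lemma Pr_or_le {q : ι → ℝ} (hq : IsP q) (E F : (ι → Bool) → Prop) :
    Pr q (fun ω => E ω ∨ F ω) ≤ Pr q E + Pr q F := by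
  unfold Pr; rw [← Ex_add]; exact Ex_mono hq fun ω => one_or_le _ _

lemma Pr_exists_le {κ : Type*} {q : ι → ℝ} (hq : IsP q) (s : Finset κ)
    (E : κ → (ι → Bool) → Prop) :
    Pr q (fun ω => ∃ k ∈ s, E k ω) ≤ ∑ k ∈ s, Pr q (E k) := by
  unfold Pr; rw [← Ex_sum]; exact Ex_mono hq fun ω => one_exists_le s _

lemma Pr_ind (q : ι → ℝ) (A : Finset ι) : Pr q (fun ω => ∀ e ∈ A, ω e = false) = pr q A := by
  rw [← Ex_ind]
  unfold Pr
  congr 1
  ext ω
  by_cases h : ∀ e ∈ A, ω e = false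
  · rw [one_pos' h, ind, if_pos h]
  · rw [one_neg' h, ind, if_neg h]

open Classical in
/-- Weighted Janson inequality. -/
theorem janson {κ : Type*} {q : ι → ℝ} (hq : IsP q) (s : Finset κ) (A : κ → Finset ι)
    (hA : ∀ k ∈ s, (A k).Nonempty) (c : κ → ℝ) (hc : ∀ k, 0 ≤ c k) :
    Pr q (fun ω => ∀ k ∈ s, ¬ (∀ e ∈ A k, ω e = false)) ≤
      Real.exp (-(∑ k ∈ s, c k * pr q (A k)) + ∑ k ∈ s, ∑ j ∈ s,
        if (A k ∩ A j).Nonempty then c k * c j * pr q (A k ∪ A j) else 0) := by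
  have hc0 : ∀ k, 0 ≤ min (c k) 1 := fun k => le_min (hc k) zero_le_one
  have hc1 : ∀ k, min (c k) 1 ≤ 1 := fun k => min_le_right _ _
  refine le_trans (Ex_mono hq fun ω => ?_)
    ((janson_aux A (fun k => min (c k) 1) hc0 hc1 hq s).trans ?_)
  · by_cases h : ∀ k ∈ s, ¬ (∀ e ∈ A k, ω e = false)
    · unfold jprod
      rw [Finset.prod_eq_one, one_pos' h]
      intro k hk
      simp only [ind, if_neg (h k hk), mul_zero, sub_zero]
    · rw [one_neg' h]; exact jprod_nonneg A _ hc0 hc1 s ω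
  · apply Real.exp_le_exp.2
    rw [← Finset.sum_neg_distrib, ← Finset.sum_neg_distrib, ← Finset.sum_add_distrib,
      ← Finset.sum_add_distrib]
    refine Finset.sum_le_sum fun k hk => ?_
    rw [← Finset.add_sum_erase s _ hk, Finset.inter_self, if_pos (hA k hk), Finset.union_self]
    have h1 : ∑ j ∈ s.erase k, (if (A k ∩ A j).Nonempty then
        min (c k) 1 * min (c j) 1 * pr q (A k ∪ A j) else 0) ≤
        ∑ j ∈ s.erase k, (if (A k ∩ A j).Nonempty then c k * c j * pr q (A k ∪ A j) else 0) := by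
      refine Finset.sum_le_sum fun j _ => ?_
      split_ifs
      · apply mul_le_mul_of_nonneg_right _ (pr_nonneg hq _)
        exact mul_le_mul (min_le_left _ _) (min_le_left _ _) (hc0 j) (hc k)
      · exact le_rfl
    have h2 : c k - c k * c k ≤ min (c k) 1 := by
      apply le_min
      · nlinarith [hc k]
      · nlinarith [sq_nonneg (c k - 1)]
    have h3 := mul_le_mul_of_nonneg_right h2 (pr_nonneg hq (A k))
    linarith

/-- multilinear extension lemma -/
theorem multilin {κ : Type*} [Fintype κ] [DecidableEq κ] (b : κ → κ → ℝ) (c : κ → ℝ) (η : ℝ)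
    (h : ∀ S : Finset κ, ∑ i ∈ S, ∑ j ∈ S.erase i, b i j ≤ ∑ i ∈ S, c i + η)
    (t : κ → ℝ) (ht : IsP t) :
    ∑ i, ∑ j ∈ univ.erase i, t i * t j * b i j ≤ ∑ i, t i * c i + η := by
  have e1 : ∀ i, Ex t (fun ω => if ω i then (1 : ℝ) else 0) = t i := by
    intro i
    have := Ex_prod t (fun e x => if e = i then (if x then (1 : ℝ) else 0) else 1)
    simp only [Finset.prod_ite_eq', Finset.mem_univ, if_true] at this
    rw [this, Finset.prod_eq_single i] <;> simp +contextual
  have e2 : ∀ i j, j ≠ i →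
      Ex t (fun ω => (if ω i then (1 : ℝ) else 0) * (if ω j then (1 : ℝ) else 0)) = t i * t j := by
    intro i j hij
    rw [Ex_indep t {i}, e1, e1]
    · intro ω ω' h; rw [h i (Finset.mem_singleton_self i)]
    · intro ω ω' h; rw [h j (by simpa using hij)]
  have h1 : ∑ i, ∑ j ∈ univ.erase i, t i * t j * b i j = Ex t (fun ω => ∑ i, ∑ j ∈ univ.erase i,
      b i j * ((if ω i then (1 : ℝ) else 0) * (if ω j then (1 : ℝ) else 0))) := by
    rw [Ex_sum]
    refine Finset.sum_congr rfl fun i _ => ?_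
    rw [Ex_sum]
    refine Finset.sum_congr rfl fun j hj => ?_
    rw [Ex_const_mul, e2 i j (Finset.ne_of_mem_erase hj), mul_comm]
  have h2 : ∑ i, t i * c i + η =
      Ex t (fun ω => ∑ i, c i * (if ω i then (1 : ℝ) else 0) + η) := by
    rw [Ex_add, Ex_const, Ex_sum]
    congr 1
    refine Finset.sum_congr rfl fun i _ => ?_
    rw [Ex_const_mul, e1, mul_comm]
  rw [h1, h2]
  apply Ex_mono ht
  intro ω
  have := h (univ.filter fun i => ω i = true)
  convert this using 1
  · rw [Finset.sum_filter]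
    refine Finset.sum_congr rfl fun i _ => ?_
    by_cases hi : ω i = true
    · rw [if_pos hi, if_pos hi, ← Finset.filter_erase, Finset.sum_filter]
      refine Finset.sum_congr rfl fun j _ => ?_
      split_ifs <;> simp
    · simp [hi]
  · rw [Finset.sum_filter]
    congr 1
    refine Finset.sum_congr rfl fun i _ => ?_
    split_ifs <;> simp

end Pool.Agent.Lib.MP_eaf82e_pr
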