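import Pool.Agent.Lib.MP_eaf82e_pr.Profile

set_option autoImplicit false
set_option linter.unusedSectionVars false
open Finset Filter Topology

namespace Pool.Agent.Lib.MP_eaf82e_pr

variable {V : Type*} [Fintype V] [LinearOrder V]

def gr (ω : Edge V → Bool) : SimpleGraph V :=
  SimpleGraph.fromRel fun i j => ∃ h : i < j, ω ⟨(i, j), h⟩ = true

lemma gr_adj (ω : Edge V → Bool) {i j : V} (h : i < j) :
    (gr ω).Adj i j ↔ ω ⟨(i, j), h⟩ = true := by
  simp [gr, SimpleGraph.fromRel_adj, h, h.ne, h.not_gt]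

lemma indep_iff (ω : Edge V → Bool) (T : Finset V) :
    Indep ω T ↔ ∀ i ∈ T, ∀ j ∈ T, ¬ (gr ω).Adj i j := by
  constructor
  · intro h i hi j hj hadj
    rcases lt_or_gt_of_ne hadj.ne with hij | hij
    · have := h ⟨(i, j), hij⟩ (mem_pairs.2 ⟨hi, hj⟩)
      rw [(gr_adj ω hij).1 hadj] at this
      exact absurd this (by simp)
    · have := h ⟨(j, i), hij⟩ (mem_pairs.2 ⟨hj, hi⟩)
      rw [(gr_adj ω hij).1 hadj.symm] at this
      exact absurd this (by simp)
  · rintro h ⟨⟨i, j⟩, hij⟩ he
    have := h i (mem_pairs.1 he).1 j (mem_pairs.1 he).2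
    rw [gr_adj ω hij] at this
    simpa using this

lemma gr_bijective : Function.Bijective (gr : (Edge V → Bool) → SimpleGraph V) := by
  classical
  constructor
  · intro ω ω' h
    ext ⟨⟨i, j⟩, hij⟩
    have h1 := gr_adj ω hij
    have h2 := gr_adj ω' hij
    rw [h] at h1
    exact Bool.eq_iff_iff.2 (h1.symm.trans h2)
  · intro G
    refine ⟨fun e => decide (G.Adj e.1.1 e.1.2), ?_⟩
    ext i j
    rcases lt_trichotomy i j with h | h | h
    · rw [gr_adj _ h]; simp
    · subst h; simp
    · rw [SimpleGraph.adj_comm, gr_adj _ h, G.adj_comm]; simp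

noncomputable def chi (ω : Edge V → Bool) : ℕ := (gr ω).chromaticNumber.toNat

def Col (ω : Edge V → Bool) (R : Finset V) (k : ℕ) : Prop :=
  ∃ f : V → ℕ, (∀ v ∈ R, f v < k) ∧ ∀ v ∈ R, ∀ v' ∈ R, (gr ω).Adj v v' → f v ≠ f v'

lemma Col.chi_le {ω : Edge V → Bool} {k : ℕ} (h : Col ω univ k) : chi ω ≤ k := by
  obtain ⟨f, h1, h2⟩ := h
  have : (gr ω).Colorable k := by
    rw [SimpleGraph.colorable_iff_exists_bdd_nat_coloring]
    exact ⟨SimpleGraph.Coloring.mk f fun h => h2 _ (mem_univ _) _ (mem_univ _) h,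
      fun v => h1 v (mem_univ _)⟩
  exact ENat.toNat_le_of_le_natCast this.chromaticNumber_le

lemma Col.union {ω : Edge V → Bool} {R R' : Finset V} {k k' : ℕ} (h : Col ω R k)
    (h' : Col ω R' k') : Col ω (R ∪ R') (k + k') := by
  obtain ⟨f, h1, h2⟩ := h
  obtain ⟨g, h3, h4⟩ := h'
  refine ⟨fun v => if v ∈ R then f v else k + g v, ?_, ?_⟩
  · intro v hv
    simp only
    split_ifs with h
    · have := h1 v h; omega
    · have := h3 v ((mem_union.1 hv).resolve_left h); omega
  · intro v hv v' hv' hadj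
    simp only
    split_ifs with h h' h'
    · exact h2 v h v' h' hadj
    · have := h1 v h; omega
    · have := h1 v' h'; omega
    · have := h4 v ((mem_union.1 hv).resolve_left h) v' ((mem_union.1 hv').resolve_left h') hadj
      omega

lemma Indep.col {ω : Edge V → Bool} {T : Finset V} (h : Indep ω T) : Col ω T 1 :=
  ⟨fun _ => 0, fun _ _ => one_pos, fun v hv v' hv' hadj =>
    absurd hadj ((indep_iff ω T).1 h v hv v' hv')⟩

lemma col_empty (ω : Edge V → Bool) : Col ω ∅ 0 := ⟨fun _ => 0, by simp, by simp⟩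

lemma col_card (ω : Edge V → Bool) (R : Finset V) : Col ω R R.card := by
  induction R using Finset.induction_on with
  | empty => exact col_empty ω
  | insert v R hv ih =>
    have h1 : Indep ω {v} := (indep_iff ω _).2 (by simp)
    have := ih.union h1.col
    rw [Finset.card_insert_of_notMem hv]
    rwa [Finset.union_comm, ← Finset.insert_eq] at this

lemma greedy_one {ω : Edge V → Bool} {m : ℕ} (hm : 1 ≤ m) {u : ℝ}
    (h : Avail (fun _ => ()) (fun _ => m) u ω) (R : Finset V) :
    ∃ k : ℕ, Col ω R k ∧ (k : ℝ) ≤ R.card / m + max u 0 := by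
  induction hn : R.card using Nat.strong_induction_on generalizing R with
  | _ n ih =>
    subst hn
    have hm0 : (0 : ℝ) < m := by exact_mod_cast hm
    by_cases hR : u ≤ R.card
    · obtain ⟨T, hT, hI, hP⟩ := h R (fun _ => by simpa using hR)
      have hc : T.card = m := by simpa using hP ()
      have hc2 := Finset.card_sdiff_add_card_eq_card hT
      obtain ⟨k, hk1, hk2⟩ := ih (R \ T).card (by omega) (R \ T) rfl
      refine ⟨k + 1, ?_, ?_⟩
      · have := hk1.union hI.col
        rwa [Finset.sdiff_union_of_subset hT] at this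
      · have h1 : (R.card : ℝ) = (R \ T).card + m := by
          rw [← hc]; exact_mod_cast hc2.symm
        rw [h1, add_div, div_self hm0.ne']
        push_cast; linarith
    · refine ⟨R.card, col_card ω R, ?_⟩
      have : (0 : ℝ) ≤ R.card / m := by positivity
      linarith [le_max_left u 0]

variable {κ : Type*} [Fintype κ] [DecidableEq κ]

lemma greedy_two {ω : Edge V → Bool} (c : V → κ) {J : Type*} (mq : J → κ → ℕ) (u : ℝ)
    (s : Finset J) (h : ∀ j ∈ s, Avail c (mq j) u ω)
    (hs : ∀ a, ((∑ j ∈ s, mq j a : ℕ) : ℝ) + u ≤ (univ.filter fun x => c x = a).card) :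
    ∃ C : Finset V, Col ω C s.card ∧ HasProf c (fun a => ∑ j ∈ s, mq j a) C := by
  classical
  induction s using Finset.induction_on with
  | empty => exact ⟨∅, col_empty ω, fun a => by simp⟩
  | insert j s hj ih =>
    obtain ⟨C, hC, hP⟩ := ih (fun i hi => h i (mem_insert_of_mem hi)) (fun a => by
      refine le_trans ?_ (hs a)
      rw [Finset.sum_insert hj]
      push_cast
      have : (0 : ℝ) ≤ mq j a := Nat.cast_nonneg _
      linarith)
    obtain ⟨T, hT, hI, hPT⟩ := h j (mem_insert_self _ _) Cᶜ (fun a => by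
      have h1 := hs a
      have h0 : (C.filter fun x => c x = a).card = ∑ j ∈ s, mq j a := hP a
      rw [Finset.sum_insert hj, ← h0] at h1
      have h2 : (univ.filter fun x => c x = a).card =
          (C.filter fun x => c x = a).card + (Cᶜ.filter fun x => c x = a).card := by
        rw [← Finset.card_union_of_disjoint, ← Finset.filter_union, Finset.union_compl]
        exact Finset.disjoint_filter_filter disjoint_compl_right
      rw [h2] at h1
      push_cast at h1
      have : (0 : ℝ) ≤ mq j a := Nat.cast_nonneg _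
      linarith)
    refine ⟨C ∪ T, ?_, fun a => ?_⟩
    · rw [Finset.card_insert_of_notMem hj]; exact hC.union hI.col
    · rw [Finset.filter_union, Finset.card_union_of_disjoint, hP a, hPT a]
      · simp only; rw [Finset.sum_insert hj, add_comm]
      · exact Finset.disjoint_filter_filter
          (Finset.disjoint_of_subset_right hT disjoint_compl_right)

lemma HasProf.card {c : V → κ} {mq : κ → ℕ} {T : Finset V} (h : HasProf c mq T) :
    T.card = ∑ a, mq a := by
  rw [Finset.card_eq_sum_card_fiberwise (f := c) (t := univ) (fun _ _ => mem_univ _)]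
  exact Finset.sum_congr rfl fun a _ => h a

theorem chi_le_of_avail {ω : Edge V → Bool} (c : V → κ) {k : ℕ} (N : Fin k → ℕ)
    (mq : Fin k → κ → ℕ) (u : ℝ) (h : ∀ i, 0 < N i → Avail c (mq i) u ω)
    (hs : ∀ a, ((∑ i, N i * mq i a : ℕ) : ℝ) + u ≤ (univ.filter fun x => c x = a).card)
    {m : ℕ} (hm : 1 ≤ m) {u' : ℝ} (h' : Avail (fun _ => ()) (fun _ => m) u' ω) :
    (chi ω : ℝ) ≤ ∑ i, (N i : ℝ) +
      ((Fintype.card V - ∑ i, (N i : ℝ) * ∑ a, (mq i a : ℝ)) / m + max u' 0) := by
  have e1 : ∀ a, ∑ j : (Σ i : Fin k, Fin (N i)), mq j.1 a = ∑ i, N i * mq i a := by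
    intro a; rw [Fintype.sum_sigma]; simp
  obtain ⟨C, hC, hP⟩ := greedy_two (ω := ω) c (J := Σ i : Fin k, Fin (N i)) (fun j => mq j.1) u univ
    (fun j _ => h j.1 (Fin.pos j.2)) (fun a => by rw [e1]; exact hs a)
  obtain ⟨k', hk1, hk2⟩ := greedy_one hm h' Cᶜ
  have h1 := hC.union hk1
  rw [Finset.union_compl] at h1
  have h2 : (chi ω : ℝ) ≤ ((univ : Finset (Σ i : Fin k, Fin (N i))).card + k' : ℕ) := by
    exact_mod_cast h1.chi_le
  have h3 : (univ : Finset (Σ i : Fin k, Fin (N i))).card = ∑ i, N i := by simp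
  have h4 : (Cᶜ.card : ℝ) = Fintype.card V - ∑ i, (N i : ℝ) * ∑ a, (mq i a : ℝ) := by
    have h5 := hP.card
    simp only [e1] at h5
    rw [Finset.sum_comm] at h5
    have h6 := Finset.card_add_card_compl C
    rw [h5] at h6
    rw [← h6]
    push_cast
    simp_rw [Finset.mul_sum]
    ring
  rw [h3] at h2
  push_cast at h2
  rw [← h4]
  linarith

theorem exists_opt (ω : Edge V → Bool) : ∃ C : V → Finset V,
    (∀ j, j ∈ C j) ∧ (∀ i j, i ∈ C j → C i = C j) ∧ (∀ j, Indep ω (C j)) ∧
      ∑ j, 1 / ((C j).card : ℝ) ≤ chi ω := by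
  obtain ⟨f⟩ := (gr ω).colorable_chromaticNumber_of_fintype
  refine ⟨fun j => univ.filter fun i => f i = f j, by simp, ?_, ?_, ?_⟩
  · intro i j h
    have : f i = f j := by simpa using h
    simp [this]
  · intro j
    rw [indep_iff]
    intro a ha b hb hadj
    have h1 : f a = f j := by simpa using ha
    have h2 : f b = f j := by simpa using hb
    exact f.valid hadj (h1.trans h2.symm)
  · rw [← Finset.sum_fiberwise (s := univ) (g := f)]
    calc _ ≤ ∑ _a : Fin (gr ω).chromaticNumber.toNat, (1 : ℝ) := by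
          refine Finset.sum_le_sum fun a _ => ?_
          have : ∀ j ∈ univ.filter (fun j => f j = a),
              1 / ((univ.filter fun i => f i = f j).card : ℝ) =
              1 / ((univ.filter fun i => f i = a).card : ℝ) := by
            intro j hj
            rw [(Finset.mem_filter.1 hj).2]
          rw [Finset.sum_congr rfl this, Finset.sum_const, nsmul_eq_mul, mul_one_div]
          exact div_self_le_one _
      _ = _ := by simp [chi]

end Pool.Agent.Lib.MP_eaf82e_pr
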