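import Pool.Agent.Lib.MP_eaf82e_pr.Mix

set_option autoImplicit false
set_option linter.unusedSectionVars false
open MeasureTheory Filter Topology Function
open scoped ENNReal

namespace Pool.Agent.Lib.MP_eaf82e_pr

noncomputable def opt {V : Type*} [Fintype V] [LinearOrder V] (ω : Edge V → Bool) : V → Finset V :=
  (exists_opt ω).choose

lemma opt_spec {V : Type*} [Fintype V] [LinearOrder V] (ω : Edge V → Bool) :
    (∀ j, j ∈ opt ω j) ∧ (∀ i j, i ∈ opt ω j → opt ω i = opt ω j) ∧ (∀ j, Indep ω (opt ω j)) ∧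
      ∑ j, 1 / ((opt ω j).card : ℝ) ≤ chi ω := (exists_opt ω).choose_spec

lemma class_sum {V : Type*} [Fintype V] [DecidableEq V] (C : V → Finset V) (h1 : ∀ j, j ∈ C j)
    (h2 : ∀ i j, i ∈ C j → C i = C j) (t : V → ℝ) :
    ∑ j, 1 / ((C j).card : ℝ) * ∑ i ∈ C j, t i = ∑ i, t i := by
  have h3 : ∀ j, 1 / ((C j).card : ℝ) * ∑ i ∈ C j, t i =
      ∑ i, if j ∈ C i then 1 / ((C i).card : ℝ) * t i else 0 := by
    intro j
    rw [Finset.mul_sum, ← Finset.sum_filter]
    refine Finset.sum_congr ?_ fun i hi => ?_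
    · ext i
      simp only [Finset.mem_filter, Finset.mem_univ, true_and]
      exact ⟨fun h => by rw [h2 i j h]; exact h1 j, fun h => by rw [h2 j i h]; exact h1 i⟩
    · rw [h2 j i (Finset.mem_filter.1 hi).2]
  simp_rw [h3]
  rw [Finset.sum_comm]
  refine Finset.sum_congr rfl fun i _ => ?_
  rw [Finset.sum_ite_mem, Finset.univ_inter, Finset.sum_const, nsmul_eq_mul]
  have : ((C i).card : ℝ) ≠ 0 := by exact_mod_cast (Finset.card_pos.2 ⟨i, h1 i⟩).ne'
  field_simp

variable {K : ℕ} {cell : ℝ → Fin K} {w : ℝ → ℝ → ℝ} {c D : ℝ}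

lemma bd_cellvec (hc : Measurable cell) {n : ℕ} (H : (Fin n → Fin K) → ℝ) :
    Bd fun x : Fin n → ℝ => H fun i => cell (x i) :=
  (Bd.of_finite H).comp (measurable_pi_lambda _ fun i => hc.comp (measurable_pi_apply i))

noncomputable def jp (w : ℝ → ℝ → ℝ) (cell : ℝ → Fin K) {n : ℕ} (ω : Edge (Fin n) → Bool)
    (q : Fin n → Fin K) : ℝ :=
  ∫ x, wt (qq (wx w x)) ω * (if (fun i => cell (x i)) = q then 1 else 0) ∂Pn n

lemma Kern.jp_nonneg (h : Kern w c D) {n : ℕ} (ω : Edge (Fin n) → Bool) (q : Fin n → Fin K) :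
    0 ≤ jp w cell ω q :=
  integral_nonneg fun x => mul_nonneg (wt_nonneg (h.isP x) ω) (by split_ifs <;> norm_num)

lemma Kern.avg (h : Kern w c D) (hc : Measurable cell) {n : ℕ}
    (H : (Edge (Fin n) → Bool) → (Fin n → Fin K) → ℝ) :
    ∑ ω, ∑ q, jp w cell ω q * H ω q =
      ∫ x, Ex (qq (wx w x)) (fun ω => H ω fun i => cell (x i)) ∂Pn n := by
  unfold Ex jp
  rw [integral_finsetSum _ fun ω _ => ((h.bd_wt ω).mul (bd_cellvec hc (H ω))).integrable _]
  refine Finset.sum_congr rfl fun ω _ => ?_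
  simp_rw [← integral_mul_const]
  rw [← integral_finsetSum _ fun q _ => (((h.bd_wt ω).mul
    (bd_cellvec hc fun p => if p = q then 1 else 0)).mul (Bd.const _)).integrable _]
  congr 1
  ext x
  simp

noncomputable def HH (w : ℝ → ℝ → ℝ) (cell : ℝ → Fin K) {n : ℕ} (ω : Edge (Fin n) → Bool)
    (q : Fin n → Fin K) : ℝ := 1 / n * ∑ j, phi w (mix cell (opt ω j) q)

theorem Kern.Phi_le_avg (h : Kern w c D) (hc : Measurable cell) (hK : 0 < K)
    (hcell : ∀ a, lam.real (cell ⁻¹' {a}) = 1 / K) {n : ℕ} (hn : 0 < n) :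
    Phi w ≤ ∫ x, Ex (qq (wx w x)) (fun ω => HH w cell ω fun i => cell (x i)) ∂Pn n := by
  have hn' : (0 : ℝ) < n := by exact_mod_cast hn
  have hprob : ∀ (ω : Edge (Fin n) → Bool) q j, IsProbabilityMeasure (mix cell (opt ω j) q) :=
    fun ω q j => mix_prob hc hcell ⟨j, (opt_spec ω).1 j⟩ q
  have key : ∀ F : Measure ℝ → ℝ,
      ∑ p : (Edge (Fin n) → Bool) × (Fin n → Fin K) × Fin n,
        jp w cell p.1 p.2.1 / n * F (mix cell (opt p.1 p.2.2) p.2.1) =
      ∫ x, Ex (qq (wx w x))
        (fun ω => 1 / n * ∑ j, F (mix cell (opt ω j) fun i => cell (x i))) ∂Pn n := by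
    intro F
    rw [← h.avg hc (fun ω q => 1 / n * ∑ j, F (mix cell (opt ω j) q)), Fintype.sum_prod_type]
    refine Finset.sum_congr rfl fun ω _ => ?_
    rw [Fintype.sum_prod_type]
    refine Finset.sum_congr rfl fun q _ => ?_
    simp only
    rw [← Finset.mul_sum]; ring
  have hd : IsDec (fun p : (Edge (Fin n) → Bool) × (Fin n → Fin K) × Fin n =>
      mix cell (opt p.1 p.2.2) p.2.1) (fun p => jp w cell p.1 p.2.1 / n) := by
    refine ⟨fun p => hprob _ _ _, fun p => mix_support _ _,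
      fun p => div_nonneg (h.jp_nonneg _ _) hn'.le, ?_, ?_⟩
    · have := key fun _ => 1
      simp only [mul_one, Finset.sum_const, Finset.card_univ, Fintype.card_fin, nsmul_eq_mul,
        Ex_const] at this
      rw [this]
      simp [hn'.ne']
    · ext S hS
      rw [← ENNReal.toReal_eq_toReal_iff' (measure_ne_top _ _) (measure_ne_top _ _)]
      change Measure.real _ S = lam.real S
      rw [real_sum_smul _ _ (fun p => div_nonneg (h.jp_nonneg _ _) hn'.le),
        key fun μ => μ.real S]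
      have h1 : ∀ (ω : Edge (Fin n) → Bool) (q : Fin n → Fin K),
          ∑ j, (mix cell (opt ω j) q).real S = ∑ i, (lamc cell (q i)).real S := by
        intro ω q
        simp_rw [mix_real]
        exact class_sum _ (opt_spec ω).1 (opt_spec ω).2.1 _
      simp_rw [h1, Ex_const]
      have hb : Bd fun y => (lamc cell (cell y)).real S :=
        (Bd.of_finite fun a => (lamc cell a).real S).comp hc
      rw [integral_const_mul, integral_finsetSum _ fun i _ =>
        (hb.comp (measurable_pi_apply i)).integrable _]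
      simp_rw [int_single hb]
      rw [int_cell hc lam fun a => (lamc cell a).real S]
      conv_rhs => rw [← sum_lamc hc hK, real_sum_smul _ _ (fun _ => by positivity)]
      simp_rw [hcell]
      simp only [Finset.sum_const, Finset.card_univ, Fintype.card_fin, nsmul_eq_mul]
      field_simp
  have := h.Phi_le hd
  rw [key (phi w)] at this
  exact this

lemma Kern.HH_le_D (h : Kern w c D) (hc : Measurable cell)
    (hcell : ∀ a, lam.real (cell ⁻¹' {a}) = 1 / K) {n : ℕ} (hn : 0 < n)
    (ω : Edge (Fin n) → Bool) (q : Fin n → Fin K) : HH w cell ω q ≤ D := by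
  have hn' : (0 : ℝ) < n := by exact_mod_cast hn
  unfold HH
  calc _ ≤ 1 / (n : ℝ) * ∑ _j : Fin n, D := by
        gcongr with j
        have := mix_prob hc hcell ⟨j, (opt_spec ω).1 j⟩ q
        exact h.phi_le_D _
    _ = D := by simp; field_simp

noncomputable def errx (w : ℝ → ℝ → ℝ) (cell : ℝ → Fin K) (wb : Fin K → Fin K → ℝ) {n : ℕ}
    (x : Fin n → ℝ) : ℝ :=
  ∑ i, ∑ j ∈ Finset.univ.erase i, (|w (x i) (x j) - wb (cell (x i)) (cell (x j))| +
    cerr w cell wb (cell (x i)) (cell (x j)))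

lemma cerr_nonneg (wb : Fin K → Fin K → ℝ) (a b : Fin K) : 0 ≤ cerr w cell wb a b :=
  II_nonneg fun _ _ => abs_nonneg _

lemma offdiag_le {V : Type*} [Fintype V] [DecidableEq V] (S : Finset V) {f g : V → V → ℝ}
    (hg : ∀ i j, 0 ≤ g i j) (h : ∀ i j, f i j ≤ g i j) :
    ∑ i ∈ S, ∑ j ∈ S.erase i, f i j ≤ ∑ i, ∑ j ∈ Finset.univ.erase i, g i j :=
  le_trans (Finset.sum_le_sum fun i _ => le_trans (Finset.sum_le_sum fun j _ => h i j)
      (Finset.sum_le_sum_of_subset_of_nonneg
        (Finset.erase_subset_erase _ (Finset.subset_univ _)) fun _ _ _ => hg _ _))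
    (Finset.sum_le_sum_of_subset_of_nonneg (Finset.subset_univ _)
      fun _ _ _ => Finset.sum_nonneg fun _ _ => hg _ _)

lemma Kern.HH_le (h : Kern w c D) (hc : Measurable cell)
    (hcell : ∀ a, lam.real (cell ⁻¹' {a}) = 1 / K) (wb : Fin K → Fin K → ℝ) {n : ℕ}
    (x : Fin n → ℝ) (hx : errx w cell wb x ≤ 1) (ω : Edge (Fin n) → Bool) (θ : ℝ) (hθ : 0 ≤ θ)
    (hω : ¬ ∃ S, Indep ω S ∧ θ * S.card < ws (wx w x) S) :
    HH w cell ω (fun i => cell (x i)) ≤ (2 * θ + D + 2) * chi ω / n := by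
  have hD := h.Dpos
  have hg : ∀ i j, 0 ≤ |w (x i) (x j) - wb (cell (x i)) (cell (x j))| +
      cerr w cell wb (cell (x i)) (cell (x j)) :=
    fun i j => add_nonneg (abs_nonneg _) (cerr_nonneg _ _ _)
  have h1 : ∀ j, phi w (mix cell (opt ω j) fun i => cell (x i)) ≤
      (2 * θ + D + 2) * (1 / (opt ω j).card) := by
    intro j
    refine h.phi_mix hc hcell wb ⟨j, (opt_spec ω).1 j⟩ _ (2 * θ) (by positivity) ?_ ?_
    · intro S hS
      have h2 : ws (wx w x) S ≤ θ * S.card :=
        not_lt.1 fun h3 => hω ⟨S, ((opt_spec ω).2.2.1 j).mono hS, h3⟩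
      have h3 := two_ws (w := wx w x) (fun _ _ => h.symm _ _) S
      have h4 := (offdiag_le S (f := fun i j => wb (cell (x i)) (cell (x j)) - w (x i) (x j)) hg
        fun i j => by
          linarith [neg_abs_le (w (x i) (x j) - wb (cell (x i)) (cell (x j))),
            cerr_nonneg (w := w) (cell := cell) wb (cell (x i)) (cell (x j))]).trans hx
      simp_rw [Finset.sum_sub_distrib] at h4
      unfold wx at h2 h3
      linarith
    · exact (offdiag_le _ hg fun i j => le_add_of_nonneg_left (abs_nonneg _)).trans hx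
  unfold HH
  calc _ ≤ 1 / (n : ℝ) * ∑ j, (2 * θ + D + 2) * (1 / ((opt ω j).card : ℝ)) := by
        gcongr with j; exact h1 j
    _ ≤ 1 / (n : ℝ) * ((2 * θ + D + 2) * chi ω) := by
        rw [← Finset.mul_sum]
        gcongr
        exact (opt_spec ω).2.2.2
    _ = _ := by ring

lemma Kern.errx_int (h : Kern w c D) (hc : Measurable cell) (hK : 0 < K)
    (hcell : ∀ a, lam.real (cell ⁻¹' {a}) = 1 / K) (wb : Fin K → Fin K → ℝ) {η : ℝ} (hη0 : 0 ≤ η)
    (hη : II (fun x y => |w x y - wb (cell x) (cell y)|) lam lam ≤ η) (n : ℕ) :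
    Bd (errx w cell wb (n := n)) ∧ ∫ x, errx w cell wb x ∂Pn n ≤ n ^ 2 * (2 * η) := by
  have hb : Bd (uncurry fun x y => |w x y - wb (cell x) (cell y)| +
      cerr w cell wb (cell x) (cell y)) := (bd_err hc h.bd wb).add (bd_cell hc (cerr w cell wb))
  refine ⟨Bd.sum _ fun i _ => Bd.sum _ fun j _ => bd_pair hb i j, ?_⟩
  unfold errx
  rw [integral_finsetSum _ fun i _ => (Bd.sum _ fun j _ => bd_pair hb i j).integrable _]
  calc _ ≤ ∑ _i : Fin n, n * (2 * η) := by
        refine Finset.sum_le_sum fun i _ => ?_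
        rw [integral_finsetSum _ fun j _ => (bd_pair hb i j).integrable _]
        calc _ ≤ ∑ _j ∈ Finset.univ.erase i, 2 * η := Finset.sum_le_sum fun j hj => by
              rw [int_pair hb (Finset.ne_of_mem_erase hj).symm,
                II_add (bd_err hc h.bd wb) (bd_cell hc (cerr w cell wb)), h.II_cerr hc hcell hK]
              linarith
          _ ≤ ∑ _j : Fin n, 2 * η := Finset.sum_le_sum_of_subset_of_nonneg
              (Finset.erase_subset _ _) fun _ _ _ => by positivity
          _ = _ := by simp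
    _ = _ := by simp; ring

theorem Kern.lower (h : Kern w c D) {ε δ : ℝ} (hε : 0 < ε) (hδ : 0 < δ) :
    ∀ᶠ n : ℕ in atTop,
      prob w n (fun ω => chi ω < (Phi w - ε) * n / (2 * Real.log n)) ≤ δ := by
  have hD := h.Dpos
  have hΦ : 0 < Phi w := h.cpos.trans_le h.le_Phi
  obtain ⟨e, he0, he1, he2⟩ : ∃ e : ℝ, 0 < e ∧ e ≤ 1 ∧ e * (3 + 2 * Phi w) ≤ ε * δ / 2 :=
    ⟨min 1 (ε * δ / 2 / (3 + 2 * Phi w)), lt_min one_pos (by positivity), min_le_left _ _, by
      rw [← le_div_iff₀ (by positivity)]; exact min_le_right _ _⟩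
  obtain ⟨d, hd0, hd⟩ : ∃ d : ℝ, 0 < d ∧ (D + ε) * (3 * d) = ε * δ / 2 :=
    ⟨ε * δ / (6 * (D + ε)), by positivity, by field_simp; ring⟩
  filter_upwards [h.upper he0 hd0, heavy_ev he0 hd0, ev_log ((D + 2) / (2 * e)),
    eventually_gt_atTop 1] with n h1 h2 h3 h0
  have hn1 : (1 : ℝ) < n := by exact_mod_cast h0
  have hn0 : (0 : ℝ) < n := by linarith
  have hl0 : 0 < Real.log n := Real.log_pos hn1
  obtain ⟨K, cell, wb, hK, -, hc, hcell, -, herr⟩ :=
    block_approx w h.meas D h.nonneg h.hi (d / (2 * n ^ 2)) (by positivity) 0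
  obtain ⟨hb, hI⟩ := h.errx_int hc hK hcell wb (by positivity) herr n
  have hI' : ∫ x, errx w cell wb x ∂Pn n ≤ d := hI.trans (le_of_eq (by field_simp))
  have h4 := h.Phi_le_avg hc hK hcell (n := n) (by omega)
  obtain ⟨l, hl⟩ : ∃ l : ℝ, l = Real.log n := ⟨_, rfl⟩
  rw [← hl] at h1 h2 h3 hl0 ⊢
  obtain ⟨L, hL⟩ : ∃ L : ℝ, L = (1 + 2 * e) * (Phi w + e) := ⟨_, rfl⟩
  have hL0 : 0 ≤ L := by rw [hL]; positivity
  have hpt : ∀ x : Fin n → ℝ, Ex (qq (wx w x)) (fun ω => HH w cell ω fun i => cell (x i)) +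
      ε * Pr (qq (wx w x)) (fun ω => chi ω < (Phi w - ε) * n / (2 * l)) ≤
      L + (D + ε) * (d + Pr (qq (wx w x)) (fun ω => (Phi w + e) * n / (2 * l) < chi ω) +
        errx w cell wb x) := by
    intro x
    have hq := h.isP x
    have hH := h.HH_le_D hc hcell (n := n) (by omega)
    have hP0 := Pr_nonneg hq (fun ω => (Phi w + e) * n / (2 * l) < chi ω)
    have hE0 : 0 ≤ errx w cell wb x := Finset.sum_nonneg fun _ _ => Finset.sum_nonneg fun _ _ =>
      add_nonneg (abs_nonneg _) (cerr_nonneg _ _ _)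
    by_cases hx : errx w cell wb x ≤ 1
    · have h5 := heavy_le (wx w x) (fun _ _ => h.nonneg _ _) ((1 + e) * l)
      rw [Fintype.card_fin] at h5
      have h6 : Ex (qq (wx w x)) (fun ω => HH w cell ω fun i => cell (x i)) +
          ε * Pr (qq (wx w x)) (fun ω => chi ω < (Phi w - ε) * n / (2 * l)) ≤
          L + (D + ε) * (Pr (qq (wx w x))
            (fun ω => ∃ S, Indep ω S ∧ (1 + e) * l * S.card < ws (wx w x) S) +
            Pr (qq (wx w x)) (fun ω => (Phi w + e) * n / (2 * l) < chi ω)) := by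
        unfold Pr
        rw [← Ex_const_mul, ← Ex_add, ← Ex_add, ← Ex_const_mul, ← Ex_const (qq (wx w x)) L,
          ← Ex_add]
        refine Ex_mono hq fun ω => ?_
        have a1 := hH ω fun i => cell (x i)
        have a2 := mul_le_mul_of_nonneg_left (one_le (chi ω < (Phi w - ε) * n / (2 * l))) hε.le
        have a3 := one_nonneg ((Phi w + e) * n / (2 * l) < chi ω)
        have a4 := one_nonneg (∃ S, Indep ω S ∧ (1 + e) * l * S.card < ws (wx w x) S)
        by_cases b1 : ∃ S, Indep ω S ∧ (1 + e) * l * S.card < ws (wx w x) S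
        · rw [one_pos' b1]; nlinarith
        by_cases b2 : (Phi w + e) * n / (2 * l) < chi ω
        · rw [one_pos' b2]; nlinarith
        rw [one_neg' b1, one_neg' b2]
        have a5 := h.HH_le hc hcell wb x hx ω ((1 + e) * l) (by positivity) b1
        have a6 : (2 * ((1 + e) * l) + D + 2) * chi ω / n ≤ (1 + 2 * e) * (chi ω * (2 * l) / n) := by
          rw [← mul_div_assoc]
          apply div_le_div_of_nonneg_right _ hn0.le
          rw [div_le_iff₀ (by positivity)] at h3
          have := mul_le_mul_of_nonneg_right h3 (Nat.cast_nonneg (α := ℝ) (chi ω))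
          nlinarith
        by_cases b3 : chi ω < (Phi w - ε) * n / (2 * l)
        · rw [one_pos' b3]
          rw [lt_div_iff₀ (by positivity), ← div_lt_iff₀ hn0] at b3
          have a7 := mul_le_mul_of_nonneg_left b3.le (show 0 ≤ 1 + 2 * e by positivity)
          rw [hL]
          nlinarith [mul_pos he0 hε, mul_pos he0 he0]
        · rw [one_neg' b3]
          rw [not_lt, le_div_iff₀ (by positivity), ← div_le_iff₀ hn0] at b2
          have a7 := mul_le_mul_of_nonneg_left b2 (show 0 ≤ 1 + 2 * e by positivity)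
          rw [hL]
          linarith
      refine h6.trans (add_le_add le_rfl (mul_le_mul_of_nonneg_left ?_ (by positivity)))
      linarith
    · have a1 : Ex (qq (wx w x)) (fun ω => HH w cell ω fun i => cell (x i)) ≤ D := by
        rw [← Ex_const (qq (wx w x)) D]
        exact Ex_mono hq fun ω => hH _ _
      have a2 := mul_le_mul_of_nonneg_left
        (Pr_le_one hq (fun ω => chi ω < (Phi w - ε) * n / (2 * l))) hε.le
      have a3 := not_le.1 hx
      nlinarith
  have b1 := h.bd_Ex (n := n) (fun x ω => HH w cell ω fun i => cell (x i))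
    fun ω => bd_cellvec hc (HH w cell ω)
  have b2 := h.bd_Pr (n := n) (fun ω => chi ω < (Phi w - ε) * n / (2 * l))
  have b3 := h.bd_Pr (n := n) (fun ω => (Phi w + e) * n / (2 * l) < chi ω)
  have h5 := integral_mono ((b1.add ((Bd.const ε).mul b2)).integrable (Pn n))
    (((Bd.const L).add ((Bd.const (D + ε)).mul (((Bd.const d).add b3).add hb))).integrable _) hpt
  rw [integral_add (b1.integrable _) (((Bd.const ε).mul b2).integrable _),
    integral_add (integrable_const _) (((Bd.const (D + ε)).mul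
      (((Bd.const d).add b3).add hb)).integrable _), integral_const_mul, integral_const_mul,
    integral_add (((Bd.const d).add b3).integrable _) (hb.integrable _),
    integral_add (integrable_const _) (b3.integrable _)] at h5
  simp only [integral_const, probReal_univ, smul_eq_mul, one_mul] at h5
  unfold prob at h1 ⊢
  have h6 : (D + ε) * (d + ∫ x, Pr (qq (wx w x)) (fun ω => (Phi w + e) * n / (2 * l) < chi ω) ∂Pn n
      + ∫ x, errx w cell wb x ∂Pn n) ≤ (D + ε) * (3 * d) := by
    refine mul_le_mul_of_nonneg_left ?_ (by positivity)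
    linarith
  have h7 : L - Phi w ≤ ε * δ / 2 := by
    rw [hL]; nlinarith [mul_le_mul_of_nonneg_left he1 he0.le]
  apply le_of_mul_le_mul_left _ hε
  linarith

end Pool.Agent.Lib.MP_eaf82e_pr
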