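import Mathlib

set_option autoImplicit false
set_option linter.unusedSectionVars false
open MeasureTheory Filter Topology Function
open scoped ENNReal

namespace Pool.Agent.Lib.MP_eaf82e_pr

structure Bd {X : Type*} [MeasurableSpace X] (f : X → ℝ) : Prop where
  meas : Measurable f
  bdd : ∃ C, ∀ x, |f x| ≤ C

section
variable {X Y : Type*} [MeasurableSpace X] [MeasurableSpace Y]

lemma Bd.const (c : ℝ) : Bd fun _ : X => c := ⟨measurable_const, |c|, fun _ => le_rfl⟩

lemma Bd.of_le {f : X → ℝ} (hf : Measurable f) {a b : ℝ} (h : ∀ x, a ≤ f x ∧ f x ≤ b) : Bd f :=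
  ⟨hf, max |a| |b|, fun x => abs_le_max_abs_abs (h x).1 (h x).2⟩

lemma Bd.add {f g : X → ℝ} (hf : Bd f) (hg : Bd g) : Bd fun x => f x + g x := by
  obtain ⟨C, hC⟩ := hf.bdd
  obtain ⟨C', hC'⟩ := hg.bdd
  exact ⟨hf.meas.add hg.meas, C + C', fun x => (abs_add_le _ _).trans (add_le_add (hC x) (hC' x))⟩

lemma Bd.mul {f g : X → ℝ} (hf : Bd f) (hg : Bd g) : Bd fun x => f x * g x := by
  obtain ⟨C, hC⟩ := hf.bdd
  obtain ⟨C', hC'⟩ := hg.bdd
  refine ⟨hf.meas.mul hg.meas, C * C', fun x => ?_⟩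
  rw [abs_mul]
  exact mul_le_mul (hC x) (hC' x) (abs_nonneg _) ((abs_nonneg _).trans (hC x))

lemma Bd.sub {f g : X → ℝ} (hf : Bd f) (hg : Bd g) : Bd fun x => f x - g x := by
  obtain ⟨C, hC⟩ := hf.bdd
  obtain ⟨C', hC'⟩ := hg.bdd
  exact ⟨hf.meas.sub hg.meas, C + C', fun x => (abs_sub _ _).trans (add_le_add (hC x) (hC' x))⟩

lemma Bd.abs {f : X → ℝ} (hf : Bd f) : Bd fun x => |f x| := by
  obtain ⟨C, hC⟩ := hf.bdd
  exact ⟨hf.meas.abs, C, fun x => by rw [abs_abs]; exact hC x⟩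

lemma Bd.comp {f : X → ℝ} (hf : Bd f) {g : Y → X} (hg : Measurable g) : Bd fun y => f (g y) := by
  obtain ⟨C, hC⟩ := hf.bdd
  exact ⟨hf.meas.comp hg, C, fun y => hC _⟩

lemma Bd.sum {ι : Type*} (s : Finset ι) {f : ι → X → ℝ} (hf : ∀ i ∈ s, Bd (f i)) :
    Bd fun x => ∑ i ∈ s, f i x := by
  classical
  induction s using Finset.induction_on with
  | empty => simpa using Bd.const 0
  | insert i s hi ih =>
    simp_rw [Finset.sum_insert hi]
    exact (hf i (Finset.mem_insert_self _ _)).add (ih fun j hj => hf j (Finset.mem_insert_of_mem hj))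

lemma Bd.prod {ι : Type*} (s : Finset ι) {f : ι → X → ℝ} (hf : ∀ i ∈ s, Bd (f i)) :
    Bd fun x => ∏ i ∈ s, f i x := by
  classical
  induction s using Finset.induction_on with
  | empty => simpa using Bd.const 1
  | insert i s hi ih =>
    simp_rw [Finset.prod_insert hi]
    exact (hf i (Finset.mem_insert_self _ _)).mul (ih fun j hj => hf j (Finset.mem_insert_of_mem hj))

lemma Bd.of_finite [Finite X] [MeasurableSingletonClass X] (f : X → ℝ) : Bd f := by
  obtain ⟨C, hC⟩ := (Set.finite_range fun x => |f x|).bddAbove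
  exact ⟨measurable_of_finite f, C, fun x => hC ⟨x, rfl⟩⟩

lemma Bd.integrable {f : X → ℝ} (hf : Bd f) (μ : Measure X) [IsFiniteMeasure μ] :
    Integrable f μ := by
  obtain ⟨C, hC⟩ := hf.bdd
  exact Integrable.of_bound hf.meas.aestronglyMeasurable C (ae_of_all _ hC)

lemma Bd.right {f : X → Y → ℝ} (hf : Bd (uncurry f)) (x : X) : Bd (f x) :=
  hf.comp (g := fun y => (x, y)) measurable_prodMk_left

lemma Bd.inner {f : X → Y → ℝ} (hf : Bd (uncurry f)) (ν : Measure Y) [IsFiniteMeasure ν] :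
    Bd fun x => ∫ y, f x y ∂ν := by
  obtain ⟨C, hC⟩ := hf.bdd
  refine ⟨hf.meas.stronglyMeasurable.integral_prod_right.measurable, C * ν.real Set.univ,
    fun x => ?_⟩
  exact norm_integral_le_of_norm_le_const (f := f x) (ae_of_all _ fun y => hC (x, y))

end

noncomputable def II (f : ℝ → ℝ → ℝ) (μ ν : Measure ℝ) : ℝ := ∫ x, (∫ y, f x y ∂ν) ∂μ

section
variable {f g : ℝ → ℝ → ℝ} {μ ν : Measure ℝ}

lemma II_nonneg (h : ∀ x y, 0 ≤ f x y) : 0 ≤ II f μ ν :=
  integral_nonneg fun x => integral_nonneg fun y => h x y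

lemma II_mono [IsFiniteMeasure μ] [IsFiniteMeasure ν] (hf : Bd (uncurry f)) (hg : Bd (uncurry g))
    (h : ∀ x y, f x y ≤ g x y) : II f μ ν ≤ II g μ ν :=
  integral_mono ((hf.inner ν).integrable μ) ((hg.inner ν).integrable μ) fun x =>
    integral_mono ((hf.right x).integrable ν) ((hg.right x).integrable ν) (h x)

lemma II_add [IsFiniteMeasure μ] [IsFiniteMeasure ν] (hf : Bd (uncurry f)) (hg : Bd (uncurry g)) :
    II (fun x y => f x y + g x y) μ ν = II f μ ν + II g μ ν := by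
  unfold II
  rw [← integral_add ((hf.inner ν).integrable μ) ((hg.inner ν).integrable μ)]
  congr 1; ext x
  exact integral_add ((hf.right x).integrable ν) ((hg.right x).integrable ν)

lemma II_const (c : ℝ) : II (fun _ _ => c) μ ν = c * μ.real Set.univ * ν.real Set.univ := by
  simp [II]; ring

lemma II_mono_measure {μ' ν' : Measure ℝ} [IsFiniteMeasure μ'] [IsFiniteMeasure ν']
    (hf : Bd (uncurry f)) (h0 : ∀ x y, 0 ≤ f x y) (hμ : μ ≤ μ') (hν : ν ≤ ν') :
    II f μ ν ≤ II f μ' ν' := by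
  have := isFiniteMeasure_of_le μ' hμ
  have := isFiniteMeasure_of_le ν' hν
  calc II f μ ν ≤ II f μ ν' :=
        integral_mono ((hf.inner ν).integrable μ) ((hf.inner ν').integrable μ) fun x =>
          integral_mono_measure hν (ae_of_all _ (h0 x)) ((hf.right x).integrable ν')
    _ ≤ _ := integral_mono_measure hμ (ae_of_all _ fun x => integral_nonneg (h0 x))
        ((hf.inner ν').integrable μ')

lemma II_smul (a b : ℝ≥0∞) : II f (a • μ) (b • ν) = a.toReal * b.toReal * II f μ ν := by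
  unfold II
  simp_rw [integral_smul_measure, smul_eq_mul]
  rw [integral_const_mul, mul_assoc]

lemma II_sum {ι ι' : Type*} (s : Finset ι) (s' : Finset ι') (μ : ι → Measure ℝ)
    (ν : ι' → Measure ℝ) [∀ i, IsFiniteMeasure (μ i)] [∀ i, IsFiniteMeasure (ν i)]
    (hf : Bd (uncurry f)) :
    II f (∑ i ∈ s, μ i) (∑ j ∈ s', ν j) = ∑ i ∈ s, ∑ j ∈ s', II f (μ i) (ν j) := by
  unfold II
  have h1 : ∀ x, ∫ y, f x y ∂(∑ j ∈ s', ν j) = ∑ j ∈ s', ∫ y, f x y ∂ν j := fun x =>
    integral_finsetSum_measure fun j _ => (hf.right x).integrable _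
  simp_rw [h1]
  rw [integral_finsetSum_measure fun i _ =>
    (Bd.sum s' fun j _ => hf.inner (ν j)).integrable (μ i)]
  refine Finset.sum_congr rfl fun i _ => ?_
  exact integral_finsetSum _ fun j _ => (hf.inner (ν j)).integrable (μ i)

lemma II_eq_prod [IsFiniteMeasure μ] [IsFiniteMeasure ν] (hf : Bd (uncurry f)) :
    II f μ ν = ∫ p, f p.1 p.2 ∂(μ.prod ν) :=
  integral_integral (hf.integrable _)

end

section cells
variable {K : ℕ} {cell : ℝ → Fin K} (hc : Measurable cell)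
include hc

lemma int_cell (μ : Measure ℝ) [IsFiniteMeasure μ] (F : Fin K → ℝ) :
    ∫ x, F (cell x) ∂μ = ∑ a, μ.real (cell ⁻¹' {a}) * F a := by
  rw [← integral_map hc.aemeasurable (measurable_of_finite F).aestronglyMeasurable,
    integral_fintype ((Bd.of_finite F).integrable _)]
  refine Finset.sum_congr rfl fun a _ => ?_
  rw [map_measureReal_apply hc (measurableSet_singleton a), smul_eq_mul]

lemma II_cell (μ ν : Measure ℝ) [IsFiniteMeasure μ] [IsFiniteMeasure ν] (G : Fin K → Fin K → ℝ) :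
    II (fun x y => G (cell x) (cell y)) μ ν =
      ∑ a, ∑ b, μ.real (cell ⁻¹' {a}) * ν.real (cell ⁻¹' {b}) * G a b := by
  unfold II
  simp_rw [int_cell hc ν]
  rw [int_cell hc μ (fun a => ∑ b, ν.real (cell ⁻¹' {b}) * G a b)]
  simp_rw [Finset.mul_sum, mul_assoc]

lemma bd_cell (G : Fin K → Fin K → ℝ) : Bd (uncurry fun x y => G (cell x) (cell y)) :=
  (Bd.of_finite (uncurry G)).comp (g := fun p : ℝ × ℝ => (cell p.1, cell p.2))
    ((hc.comp measurable_fst).prodMk (hc.comp measurable_snd))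

lemma bd_err {w : ℝ → ℝ → ℝ} (hb : Bd (uncurry w)) (G : Fin K → Fin K → ℝ) :
    Bd (uncurry fun x y => |w x y - G (cell x) (cell y)|) :=
  (hb.sub (bd_cell hc G)).abs

lemma sum_cell_real (μ : Measure ℝ) [IsFiniteMeasure μ] :
    ∑ a, μ.real (cell ⁻¹' {a}) = μ.real Set.univ := by
  have := int_cell hc μ (fun _ => 1)
  simpa using this.symm

end cells

noncomputable def lam : Measure ℝ := volume.restrict (Set.Icc (0 : ℝ) 1)

instance : IsProbabilityMeasure lam := ⟨by simp [lam]⟩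

noncomputable def cellK (K : ℕ) (hK : 0 < K) (x : ℝ) : Fin K :=
  ⟨min ⌊K * x⌋₊ (K - 1), lt_of_le_of_lt (min_le_right _ _) (by omega)⟩

lemma measurable_cellK (K : ℕ) (hK : 0 < K) : Measurable (cellK K hK) := by
  have h1 : Measurable fun x : ℝ => ⌊K * x⌋₊ := Nat.measurable_floor.comp (by fun_prop)
  exact (measurable_of_countable (fun j : ℕ => (⟨min j (K - 1),
    lt_of_le_of_lt (min_le_right _ _) (by omega)⟩ : Fin K))).comp h1

lemma cellK_bounds (K : ℕ) (hK : 0 < K) {x : ℝ} (hx : x ∈ Set.Icc (0 : ℝ) 1) :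
    ((cellK K hK x : ℕ) : ℝ) ≤ K * x ∧ K * x ≤ (cellK K hK x : ℕ) + 1 := by
  have hK' : (0 : ℝ) < K := by exact_mod_cast hK
  have h0 : 0 ≤ K * x := mul_nonneg hK'.le hx.1
  constructor
  · refine le_trans ?_ (Nat.floor_le h0)
    exact_mod_cast min_le_left _ _
  · change K * x ≤ ((min ⌊K * x⌋₊ (K - 1) : ℕ) : ℝ) + 1
    rcases le_total ⌊K * x⌋₊ (K - 1) with h | h
    · rw [min_eq_left h]; exact (Nat.lt_floor_add_one _).le
    · rw [min_eq_right h, Nat.cast_sub hK]
      push_cast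
      nlinarith [hx.2]

lemma lam_cellK (K : ℕ) (hK : 0 < K) (a : Fin K) : lam.real (cellK K hK ⁻¹' {a}) = 1 / K := by
  have hK' : (0 : ℝ) < K := by exact_mod_cast hK
  have h1 : ∀ a : Fin K, lam.real (cellK K hK ⁻¹' {a}) ≤ 1 / K := by
    intro a
    unfold lam
    rw [measureReal_restrict_apply (measurable_cellK K hK (measurableSet_singleton a))]
    have : cellK K hK ⁻¹' {a} ∩ Set.Icc 0 1 ⊆ Set.Icc ((a : ℕ) / K : ℝ) (((a : ℕ) + 1) / K) := by
      rintro x ⟨hx1, hx2⟩
      have h := cellK_bounds K hK hx2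
      rw [show cellK K hK x = a from hx1] at h
      constructor
      · rw [div_le_iff₀ hK']; linarith [h.1]
      · rw [le_div_iff₀ hK']; linarith [h.2]
    refine (measureReal_mono this (by simp)).trans (le_of_eq ?_)
    rw [Real.volume_real_Icc_of_le (by gcongr; linarith)]
    ring
  have h2 := sum_cell_real (measurable_cellK K hK) lam
  rw [probReal_univ] at h2
  have h3 : ∑ a : Fin K, lam.real (cellK K hK ⁻¹' {a}) = ∑ _a : Fin K, (1 / K : ℝ) := by
    rw [h2]; simp; field_simp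
  exact (Finset.sum_eq_sum_iff_of_le fun a _ => h1 a).1 h3 a (Finset.mem_univ a)

theorem block_approx (w : ℝ → ℝ → ℝ) (hw : Measurable (uncurry w)) (D : ℝ)
    (h0 : ∀ x y, 0 ≤ w x y) (hD : ∀ x y, w x y ≤ D) (η : ℝ) (hη : 0 < η) (K₀ : ℝ) :
    ∃ (K : ℕ) (cell : ℝ → Fin K) (wb : Fin K → Fin K → ℝ), 0 < K ∧ K₀ ≤ K ∧ Measurable cell ∧
      (∀ a, lam.real (cell ⁻¹' {a}) = 1 / K) ∧ (∀ a b, 0 ≤ wb a b ∧ wb a b ≤ D) ∧
      II (fun x y => |w x y - wb (cell x) (cell y)|) lam lam ≤ η := by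
  have hD0 : 0 ≤ D := (h0 0 0).trans (hD 0 0)
  have hb : Bd (uncurry w) := Bd.of_le hw fun p => ⟨h0 _ _, hD _ _⟩
  obtain ⟨g, hg, hgi⟩ := (hb.integrable (lam.prod lam)).exists_boundedContinuous_integral_sub_le
    (half_pos hη)
  have huc : UniformContinuousOn g (Set.Icc (0 : ℝ) 1 ×ˢ Set.Icc (0 : ℝ) 1) :=
    (isCompact_Icc.prod isCompact_Icc).uniformContinuousOn_of_continuous
      g.continuous.continuousOn
  obtain ⟨δ, hδ, hδ2⟩ := Metric.uniformContinuousOn_iff_le.1 huc (η / 2) (half_pos hη)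
  obtain ⟨K, hK⟩ := exists_nat_gt (max K₀ (1 / δ))
  have hK1 : 1 / δ < K := (le_max_right _ _).trans_lt hK
  have hK' : (0 : ℝ) < K := lt_trans (by positivity) hK1
  have hK0 : 0 < K := by exact_mod_cast hK'
  refine ⟨K, cellK K hK0, fun a b => max 0 (min D (g ((a : ℕ) / K, (b : ℕ) / K))), hK0,
    ((le_max_left _ _).trans_lt hK).le, measurable_cellK K hK0, lam_cellK K hK0,
    fun a b => ⟨le_max_left _ _, max_le hD0 (min_le_left _ _)⟩, ?_⟩
  have hb2 := bd_err (measurable_cellK K hK0) hb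
    (fun a b => max 0 (min D (g ((a : ℕ) / K, (b : ℕ) / K))))
  rw [II_eq_prod hb2]
  have hclose : ∀ x ∈ Set.Icc (0 : ℝ) 1, ((cellK K hK0 x : ℕ) / K : ℝ) ∈ Set.Icc (0 : ℝ) 1 ∧
      dist x ((cellK K hK0 x : ℕ) / K) ≤ δ := by
    intro x hx
    have h := cellK_bounds K hK0 hx
    have h1 : ((cellK K hK0 x : ℕ) / K : ℝ) ≤ x := by rw [div_le_iff₀ hK']; linarith [h.1]
    refine ⟨⟨by positivity, h1.trans hx.2⟩, ?_⟩
    rw [Real.dist_eq, abs_of_nonneg (by linarith)]
    have h2 : x ≤ ((cellK K hK0 x : ℕ) + 1) / K := by rw [le_div_iff₀ hK']; linarith [h.2]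
    have h3 : 1 / (K : ℝ) ≤ δ := by
      rw [div_lt_iff₀ hδ] at hK1
      rw [div_le_iff₀ hK']; linarith
    rw [add_div] at h2
    linarith
  calc _ ≤ ∫ p, (‖uncurry w p - g p‖ + η / 2) ∂(lam.prod lam) := by
        refine integral_mono_ae (hb2.integrable _)
          (((hb.integrable _).sub hgi).norm.add (integrable_const _)) ?_
        have : ∀ᵐ p ∂(lam.prod lam), p ∈ Set.Icc (0 : ℝ) 1 ×ˢ Set.Icc (0 : ℝ) 1 := by
          unfold lam
          rw [Measure.prod_restrict]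
          exact ae_restrict_mem (measurableSet_Icc.prod measurableSet_Icc)
        filter_upwards [this] with p hp
        have h1 := hclose p.1 hp.1
        have h2 := hclose p.2 hp.2
        have h3 := hδ2 p hp ((cellK K hK0 p.1 : ℕ) / K, (cellK K hK0 p.2 : ℕ) / K) ⟨h1.1, h2.1⟩
          (by rw [Prod.dist_eq]; exact max_le h1.2 h2.2)
        rw [Real.dist_eq, abs_le] at h3
        have h4 := h0 p.1 p.2
        have h5 := hD p.1 p.2
        have h6 := le_abs_self (w p.1 p.2 - g p)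
        have h7 := neg_abs_le (w p.1 p.2 - g p)
        change _ ≤ |w p.1 p.2 - g p| + η / 2
        rw [abs_le]
        simp only [max_def, min_def]
        split_ifs <;> constructor <;> linarith [h3.1, h3.2]
    _ ≤ η := by
        rw [integral_add (f := fun p => ‖uncurry w p - g p‖) ((hb.integrable _).sub hgi).norm
          (integrable_const _)]
        simp only [integral_const, probReal_univ, smul_eq_mul, one_mul]
        linarith

end Pool.Agent.Lib.MP_eaf82e_pr
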