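import Pool.Agent.Lib.MP_eaf82e_pr.Upper

set_option autoImplicit false
set_option linter.unusedSectionVars false
open MeasureTheory Filter Topology Function
open scoped ENNReal

namespace Pool.Agent.Lib.MP_eaf82e_pr

lemma heavy_le {V : Type*} [Fintype V] [LinearOrder V] (w : V → V → ℝ) (hw : ∀ i j, 0 ≤ w i j)
    (θ : ℝ) : Pr (qq w) (fun ω => ∃ S, Indep ω S ∧ θ * S.card < ws w S) ≤
      (1 + Real.exp (-θ)) ^ Fintype.card V - 1 := by
  classical
  have hq := isP_qq hw
  calc _ ≤ Pr (qq w) (fun ω => ∃ S ∈ ((Finset.univ : Finset V).powerset.erase ∅).filter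
          (fun S => θ * S.card < ws w S), Indep ω S) := by
        refine Pr_mono hq ?_
        rintro ω ⟨S, h1, h2⟩
        refine ⟨S, Finset.mem_filter.2 ⟨Finset.mem_erase.2 ⟨?_, by simp⟩, h2⟩, h1⟩
        rintro rfl
        simp [ws, pairs] at h2
    _ ≤ ∑ S ∈ ((Finset.univ : Finset V).powerset.erase ∅).filter
          (fun S => θ * S.card < ws w S), Real.exp (-θ) ^ S.card := by
        refine (Pr_exists_le hq _ _).trans (Finset.sum_le_sum fun S hS => ?_)
        unfold Indep
        rw [Pr_ind, pr_pairs, ← Real.exp_nat_mul]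
        apply Real.exp_le_exp.2
        linarith [(Finset.mem_filter.1 hS).2]
    _ ≤ ∑ S ∈ (Finset.univ : Finset V).powerset.erase ∅, Real.exp (-θ) ^ S.card :=
        Finset.sum_le_sum_of_subset_of_nonneg (Finset.filter_subset _ _)
          fun _ _ _ => by positivity
    _ = _ := by
        rw [eq_sub_iff_add_eq]
        have h1 := Finset.sum_erase_add (Finset.univ : Finset V).powerset
          (fun S => Real.exp (-θ) ^ S.card) (Finset.empty_mem_powerset _)
        have h2 := Finset.prod_one_add (f := fun _ : V => Real.exp (-θ)) Finset.univ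
        simp only [Finset.prod_const, Finset.card_univ] at h2
        rw [h2, ← h1]; simp

lemma heavy_ev {ε δ : ℝ} (hε : 0 < ε) (hδ : 0 < δ) : ∀ᶠ n : ℕ in atTop,
    (1 + Real.exp (-((1 + ε) * Real.log n))) ^ n - 1 ≤ δ := by
  have h1 : Tendsto (fun n : ℕ => Real.exp (Real.exp (-(ε * Real.log n))) - 1) atTop (𝓝 0) := by
    have h2 : Tendsto (fun n : ℕ => Real.exp (-(ε * Real.log n))) atTop (𝓝 0) :=
      Real.tendsto_exp_neg_atTop_nhds_zero.comp (tendsto_log_nat.const_mul_atTop hε)
    have := ((Real.continuous_exp.tendsto 0).comp h2).sub_const 1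
    simpa using this
  filter_upwards [h1.eventually (ge_mem_nhds hδ), eventually_gt_atTop 0] with n hn h0
  refine le_trans (sub_le_sub_right ?_ 1) hn
  have hn0 : (0 : ℝ) < n := by exact_mod_cast h0
  calc _ ≤ Real.exp (Real.exp (-((1 + ε) * Real.log n))) ^ n := by
        gcongr
        linarith [Real.add_one_le_exp (Real.exp (-((1 + ε) * Real.log n)))]
    _ = _ := by
        rw [← Real.exp_nat_mul]
        congr 1
        nth_rewrite 1 [← Real.exp_log hn0]
        rw [← Real.exp_add]; congr 1; ring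

lemma multilin' {V : Type*} [Fintype V] [DecidableEq V] (C : Finset V) (b : V → V → ℝ) (Θ η : ℝ)
    (h : ∀ S ⊆ C, ∑ i ∈ S, ∑ j ∈ S.erase i, b i j ≤ Θ * S.card + η)
    (t : V → ℝ) (ht : IsP t) :
    ∑ i ∈ C, ∑ j ∈ C.erase i, t i * t j * b i j ≤ Θ * ∑ i ∈ C, t i + η := by
  have key : ∀ (S : Finset V) (f : V → V → ℝ),
      ∑ i ∈ S, ∑ j ∈ S.erase i, (if i ∈ C ∧ j ∈ C then f i j else 0) =
      ∑ i ∈ S ∩ C, ∑ j ∈ (S ∩ C).erase i, f i j := by
    intro S f
    rw [← Finset.sum_ite_mem]
    refine Finset.sum_congr rfl fun i _ => ?_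
    split_ifs with hi
    · rw [← Finset.erase_inter, ← Finset.sum_ite_mem]
      simp [hi]
    · simp [hi]
  have := multilin (fun i j => if i ∈ C ∧ j ∈ C then b i j else 0)
    (fun i => if i ∈ C then Θ else 0) η (by
      intro S
      rw [key, Finset.sum_ite_mem, Finset.sum_const, nsmul_eq_mul, mul_comm]
      exact h _ Finset.inter_subset_right) t ht
  simp_rw [mul_ite, mul_zero] at this
  rw [key, Finset.univ_inter, Finset.sum_ite_mem, Finset.univ_inter, ← Finset.sum_mul,
    mul_comm] at this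
  exact this

instance (x : ℝ) (μ : Measure ℝ) [IsFiniteMeasure μ] : IsFiniteMeasure (ENNReal.ofReal x • μ) :=
  Measure.smul_finite μ ENNReal.ofReal_ne_top

variable {K : ℕ}

noncomputable def lamc (cell : ℝ → Fin K) (a : Fin K) : Measure ℝ :=
  ENNReal.ofReal K • lam.restrict (cell ⁻¹' {a})

instance (cell : ℝ → Fin K) (a : Fin K) : IsFiniteMeasure (lamc cell a) := by
  unfold lamc; infer_instance

noncomputable def mix {V : Type*} (cell : ℝ → Fin K) (C : Finset V) (q : V → Fin K) : Measure ℝ :=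
  ∑ i ∈ C, ENNReal.ofReal (1 / C.card) • lamc cell (q i)

instance {V : Type*} (cell : ℝ → Fin K) (C : Finset V) (q : V → Fin K) :
    IsFiniteMeasure (mix cell C q) := by
  unfold mix; infer_instance

lemma real_sum_smul {ι : Type*} (s : Finset ι) (α : ι → ℝ) (hα : ∀ i, 0 ≤ α i) (ν : ι → Measure ℝ)
    [∀ i, IsFiniteMeasure (ν i)] (S : Set ℝ) :
    (∑ i ∈ s, ENNReal.ofReal (α i) • ν i).real S = ∑ i ∈ s, α i * (ν i).real S := by
  simp only [Measure.real, Measure.coe_finsetSum, Finset.sum_apply, Measure.smul_apply,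
    smul_eq_mul]
  rw [ENNReal.toReal_sum fun i _ => ENNReal.mul_ne_top ENNReal.ofReal_ne_top (measure_ne_top _ _)]
  refine Finset.sum_congr rfl fun i _ => ?_
  rw [ENNReal.toReal_mul, ENNReal.toReal_ofReal (hα i)]

lemma mix_real {V : Type*} (cell : ℝ → Fin K) (C : Finset V) (q : V → Fin K) (S : Set ℝ) :
    (mix cell C q).real S = 1 / C.card * ∑ i ∈ C, (lamc cell (q i)).real S := by
  unfold mix
  rw [real_sum_smul _ _ (fun _ => by positivity), Finset.mul_sum]

lemma restrict_sum_smul {ι : Type*} (s : Finset ι) (α : ι → ℝ≥0∞) (ν : ι → Measure ℝ)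
    (S : Set ℝ) : (∑ i ∈ s, α i • ν i).restrict S = ∑ i ∈ s, α i • (ν i).restrict S := by
  classical
  induction s using Finset.induction_on with
  | empty => simp
  | insert i s hi ih =>
    rw [Finset.sum_insert hi, Finset.sum_insert hi, Measure.restrict_add, Measure.restrict_smul, ih]

variable {cell : ℝ → Fin K} (hc : Measurable cell)
  (hcell : ∀ a, lam.real (cell ⁻¹' {a}) = 1 / K)
include hc

lemma lamc_real (a : Fin K) {S : Set ℝ} (hS : MeasurableSet S) :
    (lamc cell a).real S = K * lam.real (S ∩ cell ⁻¹' {a}) := by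
  unfold lamc
  rw [measureReal_ennreal_smul_apply, ENNReal.toReal_ofReal (Nat.cast_nonneg _),
    measureReal_restrict_apply hS]

lemma lamc_restrict_cell (a b : Fin K) {S : Set ℝ} (hS : MeasurableSet S) :
    ((lamc cell a).restrict S).real (cell ⁻¹' {b}) = if b = a then (lamc cell a).real S else 0 := by
  have hb := hc (measurableSet_singleton b)
  rw [measureReal_restrict_apply hb, lamc_real hc _ (hb.inter hS), lamc_real hc _ hS]
  split_ifs with h
  · subst h
    congr 2
    ext x; simp only [Set.mem_inter_iff]; tauto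
  · have : cell ⁻¹' {b} ∩ S ∩ cell ⁻¹' {a} = ∅ := by
      ext x
      simp only [Set.mem_inter_iff, Set.mem_preimage, Set.mem_singleton_iff,
        Set.mem_empty_iff_false, iff_false]
      rintro ⟨⟨h1, _⟩, h2⟩
      exact h (h1.symm.trans h2)
    rw [this]; simp

lemma sum_lamc (hK : 0 < K) : ∑ a, ENNReal.ofReal (1 / K) • lamc cell a = lam := by
  have hK' : (0 : ℝ) < K := by exact_mod_cast hK
  ext S hS
  rw [← ENNReal.toReal_eq_toReal_iff' (measure_ne_top _ _) (measure_ne_top _ _)]
  change Measure.real _ S = lam.real S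
  rw [real_sum_smul _ _ (fun _ => by positivity), ← measureReal_restrict_apply_univ (μ := lam) S,
    ← sum_cell_real hc]
  refine Finset.sum_congr rfl fun a _ => ?_
  rw [lamc_real hc _ hS, measureReal_restrict_apply (hc (measurableSet_singleton a)),
    Set.inter_comm]
  field_simp

include hcell

lemma lamc_prob (a : Fin K) : IsProbabilityMeasure (lamc cell a) := by
  have hK' : (0 : ℝ) < K := by exact_mod_cast a.pos
  rw [isProbabilityMeasure_iff_real, lamc_real hc _ MeasurableSet.univ, Set.univ_inter, hcell]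
  field_simp

lemma mix_prob {V : Type*} {C : Finset V} (hC : C.Nonempty) (q : V → Fin K) :
    IsProbabilityMeasure (mix cell C q) := by
  have := lamc_prob hc hcell
  have h : (0 : ℝ) < C.card := by exact_mod_cast hC.card_pos
  rw [isProbabilityMeasure_iff_real, mix_real]
  simp only [probReal_univ, Finset.sum_const, nsmul_eq_mul]
  field_simp

variable {w : ℝ → ℝ → ℝ} {c D : ℝ}

noncomputable def cerr (w : ℝ → ℝ → ℝ) (cell : ℝ → Fin K) (wb : Fin K → Fin K → ℝ)
    (a b : Fin K) : ℝ :=
  II (fun x y => |w x y - wb (cell x) (cell y)|) (lamc cell a) (lamc cell b)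

lemma Kern.II_cerr (h : Kern w c D) (hK : 0 < K) (wb : Fin K → Fin K → ℝ) :
    II (fun x y => cerr w cell wb (cell x) (cell y)) lam lam =
      II (fun x y => |w x y - wb (cell x) (cell y)|) lam lam := by
  rw [II_cell hc]
  conv_rhs => rw [← sum_lamc hc hK, II_sum _ _ _ _ (bd_err hc h.bd wb)]
  refine Finset.sum_congr rfl fun a _ => Finset.sum_congr rfl fun b _ => ?_
  rw [II_smul, hcell, hcell, ENNReal.toReal_ofReal (by positivity)]
  rfl

theorem Kern.phi_mix (h : Kern w c D) (wb : Fin K → Fin K → ℝ)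
    {V : Type*} [Fintype V] [DecidableEq V] {C : Finset V} (hC : C.Nonempty) (q : V → Fin K)
    (Θ : ℝ) (hΘ : 0 ≤ Θ)
    (h1 : ∀ S ⊆ C, ∑ i ∈ S, ∑ j ∈ S.erase i, wb (q i) (q j) ≤ Θ * S.card + 1)
    (h2 : ∑ i ∈ C, ∑ j ∈ C.erase i, cerr w cell wb (q i) (q j) ≤ 1) :
    phi w (mix cell C q) ≤ (Θ + D + 2) * (1 / C.card) := by
  have := lamc_prob hc hcell
  have hD := h.Dpos
  have hm : (0 : ℝ) < C.card := by exact_mod_cast hC.card_pos
  refine phi_le _ (by positivity) fun S hS => ?_
  obtain ⟨t, ht⟩ : ∃ t : V → ℝ, t = fun i => (lamc cell (q i)).real S := ⟨_, rfl⟩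
  have ht' : ∀ i, (lamc cell (q i)).real S = t i := fun i => by rw [ht]
  have htP : IsP t := fun i => by
    rw [← ht']; exact ⟨measureReal_nonneg, measureReal_le_one⟩
  have hμ : (mix cell C q).real S = 1 / C.card * ∑ i ∈ C, t i := by rw [mix_real, ht]
  have hsum0 : 0 ≤ ∑ i ∈ C, t i := Finset.sum_nonneg fun i _ => (htP i).1
  by_cases hsm : ∑ i ∈ C, t i ≤ 1
  · refine (h.II_le _ _).trans ?_
    rw [measureReal_restrict_apply_univ]
    apply mul_le_mul_of_nonneg_right _ measureReal_nonneg
    rw [hμ]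
    calc _ ≤ D * (1 / C.card * 1) := by gcongr
      _ = D * (1 / C.card) := by ring
      _ ≤ _ := by gcongr; linarith
  have h3 : II w ((mix cell C q).restrict S) ((mix cell C q).restrict S) =
      (1 / C.card) ^ 2 * ∑ i ∈ C, ∑ j ∈ C,
        II w ((lamc cell (q i)).restrict S) ((lamc cell (q j)).restrict S) := by
    unfold mix
    rw [restrict_sum_smul, II_sum _ _ _ _ h.bd, Finset.mul_sum]
    refine Finset.sum_congr rfl fun i _ => ?_
    rw [Finset.mul_sum]
    refine Finset.sum_congr rfl fun j _ => ?_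
    rw [II_smul, ENNReal.toReal_ofReal (by positivity), sq]
  have h4 : ∀ i j, II w ((lamc cell (q i)).restrict S) ((lamc cell (q j)).restrict S) ≤
      t i * t j * wb (q i) (q j) + cerr w cell wb (q i) (q j) := by
    intro i j
    refine (h.le_block hc wb _ _).trans (add_le_add (le_of_eq ?_) ?_)
    · rw [II_cell hc]
      simp_rw [lamc_restrict_cell hc _ _ hS, ht']
      simp
    · exact II_mono_measure (bd_err hc h.bd wb) (fun _ _ => abs_nonneg _)
        Measure.restrict_le_self Measure.restrict_le_self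
  have h5 : ∀ i, II w ((lamc cell (q i)).restrict S) ((lamc cell (q i)).restrict S) ≤ D * t i :=
    fun i => by rw [← ht']; exact h.II_restrict_le _ _
  have h6 := multilin' C (fun i j => wb (q i) (q j)) Θ 1 h1 t htP
  have h7 : ∑ i ∈ C, ∑ j ∈ C,
      II w ((lamc cell (q i)).restrict S) ((lamc cell (q j)).restrict S) ≤
      (Θ + D + 2) * ∑ i ∈ C, t i := by
    calc _ ≤ ∑ i ∈ C, (∑ j ∈ C.erase i, t i * t j * wb (q i) (q j) +
          ∑ j ∈ C.erase i, cerr w cell wb (q i) (q j) + D * t i) := by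
          refine Finset.sum_le_sum fun i hi => ?_
          rw [← Finset.sum_erase_add _ _ hi, ← Finset.sum_add_distrib]
          exact add_le_add (Finset.sum_le_sum fun j _ => h4 i j) (h5 i)
      _ ≤ _ := by
          rw [Finset.sum_add_distrib, Finset.sum_add_distrib, ← Finset.mul_sum]
          have := not_le.1 hsm
          nlinarith
  rw [h3, hμ]
  calc _ ≤ (1 / C.card) ^ 2 * ((Θ + D + 2) * ∑ i ∈ C, t i) := by gcongr
    _ = _ := by ring

omit hc hcell in
lemma mix_support {V : Type*} (C : Finset V) (q : V → Fin K) :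
    mix cell C q (Set.Icc (0 : ℝ) 1)ᶜ = 0 := by
  have h0 : lam (Set.Icc (0 : ℝ) 1)ᶜ = 0 := by
    simp [lam, Measure.restrict_apply measurableSet_Icc.compl]
  have h1 : ∀ a, lamc cell a (Set.Icc (0 : ℝ) 1)ᶜ = 0 := fun a => by
    have : lam.restrict (cell ⁻¹' {a}) (Set.Icc (0 : ℝ) 1)ᶜ = 0 :=
      le_antisymm ((Measure.restrict_le_self _).trans h0.le) zero_le
    simp [lamc, this]
  simp [mix, h1]

end Pool.Agent.Lib.MP_eaf82e_pr
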