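import Mathlib

set_option autoImplicit false
open Finset Filter Topology

namespace Pool.Agent.Lib.MP_eaf82e_pr

lemma tendsto_log_nat : Tendsto (fun n : ℕ => Real.log n) atTop atTop :=
  Real.tendsto_log_atTop.comp tendsto_natCast_atTop_atTop

lemma ev_log (C : ℝ) : ∀ᶠ n : ℕ in atTop, C ≤ Real.log n :=
  tendsto_log_nat.eventually_ge_atTop C

lemma ev_pow_exp (C : ℝ) (j : ℕ) {κ : ℝ} (hκ : 0 < κ) :
    ∀ᶠ l : ℝ in atTop, C * l ^ j ≤ Real.exp (κ * l) := by
  have h := (isLittleO_pow_exp_pos_mul_atTop j hκ).const_mul_left C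
  filter_upwards [h.bound one_pos] with l hl
  rw [one_mul, Real.norm_eq_abs, Real.norm_eq_abs, abs_of_pos (Real.exp_pos _)] at hl
  exact (le_abs_self _).trans hl

lemma ev_polylog (C : ℝ) (j : ℕ) : ∀ᶠ n : ℕ in atTop, C * Real.log n ^ j ≤ n := by
  filter_upwards [tendsto_log_nat.eventually (ev_pow_exp C j one_pos), eventually_gt_atTop 0]
    with n hn h0
  rwa [one_mul, Real.exp_log (by exact_mod_cast h0)] at hn

lemma numeric (D ε C δ : ℝ) (hD : 0 ≤ D) (hε : 0 < ε) (hC : 0 ≤ C) (hδ : 0 < δ) :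
    ∀ᶠ n : ℕ in atTop, ∃ β τ : ℝ, 0 ≤ β ∧ 0 ≤ τ ∧ ∀ (m : ℕ) (u : ℝ),
      m ≤ C * Real.log n → n / Real.log n ^ 2 ≤ u →
      (∀ s : ℕ, 2 ≤ s → s ≤ m → min (Real.exp (D * s ^ 2)) (Real.exp ((1 - ε) * Real.log n * s)) *
        (m * (m / u)) ^ s ≤ β) ∧
      2 ^ n * Real.exp (-(τ / 2) + τ ^ 2 * ((m + 1) * β)) ≤ δ := by
  obtain ⟨κ, hκ0, hκ1, hκ2⟩ : ∃ κ : ℝ, 0 < κ ∧ κ ≤ ε / 2 ∧ κ ≤ 1 / 10 :=
    ⟨min (ε / 2) (1 / 10), lt_min (by linarith) (by norm_num), min_le_left _ _, min_le_right _ _⟩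
  obtain ⟨s0, hs0⟩ := exists_nat_ge (4 / ε)
  obtain ⟨E, hE⟩ : ∃ E : ℝ, E = Real.exp (D * s0 ^ 2) := ⟨_, rfl⟩
  have hE1 : 1 ≤ E := hE ▸ Real.one_le_exp (by positivity)
  have hn : Tendsto (fun n : ℕ => (n : ℝ)) atTop atTop := tendsto_natCast_atTop_atTop
  filter_upwards [tendsto_log_nat.eventually (ev_pow_exp (C ^ 2) 4 hκ0),
    tendsto_log_nat.eventually (ev_pow_exp (4 * (C + 1) * E) 1 (show (0 : ℝ) < 3 / 10 by norm_num)),
    tendsto_log_nat.eventually (ev_pow_exp 8 0 (show (0 : ℝ) < 1 / 2 by norm_num)),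
    ev_log 1, hn.eventually_ge_atTop (-Real.log δ), eventually_gt_atTop 0]
    with n h1 h2 h3 h4 h5 h0
  obtain ⟨l, hl⟩ : ∃ l : ℝ, l = Real.log n := ⟨_, rfl⟩
  have hnl : (n : ℝ) = Real.exp l := by rw [hl, Real.exp_log (by exact_mod_cast h0)]
  rw [← hl] at h1 h2 h3 h4 ⊢
  have hl0 : 0 < l := by linarith
  refine ⟨E * Real.exp (-(9 / 5) * l), Real.exp (3 / 2 * l), by positivity, by positivity, ?_⟩
  intro m u hm hu
  have hu0 : 0 < u := lt_of_lt_of_le (by rw [hnl]; positivity) hu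
  have hy : (m : ℝ) * (m / u) ≤ Real.exp (-(1 - κ) * l) := by
    have h6 : (m : ℝ) * (m / u) ≤ (C * l) * ((C * l) / (n / l ^ 2)) := by
      have : (0 : ℝ) < n / l ^ 2 := by rw [hnl]; positivity
      gcongr
    refine h6.trans ?_
    have h7 : (C * l) * ((C * l) / (n / l ^ 2)) = C ^ 2 * l ^ 4 / n := by field_simp
    rw [h7, hnl, div_le_iff₀ (Real.exp_pos _), ← Real.exp_add]
    rw [show -(1 - κ) * l + l = κ * l by ring]; exact h1
  have hy0 : 0 ≤ (m : ℝ) * (m / u) := by positivity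
  constructor
  · intro s hs2 _
    have hs2' : (2 : ℝ) ≤ s := by exact_mod_cast hs2
    have h6 : ((m : ℝ) * (m / u)) ^ s ≤ Real.exp (-(1 - κ) * l * s) := by
      refine (pow_le_pow_left₀ hy0 hy s).trans (le_of_eq ?_)
      rw [← Real.exp_nat_mul]; congr 1; ring
    by_cases hs : s ≤ s0
    · have hs' : (s : ℝ) ≤ s0 := by exact_mod_cast hs
      refine mul_le_mul ((min_le_left _ _).trans ?_) (h6.trans ?_) (by positivity) (by positivity)
      · rw [hE]; apply Real.exp_le_exp.2; gcongr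
      · apply Real.exp_le_exp.2
        nlinarith [mul_le_mul_of_nonneg_left hs2' hl0.le, mul_nonneg hl0.le (show (0:ℝ) ≤ s by positivity)]
    · have hs' : (s0 : ℝ) ≤ s := by exact_mod_cast (not_le.1 hs).le
      have h7 : 4 ≤ ε * s := by
        rw [div_le_iff₀ hε] at hs0
        nlinarith
      calc _ ≤ Real.exp ((1 - ε) * l * s) * Real.exp (-(1 - κ) * l * s) :=
            mul_le_mul (min_le_right _ _) h6 (by positivity) (by positivity)
        _ ≤ Real.exp (-(9 / 5) * l) := by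
            rw [← Real.exp_add]
            apply Real.exp_le_exp.2
            have h8 := mul_le_mul_of_nonneg_left h7 hl0.le
            have h9 : κ * (l * s) ≤ ε / 2 * (l * s) := by gcongr
            nlinarith
        _ ≤ _ := le_mul_of_one_le_left (Real.exp_pos _).le hE1
  · have h6 : Real.exp (3 / 2 * l) * ((m + 1) * (E * Real.exp (-(9 / 5) * l))) ≤ 1 / 4 := by
      have h7 : (m : ℝ) + 1 ≤ (C + 1) * l := by nlinarith
      have h8 : Real.exp (3 / 2 * l) * Real.exp (-(9 / 5) * l) * Real.exp (3 / 10 * l) = 1 := by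
        rw [← Real.exp_add, ← Real.exp_add, ← Real.exp_zero]; congr 1; ring
      have h9 : 0 < Real.exp (3 / 2 * l) * Real.exp (-(9 / 5) * l) := by positivity
      rw [pow_one] at h2
      calc _ = Real.exp (3 / 2 * l) * Real.exp (-(9 / 5) * l) * ((m + 1) * E) := by ring
        _ ≤ Real.exp (3 / 2 * l) * Real.exp (-(9 / 5) * l) * (Real.exp (3 / 10 * l) / 4) := by
          apply mul_le_mul_of_nonneg_left _ h9.le
          have := mul_le_mul_of_nonneg_right h7 (show 0 ≤ E by linarith)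
          linarith
        _ = 1 / 4 := by linarith
    have h7 : (2 : ℝ) ^ n ≤ Real.exp n := by
      rw [← Real.exp_one_pow]
      exact pow_le_pow_left₀ (by norm_num) (by linarith [Real.add_one_le_exp 1]) n
    have h8 : 8 * (n : ℝ) ≤ Real.exp (3 / 2 * l) := by
      rw [pow_zero, mul_one] at h3
      have : Real.exp (3 / 2 * l) = Real.exp (1 / 2 * l) * Real.exp l := by
        rw [← Real.exp_add]; congr 1; ring
      rw [this, hnl]
      gcongr
    have h9 := mul_le_mul_of_nonneg_left h6 (Real.exp_pos (3 / 2 * l)).le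
    calc _ ≤ Real.exp n * Real.exp (-(Real.exp (3 / 2 * l) / 4)) := by
          apply mul_le_mul h7 _ (Real.exp_pos _).le (Real.exp_pos _).le
          apply Real.exp_le_exp.2
          nlinarith
      _ ≤ Real.exp (Real.log δ) := by
          rw [← Real.exp_add]
          apply Real.exp_le_exp.2
          linarith
      _ = δ := Real.exp_log hδ

end Pool.Agent.Lib.MP_eaf82e_pr
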