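import Pool.Agent.Lib.MP_eaf82e_pr.Meas
import Pool.Agent.Lib.MP_eaf82e_pr.Bern

set_option autoImplicit false
set_option linter.unusedSectionVars false
open MeasureTheory Filter Topology Function
open scoped ENNReal

namespace Pool.Agent.Lib.MP_eaf82e_pr

structure Kern (w : ℝ → ℝ → ℝ) (c D : ℝ) : Prop where
  meas : Measurable (uncurry w)
  symm : ∀ x y, w x y = w y x
  cpos : 0 < c
  lo : ∀ x y, c ≤ w x y
  hi : ∀ x y, w x y ≤ D

noncomputable def phi (w : ℝ → ℝ → ℝ) (μ : Measure ℝ) : ℝ :=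
  sSup {r : ℝ | ∃ S : Set ℝ, MeasurableSet S ∧ 0 < μ S ∧
    r = (μ S).toReal⁻¹ * II w (μ.restrict S) (μ.restrict S)}

def IsDec {ι : Type*} [Fintype ι] (ν : ι → Measure ℝ) (α : ι → ℝ) : Prop :=
  (∀ i, IsProbabilityMeasure (ν i)) ∧ (∀ i, ν i (Set.Icc (0:ℝ) 1)ᶜ = 0) ∧
    (∀ i, 0 ≤ α i) ∧ ∑ i, α i = 1 ∧ ∑ i, ENNReal.ofReal (α i) • ν i = lam

def PhiSet (w : ℝ → ℝ → ℝ) : Set ℝ :=
  {t : ℝ | ∃ k : ℕ, ∃ ν : Fin k → Measure ℝ, ∃ α : Fin k → ℝ,
    IsDec ν α ∧ t = ∑ i, α i * phi w (ν i)}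

noncomputable def Phi (w : ℝ → ℝ → ℝ) : ℝ := sInf (PhiSet w)

variable {w : ℝ → ℝ → ℝ} {c D : ℝ}

lemma Kern.nonneg (h : Kern w c D) (x y : ℝ) : 0 ≤ w x y := h.cpos.le.trans (h.lo x y)
lemma Kern.Dpos (h : Kern w c D) : 0 < D := h.cpos.trans_le ((h.lo 0 0).trans (h.hi 0 0))
lemma Kern.bd (h : Kern w c D) : Bd (uncurry w) := Bd.of_le h.meas fun _ => ⟨h.lo _ _, h.hi _ _⟩

lemma Kern.II_le (h : Kern w c D) (μ ν : Measure ℝ) [IsFiniteMeasure μ] [IsFiniteMeasure ν] :
    II w μ ν ≤ D * μ.real Set.univ * ν.real Set.univ := by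
  rw [← II_const]; exact II_mono h.bd (Bd.const D) h.hi

lemma Kern.le_II (h : Kern w c D) (μ ν : Measure ℝ) [IsFiniteMeasure μ] [IsFiniteMeasure ν] :
    c * μ.real Set.univ * ν.real Set.univ ≤ II w μ ν := by
  rw [← II_const]; exact II_mono (Bd.const c) h.bd h.lo

lemma phi_le (μ : Measure ℝ) [IsFiniteMeasure μ] {B : ℝ} (hB : 0 ≤ B)
    (h : ∀ S, MeasurableSet S → II w (μ.restrict S) (μ.restrict S) ≤ B * μ.real S) :
    phi w μ ≤ B := by
  apply Real.sSup_le _ hB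
  rintro r ⟨S, hS, hpos, rfl⟩
  have h1 : 0 < (μ S).toReal := ENNReal.toReal_pos hpos.ne' (measure_ne_top _ _)
  rw [inv_mul_le_iff₀ h1, mul_comm]
  exact h S hS

lemma Kern.II_restrict_le (h : Kern w c D) (μ : Measure ℝ) [IsProbabilityMeasure μ] (S : Set ℝ) :
    II w (μ.restrict S) (μ.restrict S) ≤ D * μ.real S := by
  refine (h.II_le _ _).trans ?_
  rw [measureReal_restrict_apply_univ]
  exact mul_le_of_le_one_right (mul_nonneg h.Dpos.le measureReal_nonneg) measureReal_le_one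

lemma Kern.phi_le_D (h : Kern w c D) (μ : Measure ℝ) [IsProbabilityMeasure μ] : phi w μ ≤ D :=
  phi_le μ h.Dpos.le fun S _ => h.II_restrict_le μ S

lemma Kern.phi_bdd (h : Kern w c D) (μ : Measure ℝ) [IsProbabilityMeasure μ] :
    BddAbove {r : ℝ | ∃ S : Set ℝ, MeasurableSet S ∧ 0 < μ S ∧
      r = (μ S).toReal⁻¹ * II w (μ.restrict S) (μ.restrict S)} := by
  refine ⟨D, ?_⟩
  rintro r ⟨S, _, hpos, rfl⟩
  have h1 : 0 < (μ S).toReal := ENNReal.toReal_pos hpos.ne' (measure_ne_top _ _)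
  rw [inv_mul_le_iff₀ h1, mul_comm]
  exact h.II_restrict_le μ S

lemma Kern.le_phi (h : Kern w c D) (μ : Measure ℝ) [IsProbabilityMeasure μ] : c ≤ phi w μ := by
  refine le_trans ?_ (le_csSup (h.phi_bdd μ) ⟨Set.univ, MeasurableSet.univ, by simp, rfl⟩)
  simpa using h.le_II μ μ

lemma Kern.II_le_phi (h : Kern w c D) (μ : Measure ℝ) [IsProbabilityMeasure μ] {S : Set ℝ}
    (hS : MeasurableSet S) : II w (μ.restrict S) (μ.restrict S) ≤ phi w μ * μ.real S := by
  rcases eq_or_ne (μ S) 0 with h0 | h0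
  · rw [Measure.restrict_eq_zero.2 h0]
    simp [II, Measure.real, h0]
  · have h1 : 0 < (μ S).toReal := ENNReal.toReal_pos h0 (measure_ne_top _ _)
    have := le_csSup (h.phi_bdd μ) ⟨S, hS, pos_iff_ne_zero.2 h0, rfl⟩
    rw [inv_mul_le_iff₀ h1, mul_comm] at this
    exact this

lemma Kern.phiSet_lb (h : Kern w c D) : ∀ t ∈ PhiSet w, c ≤ t := by
  rintro t ⟨k, ν, α, ⟨h1, _, h3, h4, _⟩, rfl⟩
  calc c = ∑ i, α i * c := by rw [← Finset.sum_mul, h4, one_mul]
    _ ≤ _ := Finset.sum_le_sum fun i _ => mul_le_mul_of_nonneg_left (h.le_phi (ν i)) (h3 i)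

lemma phiSet_nonempty (w : ℝ → ℝ → ℝ) : (PhiSet w).Nonempty :=
  ⟨_, 1, fun _ => lam, fun _ => 1, ⟨fun _ => inferInstance, fun _ => by
    simp [lam, Measure.restrict_apply measurableSet_Icc.compl], fun _ => zero_le_one, by simp,
    by simp⟩, rfl⟩

lemma Kern.le_Phi (h : Kern w c D) : c ≤ Phi w := le_csInf (phiSet_nonempty w) h.phiSet_lb

lemma Kern.Phi_le (h : Kern w c D) {ι : Type*} [Fintype ι] {ν : ι → Measure ℝ} {α : ι → ℝ}
    (hd : IsDec ν α) : Phi w ≤ ∑ i, α i * phi w (ν i) := by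
  obtain ⟨h1, h2, h3, h4, h5⟩ := hd
  let e := (Fintype.equivFin ι).symm
  apply csInf_le ⟨c, h.phiSet_lb⟩
  refine ⟨Fintype.card ι, fun i => ν (e i), fun i => α (e i),
    ⟨fun i => h1 _, fun i => h2 _, fun i => h3 _, ?_, ?_⟩, ?_⟩
  · rw [← h4]; exact e.sum_comp α
  · rw [← h5]; exact e.sum_comp fun i => ENNReal.ofReal (α i) • ν i
  · exact (e.sum_comp fun i => α i * phi w (ν i)).symm

lemma exists_dec (w : ℝ → ℝ → ℝ) {ε : ℝ} (hε : 0 < ε) :
    ∃ (k : ℕ) (ν : Fin k → Measure ℝ) (α : Fin k → ℝ), IsDec ν α ∧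
      ∑ i, α i * phi w (ν i) ≤ Phi w + ε := by
  obtain ⟨t, ⟨k, ν, α, h1, rfl⟩, h2⟩ := Real.lt_sInf_add_pos (phiSet_nonempty w) hε
  exact ⟨k, ν, α, h1, h2.le⟩

lemma IsDec.real_sum {ι : Type*} [Fintype ι] {ν : ι → Measure ℝ} {α : ι → ℝ} (hd : IsDec ν α)
    (S : Set ℝ) : ∑ i, α i * (ν i).real S = lam.real S := by
  obtain ⟨h1, _, h3, _, h5⟩ := hd
  rw [← h5]
  simp only [Measure.real, Measure.coe_finsetSum, Finset.sum_apply, Measure.smul_apply,
    smul_eq_mul]
  rw [ENNReal.toReal_sum fun i _ => ENNReal.mul_ne_top ENNReal.ofReal_ne_top (measure_ne_top _ _)]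
  refine Finset.sum_congr rfl fun i _ => ?_
  rw [ENNReal.toReal_mul, ENNReal.toReal_ofReal (h3 i)]

lemma IsDec.le_lam {ι : Type*} [Fintype ι] {ν : ι → Measure ℝ} {α : ι → ℝ} (hd : IsDec ν α)
    (i : ι) : ENNReal.ofReal (α i) • ν i ≤ lam := by
  rw [← hd.2.2.2.2]
  exact Finset.single_le_sum (f := fun i => ENNReal.ofReal (α i) • ν i)
    (fun _ _ => Measure.zero_le _) (Finset.mem_univ i)

section cells
variable {K : ℕ} {cell : ℝ → Fin K} (hc : Measurable cell)
include hc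

lemma Kern.block_le (h : Kern w c D) (wb : Fin K → Fin K → ℝ) (μ ν : Measure ℝ)
    [IsFiniteMeasure μ] [IsFiniteMeasure ν] :
    II (fun x y => wb (cell x) (cell y)) μ ν ≤
      II w μ ν + II (fun x y => |w x y - wb (cell x) (cell y)|) μ ν := by
  rw [← II_add h.bd (bd_err hc h.bd wb)]
  exact II_mono (bd_cell hc wb) (h.bd.add (bd_err hc h.bd wb)) fun x y => by
    linarith [neg_abs_le (w x y - wb (cell x) (cell y))]

lemma Kern.le_block (h : Kern w c D) (wb : Fin K → Fin K → ℝ) (μ ν : Measure ℝ)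
    [IsFiniteMeasure μ] [IsFiniteMeasure ν] :
    II w μ ν ≤ II (fun x y => wb (cell x) (cell y)) μ ν +
      II (fun x y => |w x y - wb (cell x) (cell y)|) μ ν := by
  rw [← II_add (bd_cell hc wb) (bd_err hc h.bd wb)]
  exact II_mono h.bd ((bd_cell hc wb).add (bd_err hc h.bd wb)) fun x y => by
    linarith [le_abs_self (w x y - wb (cell x) (cell y))]

lemma restrict_cell_real (μ : Measure ℝ) (A : Finset (Fin K)) (a : Fin K) :
    (μ.restrict (cell ⁻¹' (A : Set (Fin K)))).real (cell ⁻¹' {a}) =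
      if a ∈ A then μ.real (cell ⁻¹' {a}) else 0 := by
  rw [measureReal_restrict_apply (hc (measurableSet_singleton a)), ← Set.preimage_inter]
  split_ifs with h
  · rw [Set.inter_eq_left.2 (by simpa using h)]
  · rw [Set.singleton_inter_eq_empty.2 (by simpa using h)]; simp

/-- the quadratic form bound that feeds the finite upper bound -/
theorem Kern.quad (h : Kern w c D) (wb : Fin K → Fin K → ℝ) (hwb : ∀ a b, 0 ≤ wb a b ∧ wb a b ≤ D)
    (hcell : ∀ a, lam.real (cell ⁻¹' {a}) = 1 / K) (η : ℝ)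
    (hη : II (fun x y => |w x y - wb (cell x) (cell y)|) lam lam ≤ η)
    (ν : Measure ℝ) [IsProbabilityMeasure ν] (α : ℝ) (hα : 0 < α)
    (hle : ENNReal.ofReal α • ν ≤ lam) (t : Fin K → ℝ) (ht : IsP t) :
    ∑ a, ∑ b, t a * t b * (ν.real (cell ⁻¹' {a}) * ν.real (cell ⁻¹' {b}) * wb a b) ≤
      phi w ν * ∑ a, t a * ν.real (cell ⁻¹' {a}) + (η / α ^ 2 + D / (α * K)) := by
  obtain ⟨p, hp⟩ : ∃ p : Fin K → ℝ, p = fun a => ν.real (cell ⁻¹' {a}) := ⟨_, rfl⟩
  have hp' : ∀ a, ν.real (cell ⁻¹' {a}) = p a := fun a => by rw [hp]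
  simp_rw [hp']
  have hp0 : ∀ a, 0 ≤ p a := fun a => by rw [← hp']; exact measureReal_nonneg
  have hp1 : ∑ a, p a = 1 := by
    simp_rw [← hp']; rw [sum_cell_real hc, probReal_univ]
  have hp2 : ∀ a, p a ≤ 1 / (α * K) := fun a => by
    have h1 : (ENNReal.ofReal α • ν).real (cell ⁻¹' {a}) ≤ lam.real (cell ⁻¹' {a}) :=
      ENNReal.toReal_mono (measure_ne_top _ _) (hle _)
    rw [measureReal_ennreal_smul_apply, ENNReal.toReal_ofReal hα.le, hp', hcell] at h1
    rw [← div_div, le_div_iff₀' (by have := a.pos; positivity), le_div_iff₀' hα]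
    rw [le_div_iff₀' (by have := a.pos; positivity)] at h1
    linarith
  have herr : II (fun x y => |w x y - wb (cell x) (cell y)|) ν ν ≤ η / α ^ 2 := by
    have h1 := (II_mono_measure (bd_err hc h.bd wb) (fun _ _ => abs_nonneg _) hle hle).trans hη
    rw [II_smul, ENNReal.toReal_ofReal hα.le] at h1
    rw [le_div_iff₀ (by positivity)]; linarith
  have h1 := multilin (fun a b => p a * p b * wb a b) (fun a => phi w ν * p a) (η / α ^ 2) (by
    intro A
    have hA : MeasurableSet (cell ⁻¹' (A : Set (Fin K))) := hc A.measurableSet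
    have h2 := h.block_le hc wb (ν.restrict (cell ⁻¹' A)) (ν.restrict (cell ⁻¹' A))
    have h3 := h.II_le_phi ν hA
    have h4 := (II_mono_measure (bd_err hc h.bd wb) (fun _ _ => abs_nonneg _)
      (Measure.restrict_le_self (μ := ν) (s := cell ⁻¹' A))
      (Measure.restrict_le_self (μ := ν) (s := cell ⁻¹' A))).trans herr
    rw [II_cell hc] at h2
    rw [← measureReal_restrict_apply_univ, ← sum_cell_real hc] at h3
    simp_rw [restrict_cell_real hc, hp'] at h2 h3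
    rw [Finset.sum_ite_mem, Finset.univ_inter, Finset.mul_sum] at h3
    refine le_trans ?_ (h2.trans (add_le_add h3 h4))
    have hnn : ∀ a b, 0 ≤ (if a ∈ A then p a else 0) * (if b ∈ A then p b else 0) * wb a b := by
      intro a b
      refine mul_nonneg (mul_nonneg ?_ ?_) (hwb a b).1 <;> split_ifs <;> simp [hp0]
    refine le_trans (Finset.sum_le_sum fun a ha => ?_)
      (Finset.sum_le_sum_of_subset_of_nonneg (Finset.subset_univ A)
        fun a _ _ => Finset.sum_nonneg fun b _ => hnn a b)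
    refine le_trans (le_of_eq (Finset.sum_congr rfl fun b hb => ?_))
      (Finset.sum_le_sum_of_subset_of_nonneg (Finset.subset_univ (A.erase a))
        fun b _ _ => hnn a b)
    rw [if_pos ha, if_pos (Finset.mem_of_mem_erase hb)]) t ht
  have h2 : ∑ a, ∑ b, t a * t b * (p a * p b * wb a b) =
      ∑ a, ∑ b ∈ Finset.univ.erase a, t a * t b * (p a * p b * wb a b) +
        ∑ a, t a * t a * (p a * p a * wb a a) := by
    rw [← Finset.sum_add_distrib]
    exact Finset.sum_congr rfl fun a _ => (Finset.sum_erase_add _ _ (Finset.mem_univ a)).symm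
  have h3 : ∑ a, t a * t a * (p a * p a * wb a a) ≤ D / (α * K) := by
    calc _ ≤ ∑ a, p a * (D / (α * K)) := by
          refine Finset.sum_le_sum fun a _ => ?_
          have h4 : t a * t a ≤ 1 := mul_le_one₀ (ht a).2 (ht a).1 (ht a).2
          have h5 : p a * wb a a ≤ 1 / (α * K) * D :=
            mul_le_mul (hp2 a) (hwb a a).2 (hwb a a).1 ((hp0 a).trans (hp2 a))
          calc _ ≤ 1 * (p a * p a * wb a a) := mul_le_mul_of_nonneg_right h4
                (mul_nonneg (mul_nonneg (hp0 a) (hp0 a)) (hwb a a).1)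
            _ = p a * (p a * wb a a) := by ring
            _ ≤ p a * (1 / (α * K) * D) := mul_le_mul_of_nonneg_left h5 (hp0 a)
            _ = _ := by ring
      _ = _ := by rw [← Finset.sum_mul, hp1, one_mul]
  have h4 : ∑ a, t a * (phi w ν * p a) = phi w ν * ∑ a, t a * p a := by
    rw [Finset.mul_sum]; exact Finset.sum_congr rfl fun _ _ => by ring
  linarith

end cells

end Pool.Agent.Lib.MP_eaf82e_pr
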