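import Pool.Agent.Lib.MP_eaf82e_pr.Trans

set_option autoImplicit false
set_option linter.unusedSectionVars false
open Finset Filter Topology

namespace Pool.Agent.Lib.MP_eaf82e_pr

variable {V : Type*} [Fintype V] [LinearOrder V]

lemma pair_sum {J : Type*} [Fintype J] [DecidableEq J] (U : J → Finset V)
    (hU : ∀ l, (U l).Nonempty) (b : V → V → ℝ) (l l' : J) (hl : l' ≠ l) :
    ∑ v ∈ Fintype.piFinset U, b (v l) (v l') = (∏ k, ((U k).card : ℝ)) *
      ∑ x, ∑ y, b x y * ((if x ∈ U l then 1 / ((U l).card : ℝ) else 0) *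
        (if y ∈ U l' then 1 / ((U l').card : ℝ) else 0)) := by
  let f : V → V → J → V → ℝ := fun x y k z =>
    (if k = l then (if z = x then 1 else 0) else 1) *
      (if k = l' then (if z = y then 1 else 0) else 1)
  have h1 : ∀ v : J → V, b (v l) (v l') = ∑ x, ∑ y, b x y * ∏ k, f x y k (v k) := by
    intro v
    simp only [f, Finset.prod_mul_distrib, Finset.prod_ite_eq', Finset.mem_univ, if_true]
    simp
  have h2 : ∀ x y, ∑ v ∈ Fintype.piFinset U, ∏ k, f x y k (v k) = (∏ k, ((U k).card : ℝ)) *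
      ((if x ∈ U l then 1 / ((U l).card : ℝ) else 0) *
        (if y ∈ U l' then 1 / ((U l').card : ℝ) else 0)) := by
    intro x y
    rw [← Finset.prod_univ_sum]
    have h3 : ∀ k, ∑ z ∈ U k, f x y k z = ((U k).card : ℝ) *
        ((if k = l then (if x ∈ U l then 1 / ((U l).card : ℝ) else 0) else 1) *
        (if k = l' then (if y ∈ U l' then 1 / ((U l').card : ℝ) else 0) else 1)) := by
      intro k
      have hk : ((U k).card : ℝ) ≠ 0 := by exact_mod_cast (hU k).card_pos.ne'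
      by_cases h4 : k = l
      · subst h4
        simp only [f, if_true, if_neg hl.symm, mul_one, Finset.sum_ite_eq']
        split_ifs
        · field_simp
        · simp
      · by_cases h5 : k = l'
        · subst h5
          simp only [f, if_true, if_neg h4, one_mul, Finset.sum_ite_eq']
          split_ifs
          · field_simp
          · simp
        · simp [f, h4, h5]
    simp only [h3, Finset.prod_mul_distrib, Finset.prod_ite_eq', Finset.mem_univ, if_true]
  simp_rw [h1]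
  rw [Finset.sum_comm, Finset.mul_sum]
  refine Finset.sum_congr rfl fun x _ => ?_
  rw [Finset.sum_comm, Finset.mul_sum]
  refine Finset.sum_congr rfl fun y _ => ?_
  rw [← Finset.mul_sum, h2]; ring

lemma good_card {J : Type*} [Fintype J] [DecidableEq J] (U : J → Finset V)
    (hU : ∀ l, (U l).Nonempty) (b : V → V → ℝ) (hb : ∀ x y, 0 ≤ b x y) (r t : ℝ) (ht : 0 < t)
    (hr : ∀ x, ∑ l, (if x ∈ U l then 1 / ((U l).card : ℝ) else 0) ≤ r)
    (hB : r ^ 2 * ∑ x, ∑ y, b x y ≤ t / 2) :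
    ∏ l, ((U l).card : ℝ) ≤ 2 * (((Fintype.piFinset U).filter
      fun v => ∑ l, ∑ l' ∈ univ.erase l, b (v l) (v l') < t).card : ℝ) := by
  obtain ⟨N, hN⟩ : ∃ N : ℝ, N = ∏ l, ((U l).card : ℝ) := ⟨_, rfl⟩
  have hN0 : 0 ≤ N := hN ▸ Finset.prod_nonneg fun l _ => Nat.cast_nonneg _
  obtain ⟨π, hπ⟩ : ∃ π : J → V → ℝ,
      π = fun l x => if x ∈ U l then 1 / ((U l).card : ℝ) else 0 := ⟨_, rfl⟩
  have hπ0 : ∀ l x, 0 ≤ π l x := by
    intro l x; rw [hπ]; simp only; split_ifs <;> simp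
  have hr' : ∀ x, ∑ l, π l x ≤ r := by rw [hπ]; exact hr
  have h1 : ∑ v ∈ Fintype.piFinset U, ∑ l, ∑ l' ∈ univ.erase l, b (v l) (v l') ≤ N * (t / 2) := by
    rw [Finset.sum_comm]
    calc _ = ∑ l, ∑ l' ∈ univ.erase l, N * ∑ x, ∑ y, b x y * (π l x * π l' y) := by
          refine Finset.sum_congr rfl fun l _ => ?_
          rw [Finset.sum_comm]
          refine Finset.sum_congr rfl fun l' hl' => ?_
          rw [pair_sum U hU b l l' (Finset.ne_of_mem_erase hl'), hN, hπ]
      _ ≤ ∑ l, ∑ l', N * ∑ x, ∑ y, b x y * (π l x * π l' y) := by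
          refine Finset.sum_le_sum fun l _ => ?_
          refine Finset.sum_le_sum_of_subset_of_nonneg (Finset.erase_subset _ _) fun l' _ _ => ?_
          exact mul_nonneg hN0 (Finset.sum_nonneg fun x _ => Finset.sum_nonneg fun y _ =>
            mul_nonneg (hb x y) (mul_nonneg (hπ0 _ _) (hπ0 _ _)))
      _ = N * ∑ x, ∑ y, b x y * ((∑ l, π l x) * ∑ l', π l' y) := by
          simp_rw [Finset.sum_mul_sum, Finset.mul_sum]
          rw [Finset.sum_comm]
          conv_lhs => enter [2, l']; rw [Finset.sum_comm]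
          rw [Finset.sum_comm]
          refine Finset.sum_congr rfl fun x _ => ?_
          conv_lhs => enter [2, l']; rw [Finset.sum_comm]
          rw [Finset.sum_comm]
          refine Finset.sum_congr rfl fun y _ => ?_
          rw [Finset.sum_comm]
      _ ≤ N * ∑ x, ∑ y, b x y * r ^ 2 := by
          apply mul_le_mul_of_nonneg_left _ hN0
          refine Finset.sum_le_sum fun x _ => Finset.sum_le_sum fun y _ => ?_
          apply mul_le_mul_of_nonneg_left _ (hb x y)
          have hy : 0 ≤ ∑ l', π l' y := Finset.sum_nonneg fun l _ => hπ0 _ _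
          rw [sq]
          exact mul_le_mul (hr' x) (hr' y) hy (hy.trans (hr' y))
      _ ≤ _ := by
          apply mul_le_mul_of_nonneg_left _ hN0
          simp_rw [← Finset.sum_mul]
          linarith
  have h2 := Finset.card_filter_add_card_filter_not (s := Fintype.piFinset U)
    (fun v => ∑ l, ∑ l' ∈ univ.erase l, b (v l) (v l') < t)
  rw [Fintype.card_piFinset] at h2
  have h2' := congrArg (Nat.cast : ℕ → ℝ) h2
  push_cast at h2'
  rw [← hN] at h2' ⊢
  have h3 : (((Fintype.piFinset U).filter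
      fun v => ¬ ∑ l, ∑ l' ∈ univ.erase l, b (v l) (v l') < t).card : ℝ) * t ≤ N * (t / 2) := by
    refine le_trans ?_ h1
    rw [← nsmul_eq_mul, ← Finset.sum_const]
    refine le_trans (Finset.sum_le_sum fun v hv => not_lt.1 (Finset.mem_filter.1 hv).2) ?_
    refine Finset.sum_le_sum_of_subset_of_nonneg (Finset.filter_subset _ _) fun v _ _ => ?_
    exact Finset.sum_nonneg fun l _ => Finset.sum_nonneg fun l' _ => hb _ _
  have h4 : (((Fintype.piFinset U).filter
      fun v => ¬ ∑ l, ∑ l' ∈ univ.erase l, b (v l) (v l') < t).card : ℝ) ≤ N / 2 := by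
    apply le_of_mul_le_mul_right _ ht
    linarith
  linarith

variable {κ : Type*} [Fintype κ] [DecidableEq κ]

/-- `T` has `mq a` points in cell `a`. -/
def HasProf (c : V → κ) (mq : κ → ℕ) (T : Finset V) : Prop :=
  ∀ a, (T.filter fun x => c x = a).card = mq a

def Avail (c : V → κ) (mq : κ → ℕ) (u : ℝ) (ω : Edge V → Bool) : Prop :=
  ∀ U : Finset V, (∀ a, u ≤ (U.filter fun x => c x = a).card) →
    ∃ T ⊆ U, Indep ω T ∧ HasProf c mq T

theorem profile_one (w : V → V → ℝ) (hw0 : ∀ i j, 0 ≤ w i j) (hs : ∀ i j, w i j = w j i)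
    (D : ℝ) (hD : ∀ i j, w i j ≤ D) (hD0 : 0 ≤ D) (c : V → κ) (mq : κ → ℕ) (m : ℕ)
    (hm : ∑ a, mq a = m) (hm2 : 2 ≤ m) (u : ℝ) (hu : 0 < u) (r : ℝ) (hr : ∀ a, mq a ≤ r * u)
    (b : V → V → ℝ) (hb : ∀ x y, 0 ≤ b x y) (t θ : ℝ) (ht : 0 < t)
    (hB : r ^ 2 * (∑ x, ∑ y, b x y + Fintype.card V * t) ≤ t / 2)
    (hθ : ∀ T : Finset V, HasProf c mq T → ∑ x ∈ T, ∑ y ∈ T.erase x, b x y < t →
      ∀ S ⊆ T, ws w S ≤ θ * S.card)
    (β τ : ℝ) (hβ0 : 0 ≤ β) (hτ : 0 ≤ τ)
    (hβ : ∀ s : ℕ, 2 ≤ s → s ≤ m →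
      min (Real.exp (D * s ^ 2)) (Real.exp (θ * s)) * (m * (m / u)) ^ s ≤ β)
    (U : Finset V) (hU : ∀ a, u ≤ (U.filter fun x => c x = a).card) :
    Pr (qq w) (fun ω => ¬ ∃ T ⊆ U, Indep ω T ∧ HasProf c mq T) ≤
      Real.exp (-(τ / 2) + τ ^ 2 * ((m + 1) * β)) := by
  let J := Σ a : κ, Fin (mq a)
  have hJ : Fintype.card J = m := by simp [J, hm]
  let UU : J → Finset V := fun l => U.filter fun x => c x = l.1
  have hUU : ∀ l, (UU l).Nonempty := fun l => by
    rw [← Finset.card_pos]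
    exact_mod_cast hu.trans_le (hU l.1)
  let b' : V → V → ℝ := fun x y => if x = y then t else b x y
  have hb' : ∀ x y, 0 ≤ b' x y := fun x y => by
    simp only [b']; split_ifs; exacts [ht.le, hb x y]
  let Good := (Fintype.piFinset UU).filter
      fun v => ∑ l, ∑ l' ∈ univ.erase l, b' (v l) (v l') < t
  have hr0 : 0 ≤ r := by
    by_contra h
    have h1 : ∀ a, mq a = 0 := fun a => by
      have := hr a
      have h2 : r * u < 0 := mul_neg_of_neg_of_pos (not_le.1 h) hu
      have h3 : (0 : ℝ) ≤ mq a := Nat.cast_nonneg _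
      linarith
    simp [h1] at hm
    omega
  have hcard := good_card UU hUU b' hb' r t ht (by
    intro x
    rw [Fintype.sum_sigma]
    rw [Finset.sum_eq_single (c x)]
    · simp only [UU, Finset.sum_const, Finset.card_univ, Fintype.card_fin, nsmul_eq_mul]
      split_ifs
      · have h1 := hU (c x)
        rw [mul_one_div, div_le_iff₀ (hu.trans_le h1)]
        exact (hr _).trans (mul_le_mul_of_nonneg_left h1 hr0)
      · simpa using hr0
    · intro a _ ha
      refine Finset.sum_eq_zero fun i _ => if_neg ?_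
      simp only [UU, Finset.mem_filter, not_and]
      exact fun _ h => ha h.symm
    · simp) (by
    refine le_trans (mul_le_mul_of_nonneg_left ?_ (sq_nonneg r)) hB
    have : ∀ x, ∑ y, b' x y ≤ ∑ y, b x y + t := by
      intro x
      rw [← Finset.add_sum_erase univ _ (Finset.mem_univ x),
        ← Finset.add_sum_erase univ (b x) (Finset.mem_univ x)]
      have : ∑ y ∈ univ.erase x, b' x y = ∑ y ∈ univ.erase x, b x y :=
        Finset.sum_congr rfl fun y hy => if_neg (Finset.ne_of_mem_erase hy).symm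
      rw [this]
      simp only [b', if_true]
      linarith [hb x x]
    refine (Finset.sum_le_sum fun x _ => this x).trans ?_
    rw [Finset.sum_add_distrib]; simp)
  have hinj : ∀ v ∈ Good, Function.Injective v := by
    intro v hv l l' hll
    by_contra hne
    have h1 := (Finset.mem_filter.1 hv).2
    refine absurd h1 (not_lt.2 ?_)
    calc t = b' (v l) (v l') := by simp [b', hll]
      _ ≤ ∑ l' ∈ univ.erase l, b' (v l) (v l') :=
        Finset.single_le_sum (f := fun l' => b' (v l) (v l')) (fun _ _ => hb' _ _)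
          (Finset.mem_erase.2 ⟨Ne.symm hne, Finset.mem_univ _⟩)
      _ ≤ _ := Finset.single_le_sum (f := fun l => ∑ l' ∈ univ.erase l, b' (v l) (v l'))
          (fun _ _ => Finset.sum_nonneg fun _ _ => hb' _ _) (Finset.mem_univ l)
  have hmem : ∀ v ∈ Good, ∀ l, v l ∈ U ∧ c (v l) = l.1 := fun v hv l =>
    Finset.mem_filter.1 (Fintype.mem_piFinset.1 (Finset.mem_filter.1 hv).1 l)
  have hprof : ∀ v ∈ Good, HasProf c mq (univ.image v) := by
    intro v hv a
    rw [Finset.filter_image, Finset.card_image_of_injective _ (hinj v hv)]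
    have : (univ.filter fun l : J => c (v l) = a) =
        univ.map ⟨fun i : Fin (mq a) => (⟨a, i⟩ : J),
          sigma_mk_injective (β := fun a => Fin (mq a))⟩ := by
      ext ⟨a', i⟩
      simp only [Finset.mem_filter, Finset.mem_univ, true_and, (hmem v hv _).2, Finset.mem_map,
        Function.Embedding.coeFn_mk]
      constructor
      · rintro rfl; exact ⟨i, rfl⟩
      · rintro ⟨j, hj⟩; exact (congrArg Sigma.fst hj).symm
    rw [this]; simp
  refine le_trans (Pr_mono (isP_qq hw0) ?_) (trans_bound w hw0 hJ hm2 UU Good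
    (Finset.filter_subset _ _) hcard hinj
    (fun s => min (Real.exp (D * s ^ 2)) (Real.exp (θ * s)))
    (fun s => le_min (Real.exp_pos _).le (Real.exp_pos _).le) ?_ (m / u)
    (div_nonneg (Nat.cast_nonneg _) hu.le) ?_ β hβ0 hβ τ hτ)
  · intro ω h v hv hI
    refine h ⟨_, ?_, hI, hprof v hv⟩
    intro x hx
    obtain ⟨l, _, rfl⟩ := Finset.mem_image.1 hx
    exact (hmem v hv l).1
  · intro v hv S hS
    refine le_min (Real.exp_le_exp.2 ?_) (Real.exp_le_exp.2 (hθ _ (hprof v hv) ?_ S hS))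
    · have h1 := two_ws_le hs hD0 hD S
      have h2 : 0 ≤ D * (S.card : ℝ) ^ 2 := mul_nonneg hD0 (sq_nonneg _)
      linarith
    · have h1 := (Finset.mem_filter.1 hv).2
      rw [Finset.sum_image (fun a _ b _ h => hinj v hv h)]
      convert h1 using 2 with l _
      rw [← Finset.image_erase (hinj v hv), Finset.sum_image (fun a _ b _ h => hinj v hv h)]
      refine Finset.sum_congr rfl fun l' hl' => (if_neg ?_).symm
      exact fun h => Finset.ne_of_mem_erase hl' (hinj v hv h).symm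
  · intro l
    rw [div_mul_eq_mul_div, le_div_iff₀ hu]
    exact mul_le_mul_of_nonneg_left (hU l.1) (Nat.cast_nonneg _)

theorem profile_bound (w : V → V → ℝ) (hw0 : ∀ i j, 0 ≤ w i j) (hs : ∀ i j, w i j = w j i)
    (D : ℝ) (hD : ∀ i j, w i j ≤ D) (hD0 : 0 ≤ D) (c : V → κ) (mq : κ → ℕ) (m : ℕ)
    (hm : ∑ a, mq a = m) (hm2 : 2 ≤ m) (u : ℝ) (hu : 0 < u) (r : ℝ) (hr : ∀ a, mq a ≤ r * u)
    (b : V → V → ℝ) (hb : ∀ x y, 0 ≤ b x y) (t θ : ℝ) (ht : 0 < t)
    (hB : r ^ 2 * (∑ x, ∑ y, b x y + Fintype.card V * t) ≤ t / 2)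
    (hθ : ∀ T : Finset V, HasProf c mq T → ∑ x ∈ T, ∑ y ∈ T.erase x, b x y < t →
      ∀ S ⊆ T, ws w S ≤ θ * S.card)
    (β τ : ℝ) (hβ0 : 0 ≤ β) (hτ : 0 ≤ τ)
    (hβ : ∀ s : ℕ, 2 ≤ s → s ≤ m →
      min (Real.exp (D * s ^ 2)) (Real.exp (θ * s)) * (m * (m / u)) ^ s ≤ β) :
    Pr (qq w) (fun ω => ¬ Avail c mq u ω) ≤
      2 ^ Fintype.card V * Real.exp (-(τ / 2) + τ ^ 2 * ((m + 1) * β)) := by
  classical
  let 𝒰 : Finset (Finset V) := univ.filter fun U => ∀ a, u ≤ (U.filter fun x => c x = a).card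
  calc _ ≤ Pr (qq w) (fun ω => ∃ U ∈ 𝒰, ¬ ∃ T ⊆ U, Indep ω T ∧ HasProf c mq T) := by
        refine Pr_mono (isP_qq hw0) fun ω h => ?_
        by_contra h2
        refine h fun U hU => ?_
        by_contra h3
        exact h2 ⟨U, Finset.mem_filter.2 ⟨Finset.mem_univ _, hU⟩, h3⟩
    _ ≤ ∑ U ∈ 𝒰, Pr (qq w) (fun ω => ¬ ∃ T ⊆ U, Indep ω T ∧ HasProf c mq T) :=
        Pr_exists_le (isP_qq hw0) _ _
    _ ≤ ∑ _U ∈ 𝒰, Real.exp (-(τ / 2) + τ ^ 2 * ((m + 1) * β)) :=
        Finset.sum_le_sum fun U hU => profile_one w hw0 hs D hD hD0 c mq m hm hm2 u hu r hr b hb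
          t θ ht hB hθ β τ hβ0 hτ hβ U (Finset.mem_filter.1 hU).2
    _ ≤ _ := by
        rw [Finset.sum_const, nsmul_eq_mul]
        apply mul_le_mul_of_nonneg_right _ (Real.exp_pos _).le
        have : 𝒰.card ≤ 2 ^ Fintype.card V := by
          rw [← Fintype.card_finset]; exact Finset.card_le_univ _
        exact_mod_cast this

end Pool.Agent.Lib.MP_eaf82e_pr
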