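import Pool.Agent.Lib.MP_eaf82e_pr.Bern

set_option autoImplicit false
set_option linter.unusedSectionVars false
open Finset

namespace Pool.Agent.Lib.MP_eaf82e_pr

variable {V : Type*} [Fintype V] [LinearOrder V]

abbrev Edge (V : Type*) [LinearOrder V] := {p : V × V // p.1 < p.2}

def pairs (T : Finset V) : Finset (Edge V) := univ.filter fun e => e.1.1 ∈ T ∧ e.1.2 ∈ T

noncomputable def qq (w : V → V → ℝ) (e : Edge V) : ℝ := 1 - Real.exp (-w e.1.1 e.1.2)

noncomputable def ws (w : V → V → ℝ) (T : Finset V) : ℝ := ∑ e ∈ pairs T, w e.1.1 e.1.2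

def Indep (ω : Edge V → Bool) (T : Finset V) : Prop := ∀ e ∈ pairs T, ω e = false

lemma mem_pairs {T : Finset V} {e : Edge V} : e ∈ pairs T ↔ e.1.1 ∈ T ∧ e.1.2 ∈ T := by
  simp [pairs]

lemma pairs_inter (T T' : Finset V) : pairs T ∩ pairs T' = pairs (T ∩ T') := by
  ext e; simp only [mem_pairs, Finset.mem_inter]; tauto

lemma Indep.mono {ω : Edge V → Bool} {S T : Finset V} (h : Indep ω T) (hS : S ⊆ T) :
    Indep ω S := fun e he =>
  h e (mem_pairs.2 ⟨hS (mem_pairs.1 he).1, hS (mem_pairs.1 he).2⟩)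

lemma isP_qq {w : V → V → ℝ} (hw : ∀ i j, 0 ≤ w i j) : IsP (qq w) := by
  intro e
  unfold qq
  have h1 := Real.exp_pos (-w e.1.1 e.1.2)
  have h2 : Real.exp (-w e.1.1 e.1.2) ≤ 1 := Real.exp_le_one_iff.2 (by linarith [hw e.1.1 e.1.2])
  constructor <;> linarith

lemma pr_qq (w : V → V → ℝ) (A : Finset (Edge V)) :
    pr (qq w) A = Real.exp (-∑ e ∈ A, w e.1.1 e.1.2) := by
  unfold pr qq
  rw [← Finset.sum_neg_distrib, Real.exp_sum]
  simp

lemma pr_pairs (w : V → V → ℝ) (T : Finset V) : pr (qq w) (pairs T) = Real.exp (-ws w T) :=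
  pr_qq w _

lemma pr_pairs_union (w : V → V → ℝ) (T T' : Finset V) :
    pr (qq w) (pairs T ∪ pairs T') = Real.exp (-ws w T - ws w T' + ws w (T ∩ T')) := by
  rw [pr_qq]
  congr 1
  have := Finset.sum_union_inter (s₁ := pairs T) (s₂ := pairs T') (f := fun e => w e.1.1 e.1.2)
  rw [pairs_inter] at this
  unfold ws
  linarith

lemma pairs_nonempty {T : Finset V} : (pairs T).Nonempty ↔ 2 ≤ T.card := by
  constructor
  · rintro ⟨e, he⟩
    rw [mem_pairs] at he
    exact Finset.one_lt_card.2 ⟨_, he.1, _, he.2, e.2.ne⟩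
  · intro h
    obtain ⟨a, ha, b, hb, hab⟩ := Finset.one_lt_card.1 h
    rcases lt_or_gt_of_ne hab with h | h
    · exact ⟨⟨(a, b), h⟩, mem_pairs.2 ⟨ha, hb⟩⟩
    · exact ⟨⟨(b, a), h⟩, mem_pairs.2 ⟨hb, ha⟩⟩

lemma ws_eq (w : V → V → ℝ) (T : Finset V) :
    ws w T = ∑ i ∈ T, ∑ j ∈ T, if i < j then w i j else 0 := by
  rw [← Finset.sum_product', ← Finset.sum_filter]
  unfold ws
  apply Finset.sum_bij (fun e _ => e.1)
  · intro e he
    rw [mem_pairs] at he
    simp [he.1, he.2, e.2]
  · intro a _ b _ h; exact Subtype.ext h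
  · intro p hp
    simp only [Finset.mem_filter, Finset.mem_product] at hp
    exact ⟨⟨p, hp.2⟩, mem_pairs.2 hp.1, rfl⟩
  · intro e _; rfl

lemma two_ws {w : V → V → ℝ} (hs : ∀ i j, w i j = w j i) (T : Finset V) :
    2 * ws w T = ∑ i ∈ T, ∑ j ∈ T.erase i, w i j := by
  have h1 : ws w T = ∑ i ∈ T, ∑ j ∈ T, if j < i then w i j else 0 := by
    rw [ws_eq, Finset.sum_comm]
    exact Finset.sum_congr rfl fun i _ => Finset.sum_congr rfl fun j _ => by rw [hs]
  rw [two_mul]
  nth_rewrite 1 [ws_eq]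
  rw [h1, ← Finset.sum_add_distrib]
  refine Finset.sum_congr rfl fun i hi => ?_
  rw [← Finset.sum_add_distrib, ← Finset.add_sum_erase T _ hi]
  simp only [lt_self_iff_false, if_false, add_zero, zero_add]
  refine Finset.sum_congr rfl fun j hj => ?_
  rcases lt_or_gt_of_ne (Finset.ne_of_mem_erase hj) with h | h
  · simp [h, h.not_gt]
  · simp [h, h.not_gt]

lemma two_ws_le {w : V → V → ℝ} (hs : ∀ i j, w i j = w j i) {D : ℝ} (hD0 : 0 ≤ D)
    (hD : ∀ i j, w i j ≤ D) (T : Finset V) : 2 * ws w T ≤ D * (T.card : ℝ) ^ 2 := by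
  rw [two_ws hs]
  calc _ ≤ ∑ _i ∈ T, (T.card : ℝ) * D := by
        refine Finset.sum_le_sum fun i _ => ?_
        calc _ ≤ ∑ _j ∈ T.erase i, D := Finset.sum_le_sum fun j _ => hD i j
          _ = ((T.erase i).card : ℝ) * D := by simp
          _ ≤ _ := by
            gcongr
            exact Finset.erase_subset _ _
    _ = _ := by simp; ring

lemma overlap_bound {J : Type*} [Fintype J] [DecidableEq J] {m : ℕ} (hJ : Fintype.card J = m)
    (U : J → Finset V) (Good : Finset (J → V))
    (hG : Good ⊆ Fintype.piFinset U) (hinj : ∀ v ∈ Good, Function.Injective v)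
    (h : ℕ → ℝ) (h0 : ∀ s, 0 ≤ h s) (ρ : ℝ) (hρ0 : 0 ≤ ρ) (hρ : ∀ l, (m : ℝ) ≤ ρ * (U l).card)
    (β : ℝ) (hβ : ∀ s, s ≤ m → h s * (m * ρ) ^ s ≤ β) (T : Finset V) (hT : T.card ≤ m) :
    ∑ v ∈ Good, h (T ∩ univ.image v).card ≤ (∏ l, ((U l).card : ℝ)) * ((m + 1) * β) := by
  set N : ℝ := ∏ l, ((U l).card : ℝ) with hN
  have hN0 : 0 ≤ N := Finset.prod_nonneg fun l _ => Nat.cast_nonneg _
  let f : Finset (J) → J → V → ℝ := fun L l x =>
    if l ∈ L then (if x ∈ T then 1 else 0) else 1
  have hf0 : ∀ L l x, 0 ≤ f L l x := by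
    intro L l x; simp only [f]; split_ifs <;> norm_num
  have h1 : ∀ v ∈ Good, h (T ∩ univ.image v).card ≤
      ∑ L ∈ (univ : Finset (J)).powerset, h L.card * ∏ l, f L l (v l) := by
    intro v hv
    set L0 := univ.filter fun l => v l ∈ T with hL0
    have hc : (T ∩ univ.image v).card = L0.card := by
      rw [← Finset.card_image_of_injective L0 (hinj v hv)]
      congr 1
      ext x
      simp only [Finset.mem_inter, Finset.mem_image, Finset.mem_univ, true_and, hL0,
        Finset.mem_filter]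
      constructor
      · rintro ⟨hx, l, rfl⟩; exact ⟨l, hx, rfl⟩
      · rintro ⟨l, hx, rfl⟩; exact ⟨hx, l, rfl⟩
    have h2 : h L0.card = h L0.card * ∏ l, f L0 l (v l) := by
      rw [Finset.prod_eq_one, mul_one]
      intro l _
      simp only [f, hL0, Finset.mem_filter, Finset.mem_univ, true_and]
      split_ifs <;> rfl
    rw [hc, h2]
    exact Finset.single_le_sum (f := fun L => h L.card * ∏ l, f L l (v l))
      (fun L _ => mul_nonneg (h0 _) (Finset.prod_nonneg fun l _ => hf0 _ _ _))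
      (Finset.mem_powerset.2 (Finset.subset_univ _))
  have h2 : ∀ L : Finset (J), ∑ v ∈ Fintype.piFinset U, ∏ l, f L l (v l) ≤ N * ρ ^ L.card := by
    intro L
    rw [← Finset.prod_univ_sum]
    have h3 : N * ρ ^ L.card = ∏ l, ((U l).card : ℝ) * (if l ∈ L then ρ else 1) := by
      rw [Finset.prod_mul_distrib, Finset.prod_ite_mem, Finset.univ_inter, Finset.prod_const]
    rw [h3]
    apply Finset.prod_le_prod
    · intro l _; exact Finset.sum_nonneg fun x _ => hf0 _ _ _
    · intro l _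
      simp only [f]
      split_ifs with hl
      · rw [Finset.sum_boole]
        calc (((U l).filter (· ∈ T)).card : ℝ) ≤ T.card := by
              exact_mod_cast Finset.card_le_card fun x hx => (Finset.mem_filter.1 hx).2
          _ ≤ m := by exact_mod_cast hT
          _ ≤ _ := by rw [mul_comm]; exact hρ l
      · simp
  calc _ ≤ ∑ v ∈ Good, ∑ L ∈ (univ : Finset (J)).powerset, h L.card * ∏ l, f L l (v l) :=
        Finset.sum_le_sum h1
    _ ≤ ∑ v ∈ Fintype.piFinset U,
          ∑ L ∈ (univ : Finset (J)).powerset, h L.card * ∏ l, f L l (v l) :=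
        Finset.sum_le_sum_of_subset_of_nonneg hG fun v _ _ => Finset.sum_nonneg fun L _ =>
          mul_nonneg (h0 _) (Finset.prod_nonneg fun l _ => hf0 _ _ _)
    _ = ∑ L ∈ (univ : Finset (J)).powerset,
          h L.card * ∑ v ∈ Fintype.piFinset U, ∏ l, f L l (v l) := by
        rw [Finset.sum_comm]; simp_rw [Finset.mul_sum]
    _ ≤ ∑ L ∈ (univ : Finset (J)).powerset, N * (h L.card * ρ ^ L.card) := by
        refine Finset.sum_le_sum fun L _ => ?_
        have := mul_le_mul_of_nonneg_left (h2 L) (h0 L.card)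
        linarith
    _ = N * ∑ s ∈ Finset.range (m + 1), (m.choose s : ℝ) * (h s * ρ ^ s) := by
        rw [← Finset.mul_sum, Finset.sum_powerset_apply_card (fun s => h s * ρ ^ s)]
        simp [hJ]
    _ ≤ N * ∑ _s ∈ Finset.range (m + 1), β := by
        apply mul_le_mul_of_nonneg_left _ hN0
        refine Finset.sum_le_sum fun s hs => ?_
        refine le_trans ?_ (hβ s (by simpa [Nat.lt_succ_iff] using hs))
        have : (m.choose s : ℝ) ≤ (m : ℝ) ^ s := by exact_mod_cast Nat.choose_le_pow m s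
        have h4 := mul_le_mul_of_nonneg_right this (mul_nonneg (h0 s) (pow_nonneg hρ0 s))
        rw [mul_pow]; linarith
    _ = _ := by simp

theorem trans_bound (w : V → V → ℝ) (hw0 : ∀ i j, 0 ≤ w i j)
    {J : Type*} [Fintype J] [DecidableEq J] {m : ℕ} (hJm : Fintype.card J = m) (hm : 2 ≤ m)
    (U : J → Finset V) (Good : Finset (J → V))
    (hG : Good ⊆ Fintype.piFinset U) (hcard : ∏ l, ((U l).card : ℝ) ≤ 2 * Good.card)
    (hinj : ∀ v ∈ Good, Function.Injective v)
    (g : ℕ → ℝ) (hg0 : ∀ s, 0 ≤ g s)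
    (hg : ∀ v ∈ Good, ∀ S ⊆ univ.image v, Real.exp (ws w S) ≤ g S.card)
    (ρ : ℝ) (hρ0 : 0 ≤ ρ) (hρ : ∀ l, (m : ℝ) ≤ ρ * (U l).card)
    (β : ℝ) (hβ0 : 0 ≤ β) (hβ : ∀ s, 2 ≤ s → s ≤ m → g s * (m * ρ) ^ s ≤ β) (τ : ℝ) (hτ : 0 ≤ τ) :
    Pr (qq w) (fun ω => ∀ v ∈ Good, ¬ Indep ω (univ.image v)) ≤
      Real.exp (-(τ / 2) + τ ^ 2 * ((m + 1) * β)) := by
  set N : ℝ := ∏ l, ((U l).card : ℝ) with hN
  have hNpos : 0 < N := by
    refine Finset.prod_pos fun l _ => ?_
    have h1 := hρ l
    have h2 : (2 : ℝ) ≤ m := by exact_mod_cast hm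
    by_contra h
    have : ((U l).card : ℝ) = 0 := le_antisymm (not_lt.1 h) (Nat.cast_nonneg _)
    rw [this] at h1
    linarith
  have hcardT : ∀ v ∈ Good, (univ.image v).card = m := fun v hv => by
    rw [Finset.card_image_of_injective _ (hinj v hv)]; simp [hJm]
  have hGN : (Good.card : ℝ) ≤ N := by
    have := Finset.card_le_card hG
    rw [Fintype.card_piFinset] at this
    rw [hN]; exact_mod_cast this
  clear_value N
  have hJ := janson (isP_qq hw0) Good (fun v => pairs (univ.image v))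
    (fun v hv => pairs_nonempty.2 (by rw [hcardT v hv]; exact hm))
    (fun v => τ / N * Real.exp (ws w (univ.image v)))
    (fun v => mul_nonneg (div_nonneg hτ hNpos.le) (Real.exp_pos _).le)
  refine hJ.trans ?_
  apply Real.exp_le_exp.2
  have h1 : τ / 2 ≤ ∑ v ∈ Good, τ / N * Real.exp (ws w (univ.image v)) *
      pr (qq w) (pairs (univ.image v)) := by
    have : ∀ v ∈ Good, τ / N * Real.exp (ws w (univ.image v)) *
        pr (qq w) (pairs (univ.image v)) = τ / N := by
      intro v _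
      rw [pr_pairs, mul_assoc, ← Real.exp_add]; simp
    rw [Finset.sum_congr rfl this, Finset.sum_const, nsmul_eq_mul, ← mul_div_assoc,
      div_le_div_iff₀ (by norm_num) hNpos]
    nlinarith
  let h : ℕ → ℝ := fun s => if 2 ≤ s then g s else 0
  have h0 : ∀ s, 0 ≤ h s := fun s => by simp only [h]; split_ifs; exacts [hg0 s, le_rfl]
  have hβ' : ∀ s, s ≤ m → h s * (m * ρ) ^ s ≤ β := fun s hs => by
    simp only [h]; split_ifs with h2
    · exact hβ s h2 hs
    · simpa using hβ0
  have h2 : ∑ k ∈ Good, ∑ j ∈ Good,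
      (if (pairs (univ.image k) ∩ pairs (univ.image j)).Nonempty then
        τ / N * Real.exp (ws w (univ.image k)) * (τ / N * Real.exp (ws w (univ.image j))) *
          pr (qq w) (pairs (univ.image k) ∪ pairs (univ.image j)) else 0) ≤
      τ ^ 2 * ((m + 1) * β) := by
    calc _ ≤ ∑ _k ∈ Good, (τ / N) ^ 2 * (N * ((m + 1) * β)) := by
          refine Finset.sum_le_sum fun k hk => ?_
          have h5 := overlap_bound hJm U Good hG hinj h h0 ρ hρ0 hρ β hβ' (univ.image k)
              (hcardT k hk).le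
          rw [← hN] at h5
          refine le_trans ?_ (mul_le_mul_of_nonneg_left h5 (sq_nonneg (τ / N)))
          rw [Finset.mul_sum]
          refine Finset.sum_le_sum fun j _ => ?_
          rw [pairs_inter]
          split_ifs with h3
          · rw [pairs_nonempty] at h3
            have h4 : h (univ.image k ∩ univ.image j).card =
                g (univ.image k ∩ univ.image j).card := if_pos h3
            rw [h4, pr_pairs_union]
            refine le_trans (le_of_eq ?_) (mul_le_mul_of_nonneg_left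
              (hg k hk _ Finset.inter_subset_left) (sq_nonneg (τ / N)))
            rw [show ∀ a b c d : ℝ, a * b * (a * c) * d = a ^ 2 * (b * c * d) by intros; ring,
              ← Real.exp_add, ← Real.exp_add]
            congr 2; ring
          · exact mul_nonneg (sq_nonneg _) (h0 _)
      _ = (Good.card : ℝ) / N * (τ ^ 2 * ((m + 1) * β)) := by
          rw [Finset.sum_const, nsmul_eq_mul]; field_simp
      _ ≤ _ := by
          apply mul_le_of_le_one_left (by positivity)
          rwa [div_le_one hNpos]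
  linarith

end Pool.Agent.Lib.MP_eaf82e_pr
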