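import Pool.Agent.Lib.MP_eaf82e_pr.UpperFin

set_option autoImplicit false
set_option linter.unusedSectionVars false
open Finset Filter Topology

namespace Pool.Agent.Lib.MP_eaf82e_pr

variable {κ : Type*} [Fintype κ] [DecidableEq κ]

lemma count_det (D ε : ℝ) (hD0 : 0 < D) (hε : 0 < ε) (hε2 : ε ≤ 1 / 2)
    (hK : 0 < Fintype.card κ) {k : ℕ} (α φ : Fin k → ℝ) (ν : Fin k → κ → ℝ)
    (hα0 : ∀ i, 0 ≤ α i) (hα1 : ∑ i, α i = 1) (hφ0 : ∀ i, 0 ≤ φ i) (hφD : ∀ i, φ i ≤ D)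
    (hν0 : ∀ i a, 0 ≤ ν i a) (hν1 : ∀ i, ∑ a, ν i a = 1)
    (hmix : ∀ a, ∑ i, α i * ν i a = 1 / Fintype.card κ) :
    ∀ᶠ n : ℕ in atTop, ∀ (ω : Edge (Fin n) → Bool) (c : Fin n → κ),
      (∀ a, (1 - ε / 2) * n / Fintype.card κ ≤ (univ.filter fun x => c x = a).card) →
      (∀ i, 0 < α i → Avail c (fun a => ⌊(1 - ε) * 2 * Real.log n / (φ i + ε) * ν i a⌋₊)
        (ε / 2 * n / Fintype.card κ) ω) →
      Avail (fun _ => ()) (fun _ => ⌊Real.log n / D⌋₊) (n / Real.log n ^ 2) ω →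
      (chi ω : ℝ) ≤ (∑ i, α i * φ i + ε * (2 + 8 * D)) * n / (2 * Real.log n) := by
  obtain ⟨K, hKdef⟩ : ∃ K : ℝ, K = Fintype.card κ := ⟨_, rfl⟩
  have hK0 : 0 < K := by rw [hKdef]; exact_mod_cast hK
  rw [← hKdef] at hmix ⊢
  filter_upwards [ev_log (K * (D + 1)), ev_log (2 * D), ev_log (2 / ε),
    ev_log (2 * K * (D + 1) / ε), ev_polylog (4 * k / ε ^ 2) 1, eventually_gt_atTop 0]
    with n h1 h2 h3 h4 h5 h0
  intro ω c hc hav hav'
  obtain ⟨l, hl⟩ : ∃ l : ℝ, l = Real.log n := ⟨_, rfl⟩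
  rw [← hl] at h1 h2 h3 h4 h5 hav hav' ⊢
  have hl0 : 0 < l := by linarith
  have hn0 : (0 : ℝ) < n := by exact_mod_cast h0
  obtain ⟨M, hM⟩ : ∃ M : Fin k → ℝ, M = fun i => (1 - ε) * 2 * l / (φ i + ε) := ⟨_, rfl⟩
  have hM1 : ∀ i, M i * (φ i + ε) = (1 - ε) * 2 * l := fun i => by
    have := hφ0 i
    rw [hM]; field_simp
  have hM0 : ∀ i, 0 < M i := fun i => by
    rw [hM]; exact div_pos (mul_pos (by linarith) hl0) (by linarith [hφ0 i])
  have hM2 : ∀ i, M i ≤ 2 / ε * l := fun i => by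
    rw [div_mul_eq_mul_div, le_div_iff₀ hε]
    nlinarith [mul_nonneg (hM0 i).le (hφ0 i), mul_pos hε hl0, hM1 i]
  have hM3 : ∀ i, l ≤ M i * (D + 1) := fun i => by
    nlinarith [mul_le_mul_of_nonneg_left (show φ i + ε ≤ D + 1 by linarith [hφD i]) (hM0 i).le,
      mul_nonneg (show 0 ≤ 1 / 2 - ε by linarith) hl0.le, hM1 i]
  have hM4 : ∀ i, K ≤ M i := fun i =>
    le_of_mul_le_mul_right (h1.trans (hM3 i)) (by linarith)
  obtain ⟨x, hx⟩ : ∃ x : Fin k → ℝ, x = fun i => (1 - ε) * α i * n / M i := ⟨_, rfl⟩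
  have hx1 : ∀ i, x i * M i = (1 - ε) * α i * n := fun i => by
    have := hM0 i
    rw [hx]; field_simp
  have hx0 : ∀ i, 0 ≤ x i := fun i => by
    rw [hx]
    exact div_nonneg (mul_nonneg (mul_nonneg (by linarith) (hα0 i)) hn0.le) (hM0 i).le
  have hN1 : ∀ i, (⌊x i⌋₊ : ℝ) ≤ x i := fun i => Nat.floor_le (hx0 i)
  have hN2 : ∀ i, x i - 1 ≤ (⌊x i⌋₊ : ℝ) := fun i => (Nat.sub_one_lt_floor _).le
  have hmq : ∀ i a, (⌊M i * ν i a⌋₊ : ℝ) ≤ M i * ν i a := fun i a =>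
    Nat.floor_le (mul_nonneg (hM0 i).le (hν0 i a))
  obtain ⟨m, hm⟩ : ∃ m : ℕ, m = ⌊l / D⌋₊ := ⟨_, rfl⟩
  rw [← hm] at hav'
  have hm2 : l / (2 * D) ≤ m := by
    have h6 : l / D - 1 ≤ m := hm ▸ (Nat.sub_one_lt_floor _).le
    have h7 : 2 ≤ l / D := by rw [le_div_iff₀ hD0]; exact h2
    have h8 : l / (2 * D) = l / D / 2 := by field_simp
    linarith
  have hm0 : (0 : ℝ) < m := lt_of_lt_of_le (by positivity) hm2
  have key := chi_le_of_avail (ω := ω) c (fun i => ⌊x i⌋₊) (fun i a => ⌊M i * ν i a⌋₊)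
    (ε / 2 * n / K) (by
      intro i hi
      have h6 : 0 < α i := by
        rcases (hα0 i).eq_or_lt with h | h
        · exfalso
          have h7 : x i = 0 := by rw [hx]; simp [← h]
          simp [h7] at hi
        · exact h
      have := hav i h6
      rw [hM]; exact this) (by
      intro a
      refine le_trans ?_ (hc a)
      push_cast
      have : ∑ i, (⌊x i⌋₊ : ℝ) * (⌊M i * ν i a⌋₊ : ℝ) ≤ (1 - ε) * n * (1 / K) := by
        rw [← hmix a, Finset.mul_sum]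
        refine Finset.sum_le_sum fun i _ => ?_
        calc _ ≤ x i * (M i * ν i a) :=
              mul_le_mul (hN1 i) (hmq i a) (Nat.cast_nonneg _) (hx0 i)
          _ = _ := by rw [← mul_assoc, hx1]; ring
      have h6 : (1 - ε / 2) * n / K = (1 - ε) * n * (1 / K) + ε / 2 * n / K := by
        field_simp; ring
      linarith) (m := m) (by exact_mod_cast hm0) hav'
  rw [Fintype.card_fin, max_eq_left (by positivity)] at key
  have hA : ∑ i, (⌊x i⌋₊ : ℝ) ≤ (∑ i, α i * φ i + ε) * n / (2 * l) := by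
    have : (∑ i, α i * φ i + ε) * n / (2 * l) = ∑ i, α i * (φ i + ε) * n / (2 * l) := by
      rw [← Finset.sum_div, ← Finset.sum_mul]
      simp_rw [mul_add]
      rw [Finset.sum_add_distrib, ← Finset.sum_mul, hα1, one_mul]
    rw [this]
    refine Finset.sum_le_sum fun i _ => (hN1 i).trans (le_of_eq ?_)
    have h6 := hφ0 i
    have h7 : 1 - ε ≠ 0 := by linarith
    rw [hx, hM]; field_simp
  have hB : (1 - 2 * ε) * n ≤ ∑ i, (⌊x i⌋₊ : ℝ) * ∑ a, (⌊M i * ν i a⌋₊ : ℝ) := by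
    have h6 : ∀ i, (1 - ε) * α i * n - ε / 2 * α i * n - 2 / ε * l ≤
        (⌊x i⌋₊ : ℝ) * ∑ a, (⌊M i * ν i a⌋₊ : ℝ) := by
      intro i
      have h7 := floor_sum_ge (M i) (ν i) (hν1 i)
      rw [← hKdef] at h7
      have h8 : K * x i ≤ ε / 2 * α i * n := by
        have h9 : 2 * K ≤ ε * M i := by
          rw [div_le_iff₀ hε] at h4
          have := mul_le_mul_of_nonneg_right (hM3 i) hε.le
          have h10 : 2 * K * (D + 1) ≤ ε * M i * (D + 1) := by linarith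
          exact le_of_mul_le_mul_right h10 (by linarith)
        have h10 := mul_le_mul_of_nonneg_right h9 (hx0 i)
        have h11 : 0 ≤ ε * (ε * α i * n) := by have := hα0 i; positivity
        have h12 : ε * M i * x i = ε * ((1 - ε) * α i * n) := by rw [← hx1]; ring
        nlinarith
      calc _ ≤ (x i - 1) * (M i - K) := by nlinarith [hx1 i, hM2 i]
        _ ≤ (⌊x i⌋₊ : ℝ) * (M i - K) := mul_le_mul_of_nonneg_right (hN2 i) (by linarith [hM4 i])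
        _ ≤ _ := mul_le_mul_of_nonneg_left h7 (Nat.cast_nonneg _)
    refine le_trans ?_ (Finset.sum_le_sum fun i _ => h6 i)
    rw [Finset.sum_sub_distrib, Finset.sum_sub_distrib, ← Finset.sum_mul, ← Finset.sum_mul,
      ← Finset.mul_sum, ← Finset.mul_sum, hα1]
    simp only [Finset.sum_const, Finset.card_univ, Fintype.card_fin, nsmul_eq_mul]
    have h7 : (k : ℝ) * (2 / ε * l) ≤ ε / 2 * n := by
      calc _ = ε / 2 * (4 * k / ε ^ 2 * l ^ 1) := by field_simp; ring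
        _ ≤ _ := by gcongr
    linarith
  have hC : ((n : ℝ) - ∑ i, (⌊x i⌋₊ : ℝ) * ∑ a, (⌊M i * ν i a⌋₊ : ℝ)) / m ≤
      ε * (8 * D) * n / (2 * l) := by
    calc _ ≤ (2 * ε * n) / m := by gcongr; linarith
      _ ≤ (2 * ε * n) / (l / (2 * D)) := by gcongr
      _ = _ := by field_simp; ring
  have hD : (n : ℝ) / l ^ 2 ≤ ε * n / (2 * l) := by
    rw [div_le_div_iff₀ (by positivity) (by positivity)]
    rw [div_le_iff₀ hε] at h3
    have := mul_le_mul_of_nonneg_left h3 (mul_pos hn0 hl0).le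
    nlinarith
  have hE : (∑ i, α i * φ i + ε * (2 + 8 * D)) * n / (2 * l) =
      (∑ i, α i * φ i + ε) * n / (2 * l) + ε * (8 * D) * n / (2 * l) + ε * n / (2 * l) := by
    ring
  linarith

theorem upper_fin (D ε δ α₀ : ℝ) (hD0 : 0 < D) (hε : 0 < ε) (hε2 : ε ≤ 1 / 2) (hδ : 0 < δ)
    (hα : 0 < α₀) (hK : 0 < Fintype.card κ) {k : ℕ} (α φ : Fin k → ℝ) (ν : Fin k → κ → ℝ)
    (hα0 : ∀ i, 0 ≤ α i) (hα1 : ∑ i, α i = 1) (hα2 : ∀ i, 0 < α i → α₀ ≤ α i)
    (hφ0 : ∀ i, 0 ≤ φ i) (hφD : ∀ i, φ i ≤ D)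
    (hν0 : ∀ i a, 0 ≤ ν i a) (hν1 : ∀ i, ∑ a, ν i a = 1)
    (hmix : ∀ a, ∑ i, α i * ν i a = 1 / Fintype.card κ)
    (wb : κ → κ → ℝ) (hwb : ∀ a b, 0 ≤ wb a b)
    (hν : ∀ i, 0 < α i → ∀ t : κ → ℝ, IsP t →
      ∑ a, ∑ b, t a * t b * (ν i a * ν i b * wb a b) ≤
        φ i * ∑ a, t a * ν i a + ε ^ 2 / (2 * D)) :
    ∀ᶠ n : ℕ in atTop, ∀ w : Fin n → Fin n → ℝ, (∀ i j, 0 ≤ w i j) → (∀ i j, w i j = w j i) →
      (∀ i j, w i j ≤ D) → ∀ c : Fin n → κ,
      (∀ a, (1 - ε / 2) * n / Fintype.card κ ≤ (univ.filter fun x => c x = a).card) →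
      ∑ x, ∑ y, |w x y - wb (c x) (c y)| ≤ α₀ ^ 2 * ε ^ 4 / (32 * D) * n ^ 2 →
      Pr (qq w) (fun ω => (∑ i, α i * φ i + ε * (2 + 8 * D)) * n / (2 * Real.log n) < chi ω)
        ≤ δ := by
  have hδ' : 0 < δ / (k + 1) := by positivity
  have h1 : ∀ i, ∀ᶠ n : ℕ in atTop, 0 < α i → ∀ w : Fin n → Fin n → ℝ, (∀ i j, 0 ≤ w i j) →
      (∀ i j, w i j = w j i) → (∀ i j, w i j ≤ D) → ∀ c : Fin n → κ,
      ∑ x, ∑ y, |w x y - wb (c x) (c y)| ≤ α₀ ^ 2 * ε ^ 4 / (32 * D) * n ^ 2 →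
      Pr (qq w) (fun ω => ¬ Avail c (fun a => ⌊(1 - ε) * 2 * Real.log n / (φ i + ε) * ν i a⌋₊)
        (ε / 2 * n / Fintype.card κ) ω) ≤ δ / (k + 1) := by
    intro i
    by_cases hi : 0 < α i
    · have := type_avail D ε _ α₀ (φ i) hD0 hε hε2 hδ' hα (hφ0 i) (hφD i) hK wb hwb (ν i) (hν0 i)
        (hν1 i) (fun a => by
          rw [← hmix a]
          refine (mul_le_mul_of_nonneg_right (hα2 i hi) (hν0 i a)).trans ?_
          exact Finset.single_le_sum (f := fun i => α i * ν i a)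
            (fun j _ => mul_nonneg (hα0 j) (hν0 j a)) (mem_univ i)) (hν i hi)
      filter_upwards [this] with n hn _ using hn
    · exact Eventually.of_forall fun n h => absurd h hi
  filter_upwards [eventually_all.2 h1, leftover D ε _ hD0 hε hε2 hδ',
    count_det D ε hD0 hε hε2 hK α φ ν hα0 hα1 hφ0 hφD hν0 hν1 hmix] with n h2 h3 h4
  intro w hw0 hs hD c hc hB
  classical
  have hq := isP_qq hw0
  calc _ ≤ Pr (qq w) (fun ω => (∃ i ∈ univ.filter (fun i => 0 < α i), ¬ Avail c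
            (fun a => ⌊(1 - ε) * 2 * Real.log n / (φ i + ε) * ν i a⌋₊)
            (ε / 2 * n / Fintype.card κ) ω) ∨
          ¬ Avail (fun _ => ()) (fun _ => ⌊Real.log n / D⌋₊) (n / Real.log n ^ 2) ω) := by
        refine Pr_mono hq fun ω hω => ?_
        by_contra h5
        rw [not_or, not_not] at h5
        refine absurd hω (not_lt.2 (h4 ω c hc (fun i hi => ?_) h5.2))
        by_contra h6
        exact h5.1 ⟨i, by simpa using hi, h6⟩
    _ ≤ ∑ _i ∈ univ.filter (fun i => 0 < α i), δ / (k + 1) + δ / (k + 1) := by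
        refine (Pr_or_le hq _ _).trans (add_le_add ?_ (h3 w hw0 hs hD))
        refine (Pr_exists_le hq _ _).trans (Finset.sum_le_sum fun i hi => ?_)
        exact h2 i (Finset.mem_filter.1 hi).2 w hw0 hs hD c hB
    _ ≤ k * (δ / (k + 1)) + δ / (k + 1) := by
        rw [Finset.sum_const, nsmul_eq_mul]
        gcongr
        exact (Finset.card_le_univ _).trans (by simp)
    _ = δ := by field_simp

end Pool.Agent.Lib.MP_eaf82e_pr
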