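import Pool.Agent.Lib.MP_eaf82e_pr.Phi
import Pool.Agent.Lib.MP_eaf82e_pr.UpperFin2

set_option autoImplicit false
set_option linter.unusedSectionVars false
open MeasureTheory Filter Topology Function
open scoped ENNReal

namespace Pool.Agent.Lib.MP_eaf82e_pr

noncomputable def Pn (n : ℕ) : Measure (Fin n → ℝ) := Measure.pi fun _ => lam

instance (n : ℕ) : IsProbabilityMeasure (Pn n) := by unfold Pn; infer_instance

def wx (w : ℝ → ℝ → ℝ) {n : ℕ} (x : Fin n → ℝ) : Fin n → Fin n → ℝ := fun i j => w (x i) (x j)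

noncomputable def prob (w : ℝ → ℝ → ℝ) (n : ℕ) (E : (Edge (Fin n) → Bool) → Prop) : ℝ :=
  ∫ x, Pr (qq (wx w x)) E ∂Pn n

lemma bd_pair {n : ℕ} {f : ℝ → ℝ → ℝ} (hf : Bd (uncurry f)) (i j : Fin n) :
    Bd fun x : Fin n → ℝ => f (x i) (x j) :=
  hf.comp (g := fun x : Fin n → ℝ => (x i, x j)) (by fun_prop)

lemma int_pair {n : ℕ} {f : ℝ → ℝ → ℝ} (hf : Bd (uncurry f)) {i j : Fin n} (hij : i ≠ j) :
    ∫ x, f (x i) (x j) ∂Pn n = II f lam lam := by
  have h := Measure.infinitePi_map_eval_prod (P := fun _ : Fin n => lam) hij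
  rw [Measure.infinitePi_eq_pi] at h
  rw [II_eq_prod hf, ← h]
  exact (integral_map (f := uncurry f) (φ := fun x : Fin n → ℝ => (x i, x j)) (by fun_prop)
    hf.meas.aestronglyMeasurable).symm

lemma int_single {n : ℕ} {f : ℝ → ℝ} (hf : Bd f) (i : Fin n) :
    ∫ x, f (x i) ∂Pn n = ∫ y, f y ∂lam := by
  have h := (measurePreserving_eval (fun _ : Fin n => lam) i).map_eq
  rw [← h, integral_map (measurable_pi_apply i).aemeasurable hf.meas.aestronglyMeasurable]
  rfl

variable {w : ℝ → ℝ → ℝ} {c D : ℝ}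

lemma Kern.isP (h : Kern w c D) {n : ℕ} (x : Fin n → ℝ) : IsP (qq (wx w x)) :=
  isP_qq fun _ _ => h.nonneg _ _

lemma Kern.bd_wt (h : Kern w c D) {n : ℕ} (ω : Edge (Fin n) → Bool) :
    Bd fun x : Fin n → ℝ => wt (qq (wx w x)) ω := by
  refine Bd.prod _ fun e _ => ?_
  have h1 : Bd fun x : Fin n → ℝ => qq (wx w x) e :=
    Bd.of_le (measurable_const.sub (bd_pair h.bd e.1.1 e.1.2).meas.neg.exp) fun x => h.isP x e
  split_ifs
  · exact h1
  · exact (Bd.const 1).sub h1

lemma Kern.bd_Ex (h : Kern w c D) {n : ℕ} (f : (Fin n → ℝ) → (Edge (Fin n) → Bool) → ℝ)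
    (hf : ∀ ω, Bd fun x => f x ω) : Bd fun x : Fin n → ℝ => Ex (qq (wx w x)) (f x) :=
  Bd.sum _ fun ω _ => (h.bd_wt ω).mul (hf ω)

lemma Kern.bd_Pr (h : Kern w c D) {n : ℕ} (E : (Edge (Fin n) → Bool) → Prop) :
    Bd fun x : Fin n → ℝ => Pr (qq (wx w x)) E :=
  h.bd_Ex (fun _ ω => one (E ω)) fun _ => Bd.const _

lemma int_double_sum {n : ℕ} {f : ℝ → ℝ → ℝ} (hf : Bd (uncurry f)) {η B : ℝ} (hη0 : 0 ≤ η)
    (hη : II f lam lam ≤ η) (hB : ∀ x, f x x ≤ B) :
    ∫ x, ∑ i, ∑ j, f (x i) (x j) ∂Pn n ≤ n ^ 2 * η + n * B := by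
  rw [integral_finsetSum _ fun i _ => (Bd.sum _ fun j _ => bd_pair hf i j).integrable _]
  calc _ ≤ ∑ _i : Fin n, (n * η + B) := by
        refine Finset.sum_le_sum fun i _ => ?_
        rw [integral_finsetSum _ fun j _ => (bd_pair hf i j).integrable _,
          ← Finset.sum_erase_add _ _ (Finset.mem_univ i)]
        apply add_le_add
        · calc _ ≤ ∑ _j ∈ Finset.univ.erase i, η := Finset.sum_le_sum fun j hj => by
                rw [int_pair hf (Finset.ne_of_mem_erase hj).symm]; exact hη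
            _ ≤ ∑ _j : Fin n, η := Finset.sum_le_sum_of_subset_of_nonneg
                (Finset.erase_subset _ _) fun _ _ _ => hη0
            _ = _ := by simp
        · calc _ ≤ ∫ _x, B ∂Pn n :=
                integral_mono ((bd_pair hf i i).integrable _) (integrable_const _) fun x => hB _
            _ = B := by simp
    _ = _ := by simp; ring

lemma count_var {K : ℕ} {cell : ℝ → Fin K} (hc : Measurable cell)
    (hcell : ∀ a, lam.real (cell ⁻¹' {a}) = 1 / K) (n : ℕ) (a : Fin K) :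
    (Bd fun x : Fin n → ℝ =>
      (((Finset.univ.filter fun i => cell (x i) = a).card : ℝ) - n / K) ^ 2) ∧
    ∫ x, (((Finset.univ.filter fun i => cell (x i) = a).card : ℝ) - n / K) ^ 2 ∂Pn n ≤ n := by
  let F : Fin K → ℝ := fun b => (if b = a then 1 else 0) - 1 / K
  have hK : (1 : ℝ) ≤ K := by exact_mod_cast a.pos
  have h1 : ∀ x : Fin n → ℝ, (((Finset.univ.filter fun i => cell (x i) = a).card : ℝ) - n / K) ^ 2
      = ∑ i, ∑ j, F (cell (x i)) * F (cell (x j)) := by
    intro x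
    rw [← Finset.sum_mul_sum, sq]
    have : ∑ i, F (cell (x i)) = ((Finset.univ.filter fun i => cell (x i) = a).card : ℝ) - n / K := by
      simp only [F, Finset.sum_sub_distrib, Finset.sum_boole]
      simp [div_eq_mul_inv]
    rw [this]
  simp_rw [h1]
  have hb := bd_cell hc (fun a b => F a * F b)
  refine ⟨Bd.sum _ fun i _ => Bd.sum _ fun j _ => bd_pair hb i j, ?_⟩
  have h2 := int_double_sum (n := n) hb (η := 0) (B := 1) le_rfl (by
    rw [II_cell hc lam lam (fun a b => F a * F b)]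
    simp_rw [hcell]
    have h3 : ∑ b, F b = 0 := by
      simp only [F, Finset.sum_sub_distrib]
      simp
      field_simp
      ring
    simp_rw [← Finset.mul_sum, h3]
    simp) (fun x => by
    have h4 : 1 / (K : ℝ) ≤ 1 := by rw [div_le_one (by linarith)]; exact hK
    have h5 : 0 ≤ 1 / (K : ℝ) := by positivity
    simp only [F]
    split_ifs <;> nlinarith)
  simpa using h2

theorem Kern.upper (h : Kern w c D) {ε δ : ℝ} (hε : 0 < ε) (hδ : 0 < δ) :
    ∀ᶠ n : ℕ in atTop,
      prob w n (fun ω => (Phi w + ε) * n / (2 * Real.log n) < chi ω) ≤ δ := by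
  have hD := h.Dpos
  obtain ⟨e, he0, he1, he2⟩ : ∃ e : ℝ, 0 < e ∧ e ≤ 1 / 2 ∧ e * (3 + 8 * D) ≤ ε :=
    ⟨min (1 / 2) (ε / (3 + 8 * D)), lt_min (by norm_num) (by positivity), min_le_left _ _, by
      rw [← le_div_iff₀ (by positivity)]; exact min_le_right _ _⟩
  obtain ⟨k, ν, α, hd, hsum⟩ := exists_dec w he0
  have hprob := hd.1
  obtain ⟨α₀, hα0, hα1⟩ : ∃ α₀ : ℝ, 0 < α₀ ∧ ∀ i, 0 < α i → α₀ ≤ α i := by
    rcases (Finset.univ.filter fun i => 0 < α i).eq_empty_or_nonempty with h0 | h0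
    · refine ⟨1, one_pos, fun i hi => ?_⟩
      exact absurd (Finset.mem_filter.2 ⟨Finset.mem_univ i, hi⟩) (by rw [h0]; simp)
    · obtain ⟨i, hi, hmin⟩ := Finset.exists_min_image _ α h0
      exact ⟨α i, (Finset.mem_filter.1 hi).2, fun j hj => hmin j (by simpa using hj)⟩
  obtain ⟨η₃, hη₃⟩ : ∃ η₃ : ℝ, η₃ = α₀ ^ 2 * e ^ 4 / (32 * D) := ⟨_, rfl⟩
  have hη₃0 : 0 < η₃ := by rw [hη₃]; positivity
  obtain ⟨η, hη0, hη1, hη2⟩ : ∃ η : ℝ, 0 < η ∧ η ≤ α₀ ^ 2 * e ^ 2 / (4 * D) ∧ η ≤ η₃ * δ / 4 :=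
    ⟨min _ _, lt_min (by positivity) (by positivity), min_le_left _ _, min_le_right _ _⟩
  obtain ⟨K, cell, wb, hK, hK0, hc, hcell, hwb, herr⟩ :=
    block_approx w h.meas D h.nonneg h.hi η hη0 (4 * D ^ 2 / (α₀ * e ^ 2))
  have hK' : (0 : ℝ) < K := by exact_mod_cast hK
  have key := upper_fin (κ := Fin K) D e (δ / 4) α₀ hD he0 he1 (by positivity) hα0 (by simpa using hK)
    α (fun i => phi w (ν i)) (fun i a => (ν i).real (cell ⁻¹' {a})) hd.2.2.1 hd.2.2.2.1 hα1
    (fun i => h.cpos.le.trans (h.le_phi _)) (fun i => h.phi_le_D _) (fun _ _ => measureReal_nonneg)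
    (fun i => by rw [sum_cell_real hc, probReal_univ])
    (fun a => by rw [hd.real_sum, hcell, Fintype.card_fin]) wb (fun a b => (hwb a b).1) (by
      intro i hi t ht
      refine (h.quad hc wb hwb hcell η herr (ν i) (α i) hi (hd.le_lam i) t ht).trans ?_
      have h1 := hα1 i hi
      have h2 : η / α i ^ 2 ≤ e ^ 2 / (4 * D) := by
        calc _ ≤ (α₀ ^ 2 * e ^ 2 / (4 * D)) / α₀ ^ 2 := by gcongr
          _ = _ := by field_simp
      have h3 : D / (α i * K) ≤ e ^ 2 / (4 * D) := by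
        calc _ ≤ D / (α₀ * (4 * D ^ 2 / (α₀ * e ^ 2))) := by gcongr
          _ = _ := by field_simp
      have h4 : e ^ 2 / (2 * D) = e ^ 2 / (4 * D) + e ^ 2 / (4 * D) := by field_simp; ring
      linarith)
  have hn : Tendsto (fun n : ℕ => (n : ℝ)) atTop atTop := tendsto_natCast_atTop_atTop
  filter_upwards [key, hn.eventually_ge_atTop (4 * D / (η₃ * δ)),
    hn.eventually_ge_atTop (16 * K ^ 3 / (e ^ 2 * δ)), eventually_gt_atTop 1] with n h1 h2 h3 h0
  have hn1 : (1 : ℝ) < n := by exact_mod_cast h0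
  have hn0 : (0 : ℝ) < n := by linarith
  have hlog : 0 < Real.log n := Real.log_pos hn1
  have hbe := bd_err hc h.bd wb
  let A : (Fin n → ℝ) → ℝ := fun x => (1 / (e * n / (2 * K)) ^ 2) *
    ∑ a, (((Finset.univ.filter fun i => cell (x i) = a).card : ℝ) - n / K) ^ 2
  let B : (Fin n → ℝ) → ℝ := fun x => (1 / (η₃ * n ^ 2)) *
    ∑ i, ∑ j, |w (x i) (x j) - wb (cell (x i)) (cell (x j))|
  have hA : Bd A := (Bd.const _).mul (Bd.sum _ fun a _ => (count_var hc hcell n a).1)
  have hB : Bd B := (Bd.const _).mul (Bd.sum _ fun i _ => Bd.sum _ fun j _ => bd_pair hbe i j)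
  have hA0 : ∀ x, 0 ≤ A x := fun x =>
    mul_nonneg (by positivity) (Finset.sum_nonneg fun _ _ => sq_nonneg _)
  have hB0 : ∀ x, 0 ≤ B x := fun x =>
    mul_nonneg (by positivity) (Finset.sum_nonneg fun _ _ => Finset.sum_nonneg fun _ _ =>
      abs_nonneg _)
  have hpt : ∀ x, Pr (qq (wx w x)) (fun ω => (Phi w + ε) * n / (2 * Real.log n) < chi ω) ≤
      δ / 4 + A x + B x := by
    intro x
    have hP1 := Pr_le_one (h.isP x) (fun ω => (Phi w + ε) * n / (2 * Real.log n) < chi ω)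
    by_cases hx1 : ∀ a, (1 - e / 2) * n / Fintype.card (Fin K) ≤
        (Finset.univ.filter fun i => cell (x i) = a).card
    · by_cases hx2 : ∑ i, ∑ j, |w (x i) (x j) - wb (cell (x i)) (cell (x j))| ≤ η₃ * n ^ 2
      · have h4 := h1 (wx w x) (fun _ _ => h.nonneg _ _) (fun _ _ => h.symm _ _)
          (fun _ _ => h.hi _ _) (fun i => cell (x i)) hx1 (by rw [← hη₃]; exact hx2)
        refine le_trans (le_trans (Pr_mono (h.isP x) fun ω hω => lt_of_le_of_lt ?_ hω) h4) ?_
        · have h5 : ∑ i, α i * phi w (ν i) + e * (2 + 8 * D) ≤ Phi w + ε := by linarith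
          gcongr
        · linarith [hA0 x, hB0 x]
      · have : 1 ≤ B x := by
          simp only [B]
          rw [one_div_mul_eq_div, le_div_iff₀ (by positivity), one_mul]
          exact (not_le.1 hx2).le
        linarith [hA0 x]
    · have : 1 ≤ A x := by
        simp only [A]
        rw [one_div_mul_eq_div, le_div_iff₀ (by positivity), one_mul]
        push Not at hx1
        obtain ⟨a, ha⟩ := hx1
        refine le_trans ?_ (Finset.single_le_sum (f := fun a =>
          (((Finset.univ.filter fun i => cell (x i) = a).card : ℝ) - n / K) ^ 2)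
          (fun _ _ => sq_nonneg _) (Finset.mem_univ a))
        rw [Fintype.card_fin] at ha
        have h5 : (1 - e / 2) * n / K = n / K - e * n / (2 * K) := by field_simp
        have h6 : 0 ≤ e * n / (2 * K) := by positivity
        nlinarith
      linarith [hB0 x]
  have hIA : ∫ x, A x ∂Pn n ≤ δ / 4 := by
    simp only [A]
    rw [integral_const_mul, integral_finsetSum _ fun a _ => (count_var hc hcell n a).1.integrable _]
    calc _ ≤ (1 / (e * n / (2 * K)) ^ 2) * ∑ _a : Fin K, (n : ℝ) := by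
          gcongr with a
          exact (count_var hc hcell n a).2
      _ = (16 * K ^ 3 / (e ^ 2 * δ)) / n * (δ / 4) := by simp; field_simp; ring
      _ ≤ _ := mul_le_of_le_one_left (by positivity) ((div_le_one hn0).2 h3)
  have hIB : ∫ x, B x ∂Pn n ≤ δ / 2 := by
    simp only [B]
    rw [integral_const_mul]
    calc _ ≤ (1 / (η₃ * n ^ 2)) * (n ^ 2 * (η₃ * δ / 4) + n * D) := by
          gcongr
          refine int_double_sum hbe (by positivity) (herr.trans hη2) fun x => ?_
          have h5 := hwb (cell x) (cell x)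
          rw [abs_le]
          constructor <;> linarith [h.nonneg x x, h.hi x x, h5.1, h5.2]
      _ = δ / 4 + (4 * D / (η₃ * δ)) / n * (δ / 4) := by field_simp
      _ ≤ δ / 4 + δ / 4 := by
          gcongr
          exact mul_le_of_le_one_left (by positivity) ((div_le_one hn0).2 h2)
      _ = _ := by ring
  calc _ ≤ ∫ x, (δ / 4 + A x + B x) ∂Pn n :=
        integral_mono ((h.bd_Pr _).integrable _) ((((Bd.const _).add hA).add hB).integrable _) hpt
    _ = δ / 4 + ∫ x, A x ∂Pn n + ∫ x, B x ∂Pn n := by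
        rw [integral_add (((Bd.const _).add hA).integrable _) (hB.integrable _),
          integral_add (integrable_const _) (hA.integrable _)]
        simp
    _ ≤ δ := by linarith

end Pool.Agent.Lib.MP_eaf82e_pr
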