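import Pool.Agent.Lib.MP_eaf82e_pr.Greedy
import Pool.Agent.Lib.MP_eaf82e_pr.Numeric

set_option autoImplicit false
set_option linter.unusedSectionVars false
open Finset Filter Topology

namespace Pool.Agent.Lib.MP_eaf82e_pr

variable {κ : Type*} [Fintype κ] [DecidableEq κ]

lemma sum_cells {V : Type*} (c : V → κ) (S : Finset V) (F : κ → ℝ) :
    ∑ x ∈ S, F (c x) = ∑ a, ((S.filter fun x => c x = a).card : ℝ) * F a := by
  rw [← Finset.sum_fiberwise (s := S) (g := c)]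
  refine Finset.sum_congr rfl fun a _ => ?_
  rw [Finset.sum_congr rfl (g := fun _ => F a) fun x hx => by rw [(Finset.mem_filter.1 hx).2]]
  simp

lemma theta_cond {V : Type*} [Fintype V] [LinearOrder V]
    (w : V → V → ℝ) (hs : ∀ i j, w i j = w j i) (D : ℝ) (hD0 : 0 < D) (hD : ∀ i j, w i j ≤ D)
    (c : V → κ) (wb : κ → κ → ℝ) (hwb : ∀ a b, 0 ≤ wb a b) (ν : κ → ℝ) (φ ε M : ℝ) (hφ : 0 ≤ φ)
    (hε : 0 < ε) (hM : 0 < M)
    (hν : ∀ t : κ → ℝ, IsP t → ∑ a, ∑ b, t a * t b * (ν a * ν b * wb a b) ≤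
      φ * ∑ a, t a * ν a + ε ^ 2 / (2 * D))
    (mq : κ → ℕ) (hmq : ∀ a, (mq a : ℝ) ≤ M * ν a) (T : Finset V) (hT : HasProf c mq T)
    (hex : ∑ x ∈ T, ∑ y ∈ T.erase x, |w x y - wb (c x) (c y)| < ε ^ 2 / (2 * D) * M ^ 2)
    (S : Finset V) (hS : S ⊆ T) : ws w S ≤ M * (φ + ε) / 2 * S.card := by
  have hS0 : (0 : ℝ) ≤ S.card := Nat.cast_nonneg _
  by_cases hsm : (S.card : ℝ) ≤ ε / D * M
  · have h1 := two_ws_le hs hD0.le hD S
    have h2 : D * S.card ≤ ε * M := by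
      rw [div_mul_eq_mul_div, le_div_iff₀ hD0] at hsm; linarith
    have h3 := mul_le_mul_of_nonneg_right h2 hS0
    have h4 : 0 ≤ M * φ * S.card := by positivity
    nlinarith
  obtain ⟨s, hsdef⟩ : ∃ s : κ → ℝ, s = fun a => ((S.filter fun x => c x = a).card : ℝ) := ⟨_, rfl⟩
  have hs0 : ∀ a, 0 ≤ s a := fun a => by rw [hsdef]; exact Nat.cast_nonneg _
  have hs1 : ∀ a, s a ≤ M * ν a := fun a => by
    refine le_trans ?_ (hmq a)
    rw [hsdef, ← hT a]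
    exact Nat.cast_le.2 (Finset.card_le_card (Finset.filter_subset_filter _ hS))
  have ht : ∀ a, s a / (M * ν a) * ν a = s a / M := fun a => by
    rcases eq_or_ne (ν a) 0 with h | h
    · have := hs1 a
      rw [h, mul_zero] at this
      rw [le_antisymm this (hs0 a)]; simp
    · field_simp
  have h1 := hν (fun a => s a / (M * ν a)) (fun a =>
    ⟨div_nonneg (hs0 a) ((hs0 a).trans (hs1 a)), div_le_one_of_le₀ (hs1 a) ((hs0 a).trans (hs1 a))⟩)
  have h2 : ∑ a, ∑ b, s a / (M * ν a) * (s b / (M * ν b)) * (ν a * ν b * wb a b) =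
      (∑ x ∈ S, ∑ y ∈ S, wb (c x) (c y)) / M ^ 2 := by
    rw [sum_cells c S (fun a => ∑ y ∈ S, wb a (c y)), Finset.sum_div]
    refine Finset.sum_congr rfl fun a _ => ?_
    rw [sum_cells c S (fun b => wb a b), Finset.mul_sum, Finset.sum_div]
    refine Finset.sum_congr rfl fun b _ => ?_
    calc _ = (s a / (M * ν a) * ν a) * (s b / (M * ν b) * ν b) * wb a b := by ring
      _ = _ := by rw [ht, ht, hsdef]; field_simp
  have h3 : ∑ a, s a / (M * ν a) * ν a = S.card / M := by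
    simp_rw [ht]
    rw [← Finset.sum_div]
    congr 1
    have := sum_cells c S (fun _ => 1)
    rw [hsdef]
    simpa using this.symm
  rw [h2, h3, div_le_iff₀ (by positivity)] at h1
  have h4 : 2 * ws w S ≤ ∑ x ∈ S, ∑ y ∈ S, wb (c x) (c y) +
      ∑ x ∈ T, ∑ y ∈ T.erase x, |w x y - wb (c x) (c y)| := by
    rw [two_ws hs]
    calc _ ≤ ∑ x ∈ S, (∑ y ∈ S, wb (c x) (c y) + ∑ y ∈ T.erase x, |w x y - wb (c x) (c y)|) := by
          refine Finset.sum_le_sum fun x _ => ?_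
          calc _ ≤ ∑ y ∈ S.erase x, (wb (c x) (c y) + |w x y - wb (c x) (c y)|) :=
                Finset.sum_le_sum fun y _ => by linarith [le_abs_self (w x y - wb (c x) (c y))]
            _ ≤ _ := by
                rw [Finset.sum_add_distrib]
                apply add_le_add
                · exact Finset.sum_le_sum_of_subset_of_nonneg (Finset.erase_subset _ _)
                    fun _ _ _ => hwb _ _
                · exact Finset.sum_le_sum_of_subset_of_nonneg (Finset.erase_subset_erase _ hS)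
                    fun _ _ _ => abs_nonneg _
      _ ≤ _ := by
          rw [Finset.sum_add_distrib]
          apply add_le_add le_rfl
          exact Finset.sum_le_sum_of_subset_of_nonneg hS
            fun _ _ _ => Finset.sum_nonneg fun _ _ => abs_nonneg _
  have h5 : (φ * (S.card / M) + ε ^ 2 / (2 * D)) * M ^ 2 + ε ^ 2 / (2 * D) * M ^ 2 =
      φ * M * S.card + ε * M * (ε / D * M) := by field_simp; ring
  have h6 := mul_le_mul_of_nonneg_left (not_le.1 hsm).le (show 0 ≤ ε * M by positivity)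
  nlinarith

lemma leftover (D ε δ : ℝ) (hD0 : 0 < D) (hε : 0 < ε) (hε2 : ε ≤ 1 / 2) (hδ : 0 < δ) :
    ∀ᶠ n : ℕ in atTop, ∀ w : Fin n → Fin n → ℝ, (∀ i j, 0 ≤ w i j) → (∀ i j, w i j = w j i) →
      (∀ i j, w i j ≤ D) →
      Pr (qq w) (fun ω => ¬ Avail (fun _ => ()) (fun _ => ⌊Real.log n / D⌋₊)
        (n / Real.log n ^ 2) ω) ≤ δ := by
  filter_upwards [numeric D ε (1 / D) δ hD0.le hε (by positivity) hδ, ev_log (2 * D),
    ev_polylog (2 / D ^ 2) 6, eventually_gt_atTop 0] with n h1 h2 h3 h0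
  obtain ⟨β, τ, hβ, hτ, h1⟩ := h1
  intro w hw0 hs hD
  obtain ⟨l, hl⟩ : ∃ l : ℝ, l = Real.log n := ⟨_, rfl⟩
  rw [← hl] at h1 h2 h3 ⊢
  have hl0 : 0 < l := by linarith
  have hn0 : (0 : ℝ) < n := by exact_mod_cast h0
  obtain ⟨m, hm⟩ : ∃ m : ℕ, m = ⌊l / D⌋₊ := ⟨_, rfl⟩
  rw [← hm]
  have hm1 : (m : ℝ) ≤ l / D := hm ▸ Nat.floor_le (by positivity)
  have hm2 : 2 ≤ m := hm ▸ Nat.le_floor (by rw [le_div_iff₀ hD0]; exact_mod_cast h2)
  obtain ⟨h4, h5⟩ := h1 m (n / l ^ 2) (by rwa [one_div_mul_eq_div]) le_rfl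
  have := profile_bound w hw0 hs D hD hD0.le (fun _ => ()) (fun _ => m) m (by simp) hm2
    (n / l ^ 2) (by positivity) (m / (n / l ^ 2)) (fun _ => by field_simp; exact le_rfl)
    (fun _ _ => 0) (fun _ _ => le_rfl) 1 ((1 - ε) * l) one_pos ?_ ?_ β τ hβ hτ h4
  · rw [Fintype.card_fin] at this
    exact this.trans h5
  · simp only [Finset.sum_const_zero, zero_add, Fintype.card_fin, mul_one]
    calc _ ≤ ((l / D) / (n / l ^ 2)) ^ 2 * n := by gcongr
      _ = (2 / D ^ 2 * l ^ 6) / n / 2 := by field_simp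
      _ ≤ _ := by
        have : (2 / D ^ 2 * l ^ 6) / n ≤ 1 := (div_le_one hn0).2 h3
        linarith
  · intro T hT _ S hS
    have h6 := two_ws_le hs hD0.le hD S
    have h7 : (S.card : ℝ) ≤ m := by
      have := Finset.card_le_card hS
      rw [hT.card] at this
      simpa using this
    have hS0 : (0 : ℝ) ≤ S.card := Nat.cast_nonneg _
    have h8 : D * S.card ≤ l := by
      have := h7.trans hm1
      rw [le_div_iff₀ hD0] at this; linarith
    have h9 := mul_le_mul_of_nonneg_right h8 hS0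
    have h10 : 0 ≤ (1 / 2 - ε) * (l * S.card) := mul_nonneg (by linarith) (by positivity)
    nlinarith

lemma floor_sum_ge (M : ℝ) (ν : κ → ℝ) (hν1 : ∑ a, ν a = 1) :
    M - Fintype.card κ ≤ ∑ a, (⌊M * ν a⌋₊ : ℝ) := by
  calc M - Fintype.card κ = ∑ a, (M * ν a - 1) := by
        rw [Finset.sum_sub_distrib, ← Finset.mul_sum, hν1]; simp
    _ ≤ _ := Finset.sum_le_sum fun a _ => (Nat.sub_one_lt_floor _).le

lemma type_avail (D ε δ α₀ φ : ℝ) (hD0 : 0 < D) (hε : 0 < ε) (hε2 : ε ≤ 1 / 2) (hδ : 0 < δ)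
    (hα : 0 < α₀) (hφ0 : 0 ≤ φ) (hφD : φ ≤ D) (hK : 0 < Fintype.card κ)
    (wb : κ → κ → ℝ) (hwb : ∀ a b, 0 ≤ wb a b) (ν : κ → ℝ) (hν0 : ∀ a, 0 ≤ ν a)
    (hν1 : ∑ a, ν a = 1) (hν2 : ∀ a, α₀ * ν a ≤ 1 / Fintype.card κ)
    (hν : ∀ t : κ → ℝ, IsP t → ∑ a, ∑ b, t a * t b * (ν a * ν b * wb a b) ≤
      φ * ∑ a, t a * ν a + ε ^ 2 / (2 * D)) :
    ∀ᶠ n : ℕ in atTop, ∀ w : Fin n → Fin n → ℝ, (∀ i j, 0 ≤ w i j) → (∀ i j, w i j = w j i) →
      (∀ i j, w i j ≤ D) → ∀ c : Fin n → κ,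
      ∑ x, ∑ y, |w x y - wb (c x) (c y)| ≤ α₀ ^ 2 * ε ^ 4 / (32 * D) * n ^ 2 →
      Pr (qq w) (fun ω => ¬ Avail c (fun a => ⌊(1 - ε) * 2 * Real.log n / (φ + ε) * ν a⌋₊)
        (ε / 2 * n / Fintype.card κ) ω) ≤ δ := by
  obtain ⟨K, hKdef⟩ : ∃ K : ℝ, K = Fintype.card κ := ⟨_, rfl⟩
  have hK0 : 0 < K := by rw [hKdef]; exact_mod_cast hK
  rw [← hKdef] at hν2 ⊢
  filter_upwards [numeric D ε (2 / ε) δ hD0.le hε (by positivity) hδ, ev_log ((K + 2) * (D + 1)),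
    ev_log (2 * K / ε), ev_log 1,
    ev_polylog (64 / (α₀ ^ 2 * ε ^ 4)) 2, eventually_gt_atTop 0] with n h1 h2 h2' h2'' h3 h0
  obtain ⟨β, τ, hβ, hτ, h1⟩ := h1
  intro w hw0 hs hD c hB
  obtain ⟨l, hl⟩ : ∃ l : ℝ, l = Real.log n := ⟨_, rfl⟩
  rw [← hl] at h1 h2 h2' h2'' h3 ⊢
  have hl0 : 0 < l := by linarith
  have hn0 : (0 : ℝ) < n := by exact_mod_cast h0
  obtain ⟨M, hM⟩ : ∃ M : ℝ, M = (1 - ε) * 2 * l / (φ + ε) := ⟨_, rfl⟩
  rw [← hM]
  have hM1 : M * (φ + ε) = (1 - ε) * 2 * l := by rw [hM]; field_simp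
  have hM0 : 0 < M := by
    rw [hM]; exact div_pos (mul_pos (by linarith) hl0) (by linarith)
  have hM2 : M ≤ 2 / ε * l := by
    rw [div_mul_eq_mul_div, le_div_iff₀ hε]
    nlinarith [mul_nonneg hM0.le hφ0, mul_pos hε hl0]
  have hM3 : K + 2 ≤ M := by
    have : (K + 2) * (D + 1) ≤ M * (D + 1) := by
      nlinarith [mul_le_mul_of_nonneg_left (show φ + ε ≤ D + 1 by linarith) hM0.le,
        mul_nonneg (show 0 ≤ 1 / 2 - ε by linarith) hl0.le]
    exact le_of_mul_le_mul_right this (by linarith)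
  have hmq : ∀ a, (⌊M * ν a⌋₊ : ℝ) ≤ M * ν a := fun a => Nat.floor_le (mul_nonneg hM0.le (hν0 a))
  obtain ⟨m, hm⟩ : ∃ m : ℕ, m = ∑ a, ⌊M * ν a⌋₊ := ⟨_, rfl⟩
  have hm1 : (m : ℝ) ≤ M := by
    rw [hm]; push_cast
    refine (Finset.sum_le_sum fun a _ => hmq a).trans ?_
    rw [← Finset.mul_sum, hν1, mul_one]
  have hm2 : 2 ≤ m := by
    have := floor_sum_ge M ν hν1
    rw [← hKdef] at this
    have h5 : (2 : ℝ) ≤ m := by rw [hm]; push_cast; linarith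
    exact_mod_cast h5
  have hu : (n : ℝ) / l ^ 2 ≤ ε / 2 * n / K := by
    rw [div_le_div_iff₀ (by positivity) hK0]
    rw [div_le_iff₀ hε] at h2'
    have : K ≤ ε / 2 * l ^ 2 := by nlinarith [mul_pos hε hl0]
    nlinarith
  obtain ⟨h4, h5⟩ := h1 m (ε / 2 * n / K) (hm1.trans hM2) hu
  have := profile_bound w hw0 hs D hD hD0.le c (fun a => ⌊M * ν a⌋₊) m hm.symm hm2
    (ε / 2 * n / K) (by positivity) (M / (α₀ * (ε / 2) * n)) ?_
    (fun x y => |w x y - wb (c x) (c y)|) (fun _ _ => abs_nonneg _)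
    (ε ^ 2 / (2 * D) * M ^ 2) ((1 - ε) * l) (by positivity) ?_ ?_ β τ hβ hτ h4
  · rw [Fintype.card_fin] at this
    exact this.trans h5
  · intro a
    refine (hmq a).trans ?_
    have h6 : M / (α₀ * (ε / 2) * n) * (ε / 2 * n / K) = M * (1 / K / α₀) := by field_simp
    rw [h6]
    apply mul_le_mul_of_nonneg_left _ hM0.le
    rw [le_div_iff₀ hα, mul_comm]; exact hν2 a
  · rw [Fintype.card_fin, mul_add]
    have h6 : (M / (α₀ * (ε / 2) * n)) ^ 2 * ∑ x, ∑ y, |w x y - wb (c x) (c y)| ≤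
        ε ^ 2 / (2 * D) * M ^ 2 / 4 := by
      refine (mul_le_mul_of_nonneg_left hB (sq_nonneg _)).trans (le_of_eq ?_)
      field_simp; ring
    have h7 : (M / (α₀ * (ε / 2) * n)) ^ 2 * n ≤ 1 / 4 := by
      calc _ ≤ ((2 / ε * l) / (α₀ * (ε / 2) * n)) ^ 2 * n := by gcongr
        _ = (64 / (α₀ ^ 2 * ε ^ 4) * l ^ 2) / n / 4 := by field_simp; ring
        _ ≤ _ := by
          have : (64 / (α₀ ^ 2 * ε ^ 4) * l ^ 2) / n ≤ 1 := (div_le_one hn0).2 h3
          linarith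
    have h8 := mul_le_mul_of_nonneg_right h7 (show 0 ≤ ε ^ 2 / (2 * D) * M ^ 2 by positivity)
    rw [← mul_assoc]
    linarith
  · intro T hT hex S hS
    have := theta_cond w hs D hD0 hD c wb hwb ν φ ε M hφ0 hε hM0 hν _ hmq T hT hex S hS
    rw [hM1] at this
    convert this using 2; ring

end Pool.Agent.Lib.MP_eaf82e_pr
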